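import Mathlib

/-!
Stationary processes, i.i.d. processes and finitary factor maps.
-/

open MeasureTheory

namespace Pool.Agent.NoIid

/-- the left shift on bi-infinite sequences -/
def shift {A : Type*} (x : ℤ → A) : ℤ → A := fun n => x (n + 1)

/-- a (two-sided) stationary process with alphabet `A`: a shift-invariant probability measure
on `A^ℤ` (with the product σ-algebra) -/
def IsProcess {A : Type*} [MeasurableSpace A] (μ : Measure (ℤ → A)) : Prop :=
  IsProbabilityMeasure μ ∧ μ.map shift = μ

/-- a process is trivial if its coordinate is almost surely constant -/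
def IsTrivialProcess {A : Type*} [MeasurableSpace A] (μ : Measure (ℤ → A)) : Prop :=
  ∃ a : A, ∀ᵐ x ∂μ, x 0 = a

/-- the i.i.d. process with marginal `p`: the product measure `p^ℤ` -/
noncomputable def iid {B : Type*} [MeasurableSpace B] (p : Measure B) : Measure (ℤ → B) :=
  Measure.infinitePi (fun _ : ℤ => p)

/-- `φ` is a finitary factor map from the process `μ` onto the process `ν` -/
structure IsFinitaryFactorMap {A C : Type*} [MeasurableSpace A] [MeasurableSpace C]
    (μ : Measure (ℤ → A)) (ν : Measure (ℤ → C)) (φ : (ℤ → A) → (ℤ → C)) : Prop where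
  /-- `φ` is measurable (as a map defined almost everywhere) -/
  aemeasurable : AEMeasurable φ μ
  /-- `φ` commutes with the shift almost everywhere -/
  equivariant : ∀ᵐ x ∂μ, φ (shift x) = shift (φ x)
  /-- `φ` pushes `μ` forward to `ν` -/
  map_eq : μ.map φ = ν
  /-- for almost every `x` there is a finite coding radius `r` -/
  finitary : ∀ᵐ x ∂μ, ∃ r : ℕ, ∀ᵐ y ∂μ, (∀ i : ℤ, |i| ≤ r → y i = x i) → φ y 0 = φ x 0

/-- `ν` is a finitary factor of `μ` -/
def IsFinitaryFactor {A C : Type*} [MeasurableSpace A] [MeasurableSpace C]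
    (μ : Measure (ℤ → A)) (ν : Measure (ℤ → C)) : Prop :=
  ∃ φ : (ℤ → A) → (ℤ → C), IsFinitaryFactorMap μ ν φ

end Pool.Agent.NoIid
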