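import Mathlib

/-!
Deterministic structure of the hierarchical construction.
-/

namespace Pool.Agent.NoIid

/-- a maximal run of exactly `r` ones of `W` ends just before `e` -/
def Run (W : ℤ → Bool) (e : ℤ) (r : ℕ) : Prop :=
  W e = false ∧ (∀ m : ℤ, e - r ≤ m → m < e → W m = true) ∧ W (e - r - 1) = false

/-- action mark of level `i` with rule `a` at `e` -/
def AM (s : ℕ → ℕ) (W : ℤ → Bool) (i a : ℕ) (e : ℤ) : Prop :=
  a < s i ∧ Run W e (10 * s i + a)

/-- mark (freezing or action) of level `i` at `e` -/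
def MK (s : ℕ → ℕ) (W : ℤ → Bool) (i : ℕ) (e : ℤ) : Prop :=
  Run W e (s i) ∨ ∃ a, AM s W i a e

/-- `k` lies in the interval covered by a mark of level `i` at `e` -/
def InJ (s : ℕ → ℕ) (i : ℕ) (e k : ℤ) : Prop :=
  e + s i < k ∧ k ≤ e + s i + 4 ^ s i

/-- `k` is not covered by any mark of level `< i` -/
def V (s : ℕ → ℕ) (W : ℤ → Bool) (i : ℕ) (k : ℤ) : Prop :=
  ∀ i', i' < i → ∀ e, MK s W i' e → ¬ InJ s i' e k

/-- active action mark -/
def Ac (s : ℕ → ℕ) (W : ℤ → Bool) (i a : ℕ) (e : ℤ) : Prop :=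
  AM s W i a e ∧ ∀ a' e', AM s W i a' e' → e' ≠ e → (4 ^ s i : ℤ) ≤ |e' - e|

open Classical in
/-- the successive approximations of the process -/
noncomputable def yy (s : ℕ → ℕ) (F : ℕ → (ℤ → Bool) → ℤ → Bool) (U W : ℤ → Bool) :
    ℕ → ℤ → Bool
  | 0 => U
  | i + 1 => fun k =>
    if h : V s W i k ∧ ∃ p : ℤ × ℕ, Ac s W i p.2 p.1 ∧ InJ s i p.1 k then
      F h.2.choose.2 (fun q => if 0 ≤ q ∧ q < 4 ^ s i then
        yy s F U W i (h.2.choose.1 + s i + 1 + q) else false) (k - (h.2.choose.1 + s i + 1))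
    else yy s F U W i k

section basic

variable {s : ℕ → ℕ} {F : ℕ → (ℤ → Bool) → ℤ → Bool} {U W : ℤ → Bool}

theorem Run.unique {e : ℤ} {r r' : ℕ} (h : Run W e r) (h' : Run W e r') : r = r' := by
  rcases lt_trichotomy r r' with hlt | heq | hlt
  · exfalso
    have h1 := h'.2.1 (e - r - 1) (by omega) (by omega)
    rw [h.2.2] at h1
    exact Bool.false_ne_true h1
  · exact heq
  · exfalso
    have h1 := h.2.1 (e - r' - 1) (by omega) (by omega)
    rw [h'.2.2] at h1
    exact Bool.false_ne_true h1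

theorem Ac.unique {i a a' : ℕ} {e e' k : ℤ} (h : Ac s W i a e) (h' : Ac s W i a' e')
    (hk : InJ s i e k) (hk' : InJ s i e' k) : e = e' ∧ a = a' := by
  have he : e' = e := by
    by_contra hne
    have h1 := h.2 a' e' h'.1 hne
    have h2 := hk.1
    have h3 := hk.2
    have h4 := hk'.1
    have h5 := hk'.2
    have h6 : |e' - e| < 4 ^ s i := by
      rw [abs_lt]; constructor <;> linarith
    linarith
  subst he
  refine ⟨rfl, ?_⟩
  have := h.1.2.unique h'.1.2
  omega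

/-- masked content of the approximation on the interval of a mark -/
noncomputable def cont (s : ℕ → ℕ) (i : ℕ) (y : ℤ → Bool) (e : ℤ) : ℤ → Bool := fun q =>
  open Classical in
  if 0 ≤ q ∧ q < 4 ^ s i then y (e + s i + 1 + q) else false

theorem yy_succ_act {i a : ℕ} {e k : ℤ} (hV : V s W i k) (hA : Ac s W i a e) (hk : InJ s i e k) :
    yy s F U W (i + 1) k = F a (cont s i (yy s F U W i) e) (k - (e + s i + 1)) := by
  have h : V s W i k ∧ ∃ p : ℤ × ℕ, Ac s W i p.2 p.1 ∧ InJ s i p.1 k := ⟨hV, (e, a), hA, hk⟩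
  have hs := h.2.choose_spec
  obtain ⟨h1, h2⟩ := Ac.unique hs.1 hA hs.2 hk
  rw [yy]
  simp only
  rw [dif_pos h]
  unfold cont
  rw [h1, h2]

theorem yy_succ_nact {i : ℕ} {k : ℤ}
    (h : ¬ (V s W i k ∧ ∃ p : ℤ × ℕ, Ac s W i p.2 p.1 ∧ InJ s i p.1 k)) :
    yy s F U W (i + 1) k = yy s F U W i k := by
  rw [yy]
  simp only
  rw [dif_neg h]

theorem yy_zero : yy s F U W 0 = U := rfl

theorem V_zero (k : ℤ) : V s W 0 k := fun i' h => absurd h (Nat.not_lt_zero _)

theorem V_mono {i i' : ℕ} (h : i ≤ i') {k : ℤ} (hV : V s W i' k) : V s W i k :=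
  fun j hj => hV j (lt_of_lt_of_le hj h)

theorem V_succ {i : ℕ} {k : ℤ} :
    V s W (i + 1) k ↔ V s W i k ∧ ∀ e, MK s W i e → ¬ InJ s i e k := by
  constructor
  · intro h
    exact ⟨V_mono (Nat.le_succ i) h, h i (Nat.lt_succ_self i)⟩
  · rintro ⟨h1, h2⟩ i' hi'
    rcases Nat.lt_succ_iff_lt_or_eq.mp hi' with h | h
    · exact h1 i' h
    · subst h; exact h2

/-- `k` is not covered by any action mark of level `< i` -/
def NA (s : ℕ → ℕ) (W : ℤ → Bool) (i : ℕ) (k : ℤ) : Prop :=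
  ∀ i', i' < i → ∀ a e, AM s W i' a e → ¬ InJ s i' e k

theorem V.na {i : ℕ} {k : ℤ} (h : V s W i k) : NA s W i k :=
  fun i' hi' a e hA => h i' hi' e (Or.inr ⟨a, hA⟩)

/-- bits of `U` at sites outside all action intervals only influence their own site -/
theorem yy_indep {C : Set ℤ} {U' : ℤ → Bool} (hU : ∀ k, k ∉ C → U k = U' k) :
    ∀ i : ℕ, (∀ k ∈ C, NA s W i k) →
      (∀ k, k ∉ C → yy s F U W i k = yy s F U' W i k) ∧ (∀ k ∈ C, yy s F U W i k = U k) := by
  intro i
  induction i with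
  | zero =>
    intro _
    exact ⟨fun k hk => hU k hk, fun k _ => rfl⟩
  | succ i ih =>
    intro hC
    have hC' : ∀ k ∈ C, NA s W i k := fun k hk i' hi' => hC k hk i' (Nat.lt_succ_of_lt hi')
    obtain ⟨ih1, ih2⟩ := ih hC'
    constructor
    · intro k hk
      by_cases h : V s W i k ∧ ∃ p : ℤ × ℕ, Ac s W i p.2 p.1 ∧ InJ s i p.1 k
      · obtain ⟨hV, ⟨e, a⟩, hA, hJ⟩ := h
        rw [yy_succ_act hV hA hJ, yy_succ_act hV hA hJ]
        congr 1
        funext q
        unfold cont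
        split_ifs with hq
        · apply ih1
          intro hmem
          exact hC _ hmem i (Nat.lt_succ_self i) a e hA.1 ⟨by simp only; omega, by simp only; omega⟩
        · rfl
      · rw [yy_succ_nact h, yy_succ_nact h]
        exact ih1 k hk
    · intro k hk
      have h : ¬ (V s W i k ∧ ∃ p : ℤ × ℕ, Ac s W i p.2 p.1 ∧ InJ s i p.1 k) := by
        rintro ⟨_, ⟨e, a⟩, hA, hJ⟩
        exact hC k hk i (Nat.lt_succ_self i) a e hA.1 hJ
      rw [yy_succ_nact h]
      exact ih2 k hk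

theorem yy_of_V {i : ℕ} {k : ℤ} (h : V s W i k) : yy s F U W i k = U k :=
  (yy_indep (C := {k | V s W i k}) (U' := U) (fun _ _ => rfl) i (fun _ hk => V.na hk)).2 k h

theorem yy_stable {i i' : ℕ} (hii : i ≤ i') {k : ℤ} (h : ¬ V s W i k) :
    yy s F U W i' k = yy s F U W i k := by
  induction i', hii using Nat.le_induction with
  | base => rfl
  | succ n hn ih =>
    rw [yy_succ_nact, ih]
    rintro ⟨hV, _⟩
    exact h (V_mono hn hV)

end basic

end Pool.Agent.NoIid
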