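import Mathlib
import Pool.Agent.NoIid.Struct

/-!
Locality and shift equivariance of the construction.
-/

namespace Pool.Agent.NoIid

/-- growth condition on the level parameters -/
def Growth (s : ℕ → ℕ) : Prop := 10 ≤ s 0 ∧ ∀ i, 1000 * 4 ^ s i ≤ s (i + 1)

theorem pow_ge (n : ℕ) (h : 10 ≤ n) : 100 * n + 100 ≤ 4 ^ n := by
  induction n, h using Nat.le_induction with
  | base => norm_num
  | succ n hn ih => rw [pow_succ]; omega

theorem Growth.ge10 {s : ℕ → ℕ} (h : Growth s) (i : ℕ) : 10 ≤ s i := by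
  cases i with
  | zero => exact h.1
  | succ i =>
    have h1 := h.2 i
    have h2 : 1 ≤ 4 ^ s i := Nat.one_le_pow _ _ (by norm_num)
    omega

theorem Growth.pow_ge {s : ℕ → ℕ} (h : Growth s) (i : ℕ) : 100 * s i + 100 ≤ 4 ^ s i :=
  NoIid.pow_ge _ (h.ge10 i)

theorem Growth.pow_geZ {s : ℕ → ℕ} (h : Growth s) (i : ℕ) :
    100 * (s i : ℤ) + 100 ≤ 4 ^ s i := by
  exact_mod_cast h.pow_ge i

theorem Growth.lt_succ {s : ℕ → ℕ} (h : Growth s) (i : ℕ) : s i < s (i + 1) := by
  have h1 := h.2 i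
  have h2 := h.pow_ge i
  omega

theorem Growth.strictMono {s : ℕ → ℕ} (h : Growth s) : StrictMono s :=
  strictMono_nat_of_lt_succ h.lt_succ

theorem Growth.lt {s : ℕ → ℕ} (h : Growth s) {i j : ℕ} (hij : i < j) :
    1000 * 4 ^ s i ≤ s j :=
  le_trans (h.2 i) (h.strictMono.monotone hij)

theorem Growth.ltZ {s : ℕ → ℕ} (h : Growth s) {i j : ℕ} (hij : i < j) :
    1000 * (4 : ℤ) ^ s i ≤ s j := by
  exact_mod_cast h.lt hij

/-- radius of dependence of the `i`-th approximation -/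
def rad (s : ℕ → ℕ) : ℕ → ℤ
  | 0 => 0
  | i + 1 => 4 * 4 ^ s i

theorem rad_nonneg (s : ℕ → ℕ) (i : ℕ) : 0 ≤ rad s i := by
  cases i with
  | zero => exact le_refl _
  | succ i => unfold rad; positivity

theorem Growth.rad_le {s : ℕ → ℕ} (h : Growth s) (i : ℕ) : 100 * rad s i ≤ s i := by
  cases i with
  | zero => simp [rad]
  | succ i =>
    have := h.ltZ (Nat.lt_succ_self i)
    unfold rad
    have h2 : (0 : ℤ) < 4 ^ s i := by positivity
    have h3 : ((i + 1 : ℕ)) = i.succ := rfl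
    rw [h3]
    linarith

theorem Growth.rad_mono {s : ℕ → ℕ} (h : Growth s) {i' i : ℕ} (hi : i' < i) :
    4 * (4 : ℤ) ^ s i' ≤ rad s i := by
  cases i with
  | zero => omega
  | succ i =>
    unfold rad
    have : (4 : ℤ) ^ s i' ≤ 4 ^ s i := by
      apply pow_le_pow_right₀ (by norm_num)
      exact h.strictMono.monotone (Nat.lt_succ_iff.mp hi)
    linarith

section loc

variable {s : ℕ → ℕ} {F : ℕ → (ℤ → Bool) → ℤ → Bool} {U W U' W' : ℤ → Bool}

theorem Run.congr {e : ℤ} {r : ℕ} (h : ∀ k, e - r - 1 ≤ k → k ≤ e → W k = W' k) :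
    Run W e r ↔ Run W' e r := by
  unfold Run
  rw [h e (by omega) le_rfl, h (e - r - 1) le_rfl (by omega)]
  constructor
  · rintro ⟨h1, h2, h3⟩
    exact ⟨h1, fun m hm1 hm2 => by rw [← h m (by omega) (by omega)]; exact h2 m hm1 hm2, h3⟩
  · rintro ⟨h1, h2, h3⟩
    exact ⟨h1, fun m hm1 hm2 => by rw [h m (by omega) (by omega)]; exact h2 m hm1 hm2, h3⟩

theorem AM.congr {i a : ℕ} {e : ℤ} (h : ∀ k, e - 11 * s i - 1 ≤ k → k ≤ e → W k = W' k) :
    AM s W i a e ↔ AM s W' i a e := by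
  unfold AM
  constructor
  · rintro ⟨h1, h2⟩
    exact ⟨h1, (Run.congr (fun k hk1 hk2 => h k (by push_cast at hk1; omega) hk2)).mp h2⟩
  · rintro ⟨h1, h2⟩
    exact ⟨h1, (Run.congr (fun k hk1 hk2 => h k (by push_cast at hk1; omega) hk2)).mpr h2⟩

theorem MK.congr {i : ℕ} {e : ℤ} (h : ∀ k, e - 11 * s i - 1 ≤ k → k ≤ e → W k = W' k) :
    MK s W i e ↔ MK s W' i e := by
  unfold MK
  rw [Run.congr (W' := W') (fun k hk1 hk2 => h k (by omega) hk2)]
  constructor
  · rintro (h1 | ⟨a, h1⟩)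
    · exact Or.inl h1
    · exact Or.inr ⟨a, (AM.congr h).mp h1⟩
  · rintro (h1 | ⟨a, h1⟩)
    · exact Or.inl h1
    · exact Or.inr ⟨a, (AM.congr h).mpr h1⟩

theorem V.congr (hs : Growth s) {i : ℕ} {k : ℤ}
    (h : ∀ m, k - rad s i ≤ m → m ≤ k → W m = W' m) :
    V s W i k ↔ V s W' i k := by
  have key : ∀ i', i' < i → ∀ e, InJ s i' e k → (MK s W i' e ↔ MK s W' i' e) := by
    intro i' hi' e hJ
    apply MK.congr
    intro m hm1 hm2
    have h1 := hs.rad_mono hi'
    have h2 := hs.pow_geZ i'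
    have h3 := hJ.1
    have h4 := hJ.2
    exact h m (by omega) (by omega)
  unfold V
  constructor
  · intro h1 i' hi' e hM hJ
    exact h1 i' hi' e ((key i' hi' e hJ).mpr hM) hJ
  · intro h1 i' hi' e hM hJ
    exact h1 i' hi' e ((key i' hi' e hJ).mp hM) hJ

theorem NA.congr (hs : Growth s) {i : ℕ} {k : ℤ}
    (h : ∀ m, k - rad s i ≤ m → m ≤ k → W m = W' m) :
    NA s W i k ↔ NA s W' i k := by
  have key : ∀ i', i' < i → ∀ a e, InJ s i' e k → (AM s W i' a e ↔ AM s W' i' a e) := by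
    intro i' hi' a e hJ
    apply AM.congr
    intro m hm1 hm2
    have h1 := hs.rad_mono hi'
    have h2 := hs.pow_geZ i'
    have h3 := hJ.1
    have h4 := hJ.2
    exact h m (by omega) (by omega)
  unfold NA
  constructor
  · intro h1 i' hi' a e hM hJ
    exact h1 i' hi' a e ((key i' hi' a e hJ).mpr hM) hJ
  · intro h1 i' hi' a e hM hJ
    exact h1 i' hi' a e ((key i' hi' a e hJ).mp hM) hJ

theorem Ac.congr_mp (hs : Growth s) {i a : ℕ} {e : ℤ}
    (h : ∀ m, e - 2 * 4 ^ s i ≤ m → m ≤ e + 4 ^ s i → W m = W' m) (hA : Ac s W i a e) :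
    Ac s W' i a e := by
  have h2 := hs.pow_geZ i
  constructor
  · exact (AM.congr (fun k hk1 hk2 => h k (by omega) (by omega))).mp hA.1
  · intro a' e' hA' hne
    by_contra hlt
    push Not at hlt
    rw [abs_lt] at hlt
    have h3 : AM s W i a' e' :=
      (AM.congr (fun k hk1 hk2 => h k (by omega) (by omega))).mpr hA'
    have h4 := hA.2 a' e' h3 hne
    have h5 : |e' - e| < 4 ^ s i := by rw [abs_lt]; exact hlt
    omega

theorem Ac.congr (hs : Growth s) {i a : ℕ} {e : ℤ}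
    (h : ∀ m, e - 2 * 4 ^ s i ≤ m → m ≤ e + 4 ^ s i → W m = W' m) :
    Ac s W i a e ↔ Ac s W' i a e :=
  ⟨Ac.congr_mp hs h, Ac.congr_mp hs (fun m h1 h2 => (h m h1 h2).symm)⟩

theorem yy_congr (hs : Growth s) : ∀ (i : ℕ) (k : ℤ),
    (∀ m, k - rad s i ≤ m → m ≤ k + rad s i → W m = W' m) →
    (∀ m, k - rad s i ≤ m → m ≤ k + rad s i → U m = U' m) →
    yy s F U W i k = yy s F U' W' i k := by
  intro i
  induction i with
  | zero =>
    intro k _ hU
    exact hU k (by simp [rad]) (by simp [rad])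
  | succ i ih =>
    intro k hW hU
    have h2 := hs.pow_geZ i
    have hr : rad s (i + 1) = 4 * 4 ^ s i := rfl
    have hri := hs.rad_le i
    have hri0 := rad_nonneg s i
    rw [hr] at hW hU
    have hVc : V s W i k ↔ V s W' i k :=
      V.congr hs (fun m h1 h3 => hW m (by omega) (by omega))
    have hAc : ∀ a e, InJ s i e k → (Ac s W i a e ↔ Ac s W' i a e) := by
      intro a e hJ
      have h3 := hJ.1
      have h4 := hJ.2
      exact Ac.congr hs (fun m h5 h6 => hW m (by omega) (by omega))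
    by_cases h : V s W i k ∧ ∃ p : ℤ × ℕ, Ac s W i p.2 p.1 ∧ InJ s i p.1 k
    · obtain ⟨hV, ⟨e, a⟩, hA, hJ⟩ := h
      simp only at hA hJ
      rw [yy_succ_act hV hA hJ, yy_succ_act (hVc.mp hV) ((hAc a e hJ).mp hA) hJ]
      congr 1
      funext q
      unfold cont
      have h3 := hJ.1
      have h4 := hJ.2
      split_ifs with hq
      · apply ih
        · intro m hm1 hm2
          exact hW m (by omega) (by omega)
        · intro m hm1 hm2
          exact hU m (by omega) (by omega)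
      · rfl
    · have h' : ¬ (V s W' i k ∧ ∃ p : ℤ × ℕ, Ac s W' i p.2 p.1 ∧ InJ s i p.1 k) := by
        rintro ⟨hV, p, hA, hJ⟩
        exact h ⟨hVc.mpr hV, p, (hAc p.2 p.1 hJ).mpr hA, hJ⟩
      rw [yy_succ_nact h, yy_succ_nact h']
      apply ih
      · intro m hm1 hm2
        exact hW m (by omega) (by omega)
      · intro m hm1 hm2
        exact hU m (by omega) (by omega)

end loc

section shift

variable {s : ℕ → ℕ} {F : ℕ → (ℤ → Bool) → ℤ → Bool} {U W : ℤ → Bool}

theorem Run.shift {c e : ℤ} {r : ℕ} : Run (fun k => W (k + c)) e r ↔ Run W (e + c) r := by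
  unfold Run
  beta_reduce
  have e1 : e - r - 1 + c = e + c - r - 1 := by ring
  rw [e1]
  constructor
  · rintro ⟨h1, h2, h3⟩
    refine ⟨h1, fun m hm1 hm2 => ?_, h3⟩
    have := h2 (m - c) (by omega) (by omega)
    simpa using this
  · rintro ⟨h1, h2, h3⟩
    exact ⟨h1, fun m hm1 hm2 => h2 (m + c) (by omega) (by omega), h3⟩

theorem AM.shift {c e : ℤ} {i a : ℕ} :
    AM s (fun k => W (k + c)) i a e ↔ AM s W i a (e + c) := by
  unfold AM
  rw [Run.shift]

theorem MK.shift {c e : ℤ} {i : ℕ} :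
    MK s (fun k => W (k + c)) i e ↔ MK s W i (e + c) := by
  unfold MK
  rw [Run.shift]
  simp only [AM.shift]

theorem InJ.shift {c e k : ℤ} {i : ℕ} : InJ s i e k ↔ InJ s i (e + c) (k + c) := by
  unfold InJ
  constructor <;> (rintro ⟨h1, h2⟩; constructor <;> linarith)

theorem V.shift {c k : ℤ} {i : ℕ} : V s (fun k => W (k + c)) i k ↔ V s W i (k + c) := by
  unfold V
  constructor
  · intro h i' hi' e hM hJ
    apply h i' hi' (e - c)
    · rw [MK.shift]; simpa using hM
    · rw [InJ.shift (c := c)]; simpa using hJ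
  · intro h i' hi' e hM hJ
    exact h i' hi' (e + c) (MK.shift.mp hM) (InJ.shift.mp hJ)

theorem NA.shift {c k : ℤ} {i : ℕ} : NA s (fun k => W (k + c)) i k ↔ NA s W i (k + c) := by
  unfold NA
  constructor
  · intro h i' hi' a e hM hJ
    apply h i' hi' a (e - c)
    · rw [AM.shift]; simpa using hM
    · rw [InJ.shift (c := c)]; simpa using hJ
  · intro h i' hi' a e hM hJ
    exact h i' hi' a (e + c) (AM.shift.mp hM) (InJ.shift.mp hJ)

theorem Ac.shift {c e : ℤ} {i a : ℕ} :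
    Ac s (fun k => W (k + c)) i a e ↔ Ac s W i a (e + c) := by
  unfold Ac
  rw [AM.shift]
  constructor
  · rintro ⟨h1, h2⟩
    refine ⟨h1, fun a' e' hA hne => ?_⟩
    have := h2 a' (e' - c) (by rw [AM.shift]; simpa using hA) (by omega)
    have e1 : e' - c - e = e' - (e + c) := by ring
    rwa [e1] at this
  · rintro ⟨h1, h2⟩
    refine ⟨h1, fun a' e' hA hne => ?_⟩
    have := h2 a' (e' + c) (AM.shift.mp hA) (by omega)
    have e1 : e' + c - (e + c) = e' - e := by ring
    rwa [e1] at this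

theorem yy_shift {c : ℤ} : ∀ (i : ℕ) (k : ℤ),
    yy s F (fun k => U (k + c)) (fun k => W (k + c)) i k = yy s F U W i (k + c) := by
  intro i
  induction i with
  | zero => intro k; rfl
  | succ i ih =>
    intro k
    by_cases h : V s W i (k + c) ∧ ∃ p : ℤ × ℕ, Ac s W i p.2 p.1 ∧ InJ s i p.1 (k + c)
    · obtain ⟨hV, ⟨e, a⟩, hA, hJ⟩ := h
      simp only at hA hJ
      have hV' : V s (fun k => W (k + c)) i k := V.shift.mpr hV
      have hA' : Ac s (fun k => W (k + c)) i a (e - c) := by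
        rw [Ac.shift]; simpa using hA
      have hJ' : InJ s i (e - c) k := by
        rw [InJ.shift (c := c)]; simpa using hJ
      rw [yy_succ_act hV hA hJ, yy_succ_act hV' hA' hJ']
      have e1 : k - (e - c + s i + 1) = k + c - (e + s i + 1) := by ring
      rw [e1]
      congr 1
      funext q
      unfold cont
      split_ifs with hq
      · rw [ih]
        congr 1
        ring
      · rfl
    · have h' : ¬ (V s (fun k => W (k + c)) i k ∧ ∃ p : ℤ × ℕ,
          Ac s (fun k => W (k + c)) i p.2 p.1 ∧ InJ s i p.1 k) := by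
        rintro ⟨hV, p, hA, hJ⟩
        exact h ⟨V.shift.mp hV, (p.1 + c, p.2), Ac.shift.mp hA, InJ.shift.mp hJ⟩
      rw [yy_succ_nact h, yy_succ_nact h']
      exact ih k

end shift

end Pool.Agent.NoIid
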