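import Mathlib
import Pool.Agent.NoIid.Loc

/-!
Truncation of runs and the comparison map.
-/

namespace Pool.Agent.NoIid

open Classical in
/-- truncation of the runs of `W` : the run of length `r` ending at `e` is shortened to
`t r`, keeping its end. -/
noncomputable def TW (t : ℕ → ℕ) (W : ℤ → Bool) : ℤ → Bool := fun m =>
  decide (∃ e : ℤ, ∃ r : ℕ, Run W e r ∧ e - t r ≤ m ∧ m < e)

section TW

variable {t : ℕ → ℕ} {W : ℤ → Bool}

theorem TW_iff {m : ℤ} : TW t W m = true ↔ ∃ e : ℤ, ∃ r : ℕ, Run W e r ∧ e - t r ≤ m ∧ m < e := by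
  unfold TW
  simp

theorem TW_le (ht : ∀ r, t r ≤ r) {m : ℤ} (h : TW t W m = true) : W m = true := by
  obtain ⟨e, r, hR, h1, h2⟩ := TW_iff.mp h
  have := ht r
  exact hR.2.1 m (by omega) h2

theorem TW_false (ht : ∀ r, t r ≤ r) {m : ℤ} (h : W m = false) : TW t W m = false := by
  by_contra h1
  rw [Bool.not_eq_false] at h1
  rw [TW_le ht h1] at h
  exact Bool.noConfusion h

theorem Run.unique_site {e e' : ℤ} {r r' : ℕ} {m : ℤ} (h : Run W e r) (h' : Run W e' r')
    (h1 : e - r ≤ m) (h2 : m < e) (h1' : e' - r' ≤ m) (h2' : m < e') : e = e' ∧ r = r' := by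
  have hee : e = e' := by
    rcases lt_trichotomy e e' with hlt | heq | hlt
    · exfalso
      have := h'.2.1 e (by omega) hlt
      rw [h.1] at this
      exact Bool.noConfusion this
    · exact heq
    · exfalso
      have := h.2.1 e' (by omega) hlt
      rw [h'.1] at this
      exact Bool.noConfusion this
  subst hee
  exact ⟨rfl, h.unique h'⟩

/-- an interval of ones of the truncated sequence followed by a zero -/
theorem TW_interval (ht : ∀ r, t r ≤ r) {e' : ℤ} {r' : ℕ} (hr' : 1 ≤ r')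
    (h1 : ∀ m : ℤ, e' - r' ≤ m → m < e' → TW t W m = true) (h2 : TW t W e' = false) :
    ∃ r3, Run W e' r3 ∧ r' ≤ t r3 := by
  obtain ⟨e3, r3, hR, h3, h4⟩ := TW_iff.mp (h1 (e' - r') le_rfl (by omega))
  have he : e3 = e' := by
    rcases lt_trichotomy e3 e' with hlt | heq | hlt
    · exfalso
      have h5 := h1 e3 (by omega) hlt
      rw [TW_false ht hR.1] at h5
      exact Bool.noConfusion h5
    · exact heq
    · exfalso
      have h5 : TW t W e' = true := TW_iff.mpr ⟨e3, r3, hR, by omega, hlt⟩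
      rw [h2] at h5
      exact Bool.noConfusion h5
  subst he
  exact ⟨r3, hR, by omega⟩

theorem TW_run (ht : ∀ r, t r ≤ r) {e : ℤ} {r' : ℕ} (hr' : 1 ≤ r') :
    Run (TW t W) e r' ↔ ∃ r, Run W e r ∧ t r = r' := by
  have key : ∀ r, Run W e r → 1 ≤ t r → Run (TW t W) e (t r) := by
    intro r hR h1
    have htr := ht r
    refine ⟨TW_false ht hR.1, fun m hm1 hm2 => TW_iff.mpr ⟨e, r, hR, hm1, hm2⟩, ?_⟩
    by_contra h2
    rw [Bool.not_eq_false] at h2
    obtain ⟨e2, r2, hR2, h3, h4⟩ := TW_iff.mp h2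
    have htr2 := ht r2
    rcases Nat.lt_or_ge (t r) r with hlt | hge
    · obtain ⟨h5, h6⟩ := hR.unique_site hR2 (m := e - t r - 1) (by omega) (by omega) (by omega) h4
      subst h5; subst h6
      omega
    · have hW := TW_le ht h2
      have heq : t r = r := le_antisymm htr hge
      rw [heq, hR.2.2] at hW
      exact Bool.noConfusion hW
  constructor
  · intro h
    obtain ⟨r3, hR3, hle⟩ := TW_interval ht hr' h.2.1 h.1
    refine ⟨r3, hR3, ?_⟩
    exact (key r3 hR3 (le_trans hr' hle)).unique h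
  · rintro ⟨r, hR, rfl⟩
    exact key r hR hr'

end TW

section exists_run

variable {W : ℤ → Bool}

theorem exists_run {m a b : ℤ} (hm : W m = true) (ha : a ≤ m) (hWa : W a = false)
    (hb : m ≤ b) (hWb : W b = false) : ∃ e : ℤ, ∃ r : ℕ, Run W e r ∧ e - r ≤ m ∧ m < e := by
  classical
  have hP : ∃ n : ℕ, W (m + n) = false := ⟨(b - m).toNat, by
    have : m + ((b - m).toNat : ℤ) = b := by omega
    rw [this]; exact hWb⟩
  have hQ : ∃ n : ℕ, W (m - n) = false := ⟨(m - a).toNat, by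
    have : m - ((m - a).toNat : ℤ) = a := by omega
    rw [this]; exact hWa⟩
  set n1 := Nat.find hP with hn1
  set n2 := Nat.find hQ with hn2
  have h1 : W (m + n1) = false := Nat.find_spec hP
  have h2 : W (m - n2) = false := Nat.find_spec hQ
  have h1' : ∀ n < n1, W (m + n) = true := fun n hn => by
    have := Nat.find_min hP hn
    simpa using this
  have h2' : ∀ n < n2, W (m - n) = true := fun n hn => by
    have := Nat.find_min hQ hn
    simpa using this
  have hn1pos : 0 < n1 := by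
    rcases Nat.eq_zero_or_pos n1 with h | h
    · rw [h] at h1; simp at h1; rw [hm] at h1; exact absurd h1 (by simp)
    · exact h
  have hn2pos : 0 < n2 := by
    rcases Nat.eq_zero_or_pos n2 with h | h
    · rw [h] at h2; simp at h2; rw [hm] at h2; exact absurd h2 (by simp)
    · exact h
  refine ⟨m + n1, n1 + n2 - 1, ⟨h1, ?_, ?_⟩, by omega, by omega⟩
  · intro q hq1 hq2
    by_cases hqm : m ≤ q
    · have := h1' (q - m).toNat (by omega)
      have e1 : m + ((q - m).toNat : ℤ) = q := by omega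
      rwa [e1] at this
    · have := h2' (m - q).toNat (by omega)
      have e1 : m - ((m - q).toNat : ℤ) = q := by omega
      rwa [e1] at this
  · have e1 : m + n1 - ((n1 + n2 - 1 : ℕ) : ℤ) - 1 = m - n2 := by omega
    rw [e1]; exact h2

end exists_run

section trn

open Classical in
/-- the truncation function used in the comparison map -/
noncomputable def trn (s : ℕ → ℕ) (j J r : ℕ) : ℕ :=
  if r < s j then r
  else if h : ∃ i, (j ≤ i ∧ i < J) ∧ 10 * s i ≤ r ∧ r < 11 * s i then s h.choose else 0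

variable {s : ℕ → ℕ} {j J : ℕ}

theorem trn_lt {r : ℕ} (h : r < s j) : trn s j J r = r := by
  unfold trn
  rw [if_pos h]

theorem band_unique (hs : Growth s) {i i' r : ℕ} (h1 : 10 * s i ≤ r) (h2 : r < 11 * s i)
    (h3 : 10 * s i' ≤ r) (h4 : r < 11 * s i') : i = i' := by
  rcases lt_trichotomy i i' with hlt | heq | hlt
  · exfalso
    have h5 := hs.lt hlt
    have h6 := hs.pow_ge i
    omega
  · exact heq
  · exfalso
    have h5 := hs.lt hlt
    have h6 := hs.pow_ge i'
    omega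

theorem trn_band (hs : Growth s) {r i : ℕ} (hj : j ≤ i) (hJ : i < J) (h1 : 10 * s i ≤ r)
    (h2 : r < 11 * s i) : trn s j J r = s i := by
  unfold trn
  have h3 : s j ≤ s i := hs.strictMono.monotone hj
  rw [if_neg (by omega)]
  have h : ∃ i, (j ≤ i ∧ i < J) ∧ 10 * s i ≤ r ∧ r < 11 * s i := ⟨i, ⟨hj, hJ⟩, h1, h2⟩
  rw [dif_pos h]
  have := h.choose_spec
  rw [band_unique hs this.2.1 this.2.2 h1 h2]

theorem trn_cases (s : ℕ → ℕ) (j J r : ℕ) : (r < s j ∧ trn s j J r = r) ∨
    (∃ i, (j ≤ i ∧ i < J) ∧ 10 * s i ≤ r ∧ r < 11 * s i ∧ trn s j J r = s i) ∨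
    (s j ≤ r ∧ trn s j J r = 0) := by
  unfold trn
  by_cases h : r < s j
  · left; exact ⟨h, by rw [if_pos h]⟩
  · right
    rw [if_neg h]
    by_cases h' : ∃ i, (j ≤ i ∧ i < J) ∧ 10 * s i ≤ r ∧ r < 11 * s i
    · left
      have := h'.choose_spec
      exact ⟨h'.choose, this.1, this.2.1, this.2.2, by rw [dif_pos h']⟩
    · right
      exact ⟨by omega, by rw [dif_neg h']⟩

theorem trn_le (s : ℕ → ℕ) (j J r : ℕ) : trn s j J r ≤ r := by
  rcases trn_cases s j J r with ⟨_, h⟩ | ⟨i, _, h1, _, h⟩ | ⟨_, h⟩ <;> omega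

/-- low level runs are unchanged -/
theorem trn_eq_low (hs : Growth s) {r r' : ℕ} (h1 : 1 ≤ r') (h2 : r' < s j)
    (h : trn s j J r = r') : r = r' := by
  rcases trn_cases s j J r with ⟨_, h3⟩ | ⟨i, h0, h3, _, h4⟩ | ⟨_, h3⟩
  · omega
  · have := hs.strictMono.monotone h0.1
    omega
  · omega

theorem trn_eq_s (hs : Growth s) {r i : ℕ} (hj : j ≤ i) (hJ : i < J) :
    trn s j J r = s i ↔ 10 * s i ≤ r ∧ r < 11 * s i := by
  constructor
  · intro h
    rcases trn_cases s j J r with ⟨h3, h4⟩ | ⟨i', h0, h3, h5, h4⟩ | ⟨_, h3⟩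
    · have := hs.strictMono.monotone hj
      omega
    · have : i' = i := hs.strictMono.injective (by omega)
      subst this
      exact ⟨h3, h5⟩
    · have := hs.ge10 i
      omega
  · rintro ⟨h1, h2⟩
    exact trn_band hs hj hJ h1 h2

theorem trn_ne_band (hs : Growth s) {r i a : ℕ} (hj : j ≤ i) (ha : a < s i) :
    trn s j J r ≠ 10 * s i + a := by
  intro h
  have hi10 := hs.ge10 i
  rcases trn_cases s j J r with ⟨h3, h4⟩ | ⟨i', h0, h3, h5, h4⟩ | ⟨_, h3⟩
  · have := hs.strictMono.monotone hj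
    omega
  · rcases lt_or_ge i i' with hlt | hge
    · have h5 := hs.lt hlt
      have h6 := hs.pow_ge i
      omega
    · have := hs.strictMono.monotone hge
      omega
  · omega

end trn

/-- sites controllable at level `J`, seen from level `j` -/
def Vst (s : ℕ → ℕ) (W : ℤ → Bool) (j J : ℕ) (k : ℤ) : Prop :=
  V s W j k ∧ ∀ i, j ≤ i → i < J → ∀ a e, AM s W i a e → ¬ InJ s i e k

section main

variable {s : ℕ → ℕ} {F : ℕ → (ℤ → Bool) → ℤ → Bool} {U W U' W' : ℤ → Bool} {j J : ℕ}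

theorem AM_TW_low (hs : Growth s) {i a : ℕ} {e : ℤ} (hi : i < j) :
    AM s (TW (trn s j J) W) i a e ↔ AM s W i a e := by
  unfold AM
  have h10 := hs.ge10 i
  have h1 := hs.lt hi
  have h2 := hs.pow_ge i
  constructor
  · rintro ⟨ha, hR⟩
    refine ⟨ha, ?_⟩
    obtain ⟨r, hR', hr⟩ := (TW_run (trn_le s j J) (by omega)).mp hR
    have := trn_eq_low hs (by omega) (by omega) hr
    rw [← this]; exact hR'
  · rintro ⟨ha, hR⟩
    refine ⟨ha, (TW_run (trn_le s j J) (by omega)).mpr ⟨_, hR, trn_lt (by omega)⟩⟩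

theorem MK_TW_low (hs : Growth s) {i : ℕ} {e : ℤ} (hi : i < j) :
    MK s (TW (trn s j J) W) i e ↔ MK s W i e := by
  unfold MK
  simp only [AM_TW_low hs hi]
  have h10 := hs.ge10 i
  have h1 := hs.lt hi
  have h2 := hs.pow_ge i
  have : Run (TW (trn s j J) W) e (s i) ↔ Run W e (s i) := by
    rw [TW_run (trn_le s j J) (by omega)]
    constructor
    · rintro ⟨r, hR, hr⟩
      have := trn_eq_low hs (by omega) (by omega) hr
      rw [← this]; exact hR
    · intro hR
      exact ⟨_, hR, trn_lt (by omega)⟩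
  rw [this]

theorem AM_TW_high (hs : Growth s) {i a : ℕ} {e : ℤ} (hi : j ≤ i) :
    ¬ AM s (TW (trn s j J) W) i a e := by
  rintro ⟨ha, hR⟩
  have h10 := hs.ge10 i
  obtain ⟨r, hR', hr⟩ := (TW_run (trn_le s j J) (by omega)).mp hR
  exact trn_ne_band hs hi ha hr

theorem MK_TW_high (hs : Growth s) {i : ℕ} {e : ℤ} (hi : j ≤ i) (hJ : i < J) :
    MK s (TW (trn s j J) W) i e ↔ ∃ a, AM s W i a e := by
  have h10 := hs.ge10 i
  have h1 : MK s (TW (trn s j J) W) i e ↔ Run (TW (trn s j J) W) e (s i) := by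
    unfold MK
    constructor
    · rintro (h | ⟨a, h⟩)
      · exact h
      · exact absurd h (AM_TW_high hs hi)
    · exact Or.inl
  rw [h1, TW_run (trn_le s j J) (by omega)]
  unfold AM
  constructor
  · rintro ⟨r, hR, hr⟩
    obtain ⟨h3, h4⟩ := (trn_eq_s hs hi hJ).mp hr
    exact ⟨r - 10 * s i, by omega, by rwa [Nat.add_sub_cancel' h3]⟩
  · rintro ⟨a, ha, hR⟩
    exact ⟨_, hR, (trn_eq_s hs hi hJ).mpr ⟨by omega, by omega⟩⟩

theorem V_TW_low (hs : Growth s) {k : ℤ} : V s (TW (trn s j J) W) j k ↔ V s W j k := by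
  unfold V
  constructor
  · intro h i hi e hM
    exact h i hi e ((MK_TW_low hs hi).mpr hM)
  · intro h i hi e hM
    exact h i hi e ((MK_TW_low hs hi).mp hM)

theorem V_TW (hs : Growth s) (hjJ : j ≤ J) {k : ℤ} :
    V s (TW (trn s j J) W) J k ↔ Vst s W j J k := by
  unfold Vst
  constructor
  · intro h
    refine ⟨(V_TW_low hs).mp (V_mono hjJ h), ?_⟩
    intro i hi hJ a e hA
    exact h i hJ e ((MK_TW_high hs hi hJ).mpr ⟨a, hA⟩)
  · rintro ⟨h1, h2⟩ i hiJ e hM
    rcases Nat.lt_or_ge i j with hij | hij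
    · exact (V_TW_low (J := J) hs).mpr h1 i hij e hM
    · obtain ⟨a, hA⟩ := (MK_TW_high hs hij hiJ).mp hM
      exact h2 i hij hiJ a e hA

theorem Ac_TW_low (hs : Growth s) {i a : ℕ} {e : ℤ} (hi : i < j) :
    Ac s (TW (trn s j J) W) i a e ↔ Ac s W i a e := by
  unfold Ac
  simp only [AM_TW_low hs hi]

theorem yy_TW_low (hs : Growth s) : ∀ i, i ≤ j → ∀ k,
    yy s F U (TW (trn s j J) W) i k = yy s F U W i k := by
  intro i
  induction i with
  | zero => intro _ k; rfl
  | succ i ih =>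
    intro hi k
    have hi' : i < j := hi
    have hVl : ∀ k, V s (TW (trn s j J) W) i k ↔ V s W i k := by
      intro k
      unfold V
      constructor
      · intro h i' hi'' e hM
        exact h i' hi'' e ((MK_TW_low hs (lt_trans hi'' hi')).mpr hM)
      · intro h i' hi'' e hM
        exact h i' hi'' e ((MK_TW_low hs (lt_trans hi'' hi')).mp hM)
    by_cases h : V s W i k ∧ ∃ p : ℤ × ℕ, Ac s W i p.2 p.1 ∧ InJ s i p.1 k
    · obtain ⟨hV, ⟨e, a⟩, hA, hJ⟩ := h
      simp only at hA hJ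
      rw [yy_succ_act hV hA hJ, yy_succ_act ((hVl k).mpr hV) ((Ac_TW_low hs hi').mpr hA) hJ]
      congr 1
      funext q
      unfold cont
      split_ifs with hq
      · exact ih (le_of_lt hi') _
      · rfl
    · have h' : ¬ (V s (TW (trn s j J) W) i k ∧ ∃ p : ℤ × ℕ,
          Ac s (TW (trn s j J) W) i p.2 p.1 ∧ InJ s i p.1 k) := by
        rintro ⟨hV, p, hA, hJ⟩
        exact h ⟨(hVl k).mp hV, p, (Ac_TW_low hs hi').mp hA, hJ⟩
      rw [yy_succ_nact h, yy_succ_nact h']
      exact ih (le_of_lt hi') k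

theorem yy_TW_V (hs : Growth s) {k : ℤ} (hk : V s W j k) :
    yy s F U (TW (trn s j J) W) J k = U k := by
  refine (yy_indep (C := {k}) (U' := U) (fun _ _ => rfl) J ?_).2 k rfl
  rintro k' rfl i hi a e hA hJ
  rcases Nat.lt_or_ge i j with hij | hij
  · exact hk i hij e (Or.inr ⟨a, (AM_TW_low hs hij).mp hA⟩) hJ
  · exact AM_TW_high hs hij hA

theorem yy_TW_notV (hs : Growth s) (hjJ : j ≤ J) {k : ℤ} (hk : ¬ V s W j k)
    (hU : ∀ k, ¬ V s W j k → U' k = U k) :
    yy s F U' (TW (trn s j J) W) J k = yy s F U W J k := by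
  have hk' : ¬ V s (TW (trn s j J) W) j k := fun h => hk ((V_TW_low hs).mp h)
  rw [yy_stable hjJ hk', yy_stable hjJ hk]
  rw [yy_TW_low hs j le_rfl]
  refine (yy_indep (C := {k | V s W j k}) (U' := U) ?_ j ?_).1 k hk
  · intro k hk
    exact hU k hk
  · intro k hk
    exact V.na hk

end main

end Pool.Agent.NoIid
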