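import Mathlib
import Pool.Agent.NoIid.Trunc

/-!
The comparison map in a finite window.
-/

namespace Pool.Agent.NoIid

theorem Growth.rad_mono' {s : ℕ → ℕ} (h : Growth s) {i' i : ℕ} (hi : i' ≤ i) :
    rad s i' ≤ rad s i := by
  rcases Nat.lt_or_ge i' i with hlt | hge
  · have h1 := h.rad_mono hlt
    have h2 : rad s i' ≤ 4 * 4 ^ s i' := by
      have := h.rad_le i'
      have h3 := h.pow_geZ i'
      have h4 := rad_nonneg s i'
      omega
    omega
  · have : i' = i := le_antisymm hi hge
    rw [this]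

/-- the part of the window in which runs are modified -/
def win (s : ℕ → ℕ) (J r : ℕ) (m : ℤ) : Prop :=
  -(3 * 4 ^ s J) ≤ m ∧ m ≤ 3 * 4 ^ s J ∧ (m < -r - 1 ∨ 0 < m)

open Classical in
/-- masked sequence -/
noncomputable def Wm (s : ℕ → ℕ) (J r : ℕ) (W : ℤ → Bool) : ℤ → Bool := fun m =>
  if win s J r m then W m else false

open Classical in
/-- modified `W` -/
noncomputable def Wh (s : ℕ → ℕ) (j J r : ℕ) (W : ℤ → Bool) : ℤ → Bool := fun m =>
  if win s J r m then TW (trn s j J) (Wm s J r W) m else W m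

open Classical in
/-- modified `U` -/
noncomputable def Uh (s : ℕ → ℕ) (F : ℕ → (ℤ → Bool) → ℤ → Bool) (j J : ℕ) (U W : ℤ → Bool) :
    ℤ → Bool := fun k =>
  if InJ s J 0 k ∧ V s W j k then yy s F U W J k else U k

section window

variable {s : ℕ → ℕ} {F : ℕ → (ℤ → Bool) → ℤ → Bool} {U W W' U' : ℤ → Bool} {j J r : ℕ}

theorem Vst.congr (hs : Growth s) (hjJ : j ≤ J) {k : ℤ}
    (h : ∀ m, k - rad s J ≤ m → m ≤ k → W m = W' m) :
    Vst s W j J k ↔ Vst s W' j J k := by
  unfold Vst
  have h0 := hs.rad_mono' hjJ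
  rw [V.congr hs (W' := W') (fun m h1 h2 => h m (by omega) h2)]
  have key : ∀ i', i' < J → ∀ a e, InJ s i' e k → (AM s W i' a e ↔ AM s W' i' a e) := by
    intro i' hi' a e hJ
    apply AM.congr
    intro m hm1 hm2
    have h1 := hs.rad_mono hi'
    have h2 := hs.pow_geZ i'
    have h3 := hJ.1
    have h4 := hJ.2
    exact h m (by omega) (by omega)
  constructor
  · rintro ⟨h1, h2⟩
    exact ⟨h1, fun i hi hJ a e hA hI => h2 i hi hJ a e ((key i hJ a e hI).mpr hA) hI⟩
  · rintro ⟨h1, h2⟩
    exact ⟨h1, fun i hi hJ a e hA hI => h2 i hi hJ a e ((key i hJ a e hI).mp hA) hI⟩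

theorem win_pos {m : ℤ} (h0 : 0 < m) (h1 : m ≤ 3 * 4 ^ s J) : win s J r m := by
  refine ⟨?_, h1, Or.inr h0⟩
  have : (0 : ℤ) ≤ 3 * 4 ^ s J := by positivity
  omega

theorem Wm_win {m : ℤ} (h : win s J r m) : Wm s J r W m = W m := by
  unfold Wm
  rw [if_pos h]

theorem Wh_win {m : ℤ} (h : win s J r m) :
    Wh s j J r W m = TW (trn s j J) (Wm s J r W) m := by
  unfold Wh
  rw [if_pos h]

theorem Wh_not_win {m : ℤ} (h : ¬ win s J r m) : Wh s j J r W m = W m := by
  unfold Wh
  rw [if_neg h]

theorem V_Wh (hs : Growth s) (hjJ : j ≤ J) {k : ℤ} (hk : InJ s J 0 k) :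
    V s (Wh s j J r W) J k ↔ Vst s W j J k := by
  have h1 := hk.1
  have h2 := hk.2
  have h3 := hs.rad_le J
  have h4 := rad_nonneg s J
  have h5 := hs.pow_geZ J
  have h6 := hs.ge10 J
  rw [V.congr hs (W' := TW (trn s j J) (Wm s J r W))
    (fun m hm1 hm2 => Wh_win (win_pos (by omega) (by omega)))]
  rw [V_TW hs hjJ]
  exact Vst.congr hs hjJ (fun m hm1 hm2 => Wm_win (win_pos (by omega) (by omega)))

theorem yy_Wh (hs : Growth s) (hjJ : j ≤ J) {k : ℤ} (hk : InJ s J 0 k) :
    yy s F (Uh s F j J U W) (Wh s j J r W) J k = yy s F U W J k := by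
  have h1 := hk.1
  have h2 := hk.2
  have h3 := hs.rad_le J
  have h4 := rad_nonneg s J
  have h5 := hs.pow_geZ J
  have h6 := hs.ge10 J
  have hVc : ∀ k, InJ s J 0 k → (V s (Wm s J r W) j k ↔ V s W j k) := by
    intro k hk
    have h1 := hk.1
    have h2 := hk.2
    have h7 := hs.rad_mono' hjJ
    exact V.congr hs (fun m hm1 hm2 => Wm_win (win_pos (by omega) (by omega)))
  rw [yy_congr hs J k (W' := TW (trn s j J) (Wm s J r W)) (U' := Uh s F j J U W)
    (fun m hm1 hm2 => Wh_win (win_pos (by omega) (by omega))) (fun _ _ _ => rfl)]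
  by_cases hV : V s W j k
  · rw [yy_TW_V hs ((hVc k hk).mpr hV)]
    unfold Uh
    rw [if_pos ⟨hk, hV⟩]
  · have hV' : ¬ V s (Wm s J r W) j k := fun h => hV ((hVc k hk).mp h)
    rw [yy_TW_notV hs hjJ (U := U) hV' ?_]
    · exact yy_congr hs J k
        (fun m hm1 hm2 => Wm_win (win_pos (by omega) (by omega))) (fun _ _ _ => rfl)
    · intro k' hk'
      unfold Uh
      rw [if_neg]
      rintro ⟨h7, h8⟩
      exact hk' ((hVc k' h7).mpr h8)

theorem Ac_Wh (hs : Growth s) (hjJ : j ≤ J) {a : ℕ} (ha : a < s J)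
    (hR : Run W 0 (10 * s J + a)) : Ac s (Wh s j J (10 * s J + a) W) J a 0 := by
  set r := 10 * s J + a with hr
  have h5 := hs.pow_geZ J
  have h6 := hs.ge10 J
  have hnw : ∀ m : ℤ, -r - 1 ≤ m → m ≤ 0 → ¬ win s J r m := by
    rintro m hm1 hm2 ⟨_, _, h | h⟩ <;> omega
  refine ⟨⟨ha, ?_⟩, ?_⟩
  · refine (Run.congr (fun k hk1 hk2 => ?_)).mp hR
    rw [Wh_not_win (hnw k (by omega) hk2)]
  · rintro a' e' ⟨ha', hR'⟩ hne
    by_contra hlt
    push Not at hlt
    rw [sub_zero, abs_lt] at hlt
    set r' := 10 * s J + a' with hr'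
    -- the truncated masked sequence is one on the run and zero at its end
    have hkey : (∀ m : ℤ, e' - r' ≤ m → m < e' → TW (trn s j J) (Wm s J r W) m = true) ∧
        TW (trn s j J) (Wm s J r W) e' = false := by
      rcases lt_trichotomy e' 0 with hneg | hzero | hpos
      · -- negative
        have he' : e' ≤ -r - 1 := by
          by_contra hgt
          push Not at hgt
          have h1 := hR'.1
          rw [Wh_not_win (hnw e' (by omega) (by omega))] at h1
          have h2 := hR.2.1 e' (by omega) hneg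
          rw [h1] at h2
          exact Bool.noConfusion h2
        constructor
        · intro m hm1 hm2
          have hw : win s J r m := ⟨by omega, by omega, Or.inl (by omega)⟩
          have := hR'.2.1 m hm1 hm2
          rwa [Wh_win hw] at this
        · by_cases hw : win s J r e'
          · have := hR'.1
            rwa [Wh_win hw] at this
          · apply TW_false (trn_le s j J)
            unfold Wm
            rw [if_neg hw]
      · exact absurd hzero hne
      · -- positive
        have hpos' : 0 < e' - r' := by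
          by_contra hle
          push Not at hle
          have h1 := hR'.2.1 0 (by omega) hpos
          rw [Wh_not_win (hnw 0 (by omega) (by omega)), hR.1] at h1
          exact Bool.noConfusion h1
        constructor
        · intro m hm1 hm2
          have := hR'.2.1 m hm1 hm2
          rwa [Wh_win (win_pos (by omega) (by omega))] at this
        · have := hR'.1
          rwa [Wh_win (win_pos (by omega) (by omega))] at this
    obtain ⟨r3, _, h3⟩ := TW_interval (trn_le s j J) (r' := r') (by omega) hkey.1 hkey.2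
    rcases trn_cases s j J r3 with ⟨h7, h8⟩ | ⟨i', h0, h7, _, h8⟩ | ⟨_, h8⟩
    · have := hs.strictMono.monotone hjJ
      omega
    · have := hs.strictMono.monotone (le_of_lt h0.2)
      omega
    · omega

end window

end Pool.Agent.NoIid
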