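import Mathlib
import Pool.Agent.NoIid.Window

/-!
The limit process, and its value after the comparison map.
-/

namespace Pool.Agent.NoIid

open Classical in
/-- the limit of the approximations -/
noncomputable def YL (s : ℕ → ℕ) (F : ℕ → (ℤ → Bool) → ℤ → Bool) (U W : ℤ → Bool) (k : ℤ) :
    Bool :=
  if h : ∃ i, ¬ V s W i k then yy s F U W (Nat.find h) k else U k

open Classical in
/-- result of the action of level `J` with rule `a` at `0` -/
noncomputable def Yfin (s : ℕ → ℕ) (F : ℕ → (ℤ → Bool) → ℤ → Bool) (j J a : ℕ)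
    (U W : ℤ → Bool) (k : ℤ) : Bool :=
  if Vst s W j J k then F a (cont s J (yy s F U W J) 0) (k - (0 + s J + 1)) else yy s F U W J k

section

variable {s : ℕ → ℕ} {F : ℕ → (ℤ → Bool) → ℤ → Bool} {U W W' U' : ℤ → Bool} {j J r : ℕ}

theorem YL_eq {i : ℕ} {k : ℤ} (h : ¬ V s W i k) : YL s F U W k = yy s F U W i k := by
  classical
  have hex : ∃ i, ¬ V s W i k := ⟨i, h⟩
  unfold YL
  rw [dif_pos hex]
  exact (yy_stable (Nat.find_min' hex h) (Nat.find_spec hex)).symm

theorem YL_eq_U {k : ℤ} (h : ∀ i, V s W i k) : YL s F U W k = U k := by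
  unfold YL
  rw [dif_neg]
  push Not
  exact h

theorem YL_shift {c k : ℤ} :
    YL s F (fun k => U (k + c)) (fun k => W (k + c)) k = YL s F U W (k + c) := by
  by_cases h : ∃ i, ¬ V s W i (k + c)
  · obtain ⟨i, hi⟩ := h
    rw [YL_eq hi, YL_eq (i := i) (fun h => hi (V.shift.mp h))]
    exact yy_shift i k
  · push Not at h
    rw [YL_eq_U h, YL_eq_U (fun i => V.shift.mpr (h i))]

theorem YL_indep {C : Set ℤ} (hU : ∀ k, k ∉ C → U k = U' k) (hC : ∀ k ∈ C, ∀ i, NA s W i k) :
    (∀ k, k ∉ C → YL s F U W k = YL s F U' W k) ∧ (∀ k ∈ C, YL s F U W k = U k) := by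
  constructor
  · intro k hk
    by_cases h : ∃ i, ¬ V s W i k
    · obtain ⟨i, hi⟩ := h
      rw [YL_eq hi, YL_eq hi]
      exact (yy_indep hU i (fun k hk => hC k hk i)).1 k hk
    · push Not at h
      rw [YL_eq_U h, YL_eq_U h]
      exact hU k hk
  · intro k hk
    by_cases h : ∃ i, ¬ V s W i k
    · obtain ⟨i, hi⟩ := h
      rw [YL_eq hi]
      exact (yy_indep (U' := U) (fun _ _ => rfl) i (fun k hk => hC k hk i)).2 k hk
    · push Not at h
      exact YL_eq_U h

theorem YL_Wh (hs : Growth s) (hjJ : j ≤ J) {a : ℕ} (ha : a < s J)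
    (hR : Run W 0 (10 * s J + a)) {k : ℤ} (hk : InJ s J 0 k) :
    YL s F (Uh s F j J U W) (Wh s j J (10 * s J + a) W) k = Yfin s F j J a U W k := by
  have hAc := Ac_Wh (j := j) hs hjJ ha hR
  have hnV : ¬ V s (Wh s j J (10 * s J + a) W) (J + 1) k := by
    intro h
    exact h J (Nat.lt_succ_self J) 0 (Or.inr ⟨a, hAc.1⟩) hk
  rw [YL_eq hnV]
  unfold Yfin
  by_cases hV : Vst s W j J k
  · rw [if_pos hV, yy_succ_act ((V_Wh hs hjJ hk).mpr hV) hAc hk]
    congr 1
    funext q
    unfold cont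
    split_ifs with hq
    · apply yy_Wh hs hjJ
      constructor <;> omega
    · rfl
  · rw [if_neg hV, yy_succ_nact, yy_Wh hs hjJ hk]
    rintro ⟨h1, _⟩
    exact hV ((V_Wh hs hjJ hk).mp h1)

/-- where the `W` field is modified there is a long run of ones -/
theorem Wh_ne (hs : Growth s) {m : ℤ} (h : Wh s j J r W m ≠ W m) :
    win s J r m ∧ W m = true ∧ Wh s j J r W m = false ∧
      ∃ q : ℤ, q ≤ m ∧ m < q + s j ∧ ∀ m', q ≤ m' → m' < q + s j → W m' = true := by
  have hw : win s J r m := by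
    by_contra hw
    exact h (Wh_not_win hw)
  have hWt : W m = true := by
    by_contra hf
    rw [Bool.not_eq_true] at hf
    apply h
    rw [Wh_win hw, hf]
    apply TW_false (trn_le s j J)
    rw [Wm_win hw, hf]
  have hWh : Wh s j J r W m = false := by
    by_contra hf
    rw [Bool.not_eq_false] at hf
    exact h (by rw [hf, hWt])
  refine ⟨hw, hWt, hWh, ?_⟩
  have h0 : (0 : ℤ) ≤ 3 * 4 ^ s J := by positivity
  have h10 := hs.ge10 j
  have hrun := exists_run (W := Wm s J r W) (m := m) (a := -(3 * 4 ^ s J) - 1)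
    (b := 3 * 4 ^ s J + 1) (by rw [Wm_win hw, hWt]) (by have := hw.1; omega)
    (by unfold Wm; rw [if_neg]; rintro ⟨h1, _⟩; omega)
    (by have := hw.2.1; omega) (by unfold Wm; rw [if_neg]; rintro ⟨_, h1, _⟩; omega)
  obtain ⟨e, ρ, hR, h1, h2⟩ := hrun
  have hlt : m < e - trn s j J ρ := by
    by_contra hge
    push Not at hge
    rw [Wh_win hw] at hWh
    have : TW (trn s j J) (Wm s J r W) m = true := TW_iff.mpr ⟨e, ρ, hR, hge, h2⟩
    rw [this] at hWh
    exact Bool.noConfusion hWh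
  have hρ : s j ≤ ρ := by
    by_contra hlt'
    push Not at hlt'
    rw [trn_lt hlt'] at hlt
    omega
  have hW : ∀ m', e - ρ ≤ m' → m' < e → W m' = true := by
    intro m' h3 h4
    have h5 := hR.2.1 m' h3 h4
    unfold Wm at h5
    split_ifs at h5 with h6
    exact h5
  by_cases hc : m + s j ≤ e
  · exact ⟨m, le_rfl, by omega, fun m' h3 h4 => hW m' (by omega) (by omega)⟩
  · exact ⟨e - s j, by omega, by omega, fun m' h3 h4 => hW m' (by omega) (by omega)⟩

/-- where the `U` field is modified there is an action interval of level in `[j, J)` -/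
theorem Uh_ne {k : ℤ} (h : Uh s F j J U W k ≠ U k) :
    InJ s J 0 k ∧ V s W j k ∧ ∃ i, j ≤ i ∧ i < J ∧ ∃ a e, AM s W i a e ∧ InJ s i e k := by
  unfold Uh at h
  split_ifs at h with hk
  · refine ⟨hk.1, hk.2, ?_⟩
    by_contra hno
    apply h
    refine (yy_indep (C := {k}) (U' := U) (fun _ _ => rfl) J ?_).2 k rfl
    rintro k' rfl i hi a e hA hJ
    rcases Nat.lt_or_ge i j with hij | hij
    · exact hk.2 i hij e (Or.inr ⟨a, hA⟩) hJ
    · exact hno ⟨i, hij, hi, a, e, hA, hJ⟩
  · exact absurd rfl h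

end

end Pool.Agent.NoIid
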