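import Mathlib

/-!
The fair coin space and counting tools.
-/

open MeasureTheory

namespace Pool.Agent.NoIid

/-- the sample space: two fields of bits -/
abbrev Om := ℤ → Bool × Bool

/-- uniform measure on `Bool × Bool` -/
noncomputable def coin2 : Measure (Bool × Bool) := (PMF.uniformOfFintype (Bool × Bool)).toMeasure

instance : IsProbabilityMeasure coin2 := by
  unfold coin2; infer_instance

theorem coin2_singleton (a : Bool × Bool) : coin2 {a} = 4⁻¹ := by
  unfold coin2
  rw [PMF.toMeasure_apply_singleton _ _ (MeasurableSet.singleton a), PMF.uniformOfFintype_apply]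
  simp

theorem coin2_map (f : Bool × Bool → Bool × Bool) (hf : Function.Bijective f) :
    coin2.map f = coin2 := by
  refine Measure.ext_of_singleton (fun a => ?_)
  rw [Measure.map_apply (measurable_of_finite f) (MeasurableSet.singleton a)]
  obtain ⟨b, hb⟩ := hf.2 a
  have : f ⁻¹' {a} = {b} := by
    ext c
    simp only [Set.mem_preimage, Set.mem_singleton_iff]
    constructor
    · intro hc
      exact hf.1 (hc.trans hb.symm)
    · rintro rfl
      exact hb
  rw [this, coin2_singleton, coin2_singleton]

/-- the law of the two fields -/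
noncomputable def P : Measure Om := Measure.infinitePi (fun _ => coin2)

instance : IsProbabilityMeasure P := by
  unfold P; infer_instance

/-- bit `q` of `x` -/
def bt (x : Om) (q : Bool × ℤ) : Bool := if q.1 then (x q.2).2 else (x q.2).1

/-- flipping a finite set of bits -/
def flS (S : Finset (Bool × ℤ)) (x : Om) : Om := fun k =>
  (xor (x k).1 (decide ((false, k) ∈ S)), xor (x k).2 (decide ((true, k) ∈ S)))

theorem bt_flS (S : Finset (Bool × ℤ)) (x : Om) (q : Bool × ℤ) :
    bt (flS S x) q = xor (bt x q) (decide (q ∈ S)) := by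
  obtain ⟨b, k⟩ := q
  cases b <;> simp [bt, flS]

theorem Om_ext {x y : Om} (h : ∀ q, bt x q = bt y q) : x = y := by
  funext k
  have h1 := h (false, k)
  have h2 := h (true, k)
  simp only [bt] at h1 h2
  exact Prod.ext (by simpa using h1) (by simpa using h2)

theorem flS_flS (S S' : Finset (Bool × ℤ)) (x : Om) :
    flS S (flS S' x) = flS (symmDiff S S') x := by
  apply Om_ext
  intro q
  rw [bt_flS, bt_flS, bt_flS]
  by_cases h1 : q ∈ S <;> by_cases h2 : q ∈ S' <;> simp [Finset.mem_symmDiff, h1, h2]

theorem flS_self (S : Finset (Bool × ℤ)) (x : Om) : flS S (flS S x) = x := by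
  rw [flS_flS, symmDiff_self]
  apply Om_ext
  intro q
  rw [bt_flS]
  simp

theorem measurable_flS (S : Finset (Bool × ℤ)) : Measurable (flS S) := by
  rw [measurable_pi_iff]
  intro k
  unfold flS
  exact (measurable_of_finite (fun p : Bool × Bool =>
    (xor p.1 (decide ((false, k) ∈ S)), xor p.2 (decide ((true, k) ∈ S))))).comp
    (measurable_pi_apply k)

theorem map_flS (S : Finset (Bool × ℤ)) : P.map (flS S) = P := by
  unfold P
  have h := Measure.infinitePi_map_pi (ι := ℤ) (X := fun _ => Bool × Bool)
    (Y := fun _ => Bool × Bool) (fun _ => coin2)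
    (f := fun k (p : Bool × Bool) =>
      (xor p.1 (decide ((false, k) ∈ S)), xor p.2 (decide ((true, k) ∈ S))))
    (fun k => measurable_of_finite _)
  have h2 : (fun (x : Om) (i : ℤ) => ((fun k (p : Bool × Bool) =>
      (xor p.1 (decide ((false, k) ∈ S)), xor p.2 (decide ((true, k) ∈ S)))) i (x i))) = flS S := by
    funext x k
    rfl
  rw [h2] at h
  rw [h]
  congr 1
  funext k
  apply coin2_map
  apply Function.Involutive.bijective
  intro p
  simp

theorem mp_flS (S : Finset (Bool × ℤ)) : MeasurePreserving (flS S) P P :=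
  ⟨measurable_flS S, map_flS S⟩

theorem P_flS (S : Finset (Bool × ℤ)) {E : Set Om} (hE : MeasurableSet E) :
    P (flS S ⁻¹' E) = P E :=
  (mp_flS S).measure_preimage hE.nullMeasurableSet

theorem measurable_bt (q : Bool × ℤ) : Measurable (fun x : Om => bt x q) := by
  unfold bt
  obtain ⟨b, k⟩ := q
  cases b
  · simp only [Bool.false_eq_true, if_false]
    exact measurable_fst.comp (measurable_pi_apply k)
  · simp only [if_true]
    exact measurable_snd.comp (measurable_pi_apply k)

/-- invariance of an event under flipping the bit `q` -/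
def Inv (q : Bool × ℤ) (E : Set Om) : Prop := ∀ x, flS {q} x ∈ E ↔ x ∈ E

theorem half (q : Bool × ℤ) (v : Bool) {E : Set Om} (hE : MeasurableSet E) (hI : Inv q E) :
    P.real ({x | bt x q = v} ∩ E) = P.real E / 2 := by
  have hm : MeasurableSet {x : Om | bt x q = v} := measurable_bt q (MeasurableSet.singleton v)
  have h1 : P.real (E ∩ {x | bt x q = v}) + P.real (E \ {x | bt x q = v}) = P.real E :=
    measureReal_inter_add_sdiff hm
  have h2 : flS {q} ⁻¹' (E ∩ {x | bt x q = v}) = E \ {x | bt x q = v} := by
    ext x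
    simp only [Set.mem_preimage, Set.mem_inter_iff, Set.mem_ofPred_eq, Set.mem_sdiff]
    rw [hI x, bt_flS]
    cases bt x q <;> cases v <;> simp
  have h3 : P.real (E \ {x | bt x q = v}) = P.real (E ∩ {x | bt x q = v}) := by
    rw [← h2]
    unfold Measure.real
    rw [P_flS {q} (hE.inter hm)]
  rw [Set.inter_comm]
  linarith

theorem pattern (Q : Finset (Bool × ℤ)) (c : Bool × ℤ → Bool) {E : Set Om}
    (hE : MeasurableSet E) (hI : ∀ q ∈ Q, Inv q E) :
    P.real ({x | ∀ q ∈ Q, bt x q = c q} ∩ E) = P.real E / 2 ^ Q.card := by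
  classical
  induction Q using Finset.induction_on with
  | empty => simp
  | insert q Q hq ih =>
    have ih' := ih (fun q' hq' => hI q' (Finset.mem_insert_of_mem hq'))
    have h1 : ({x : Om | ∀ q' ∈ insert q Q, bt x q' = c q'} ∩ E) =
        {x | bt x q = c q} ∩ ({x | ∀ q' ∈ Q, bt x q' = c q'} ∩ E) := by
      ext x
      simp only [Finset.mem_insert, forall_eq_or_imp, Set.mem_inter_iff, Set.mem_ofPred_eq]
      tauto
    have hm : MeasurableSet ({x : Om | ∀ q' ∈ Q, bt x q' = c q'} ∩ E) := by
      apply MeasurableSet.inter _ hE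
      have : {x : Om | ∀ q' ∈ Q, bt x q' = c q'} = ⋂ q' ∈ Q, {x | bt x q' = c q'} := by
        ext x; simp
      rw [this]
      exact Finset.measurableSet_biInter _ (fun q' _ =>
        measurable_bt q' (MeasurableSet.singleton (c q')))
    have hinv : Inv q ({x : Om | ∀ q' ∈ Q, bt x q' = c q'} ∩ E) := by
      intro x
      simp only [Set.mem_inter_iff, Set.mem_ofPred_eq]
      rw [hI q (Finset.mem_insert_self q Q) x]
      have : (∀ q' ∈ Q, bt (flS {q} x) q' = c q') ↔ (∀ q' ∈ Q, bt x q' = c q') := by
        refine forall₂_congr (fun q' hq' => ?_)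
        rw [bt_flS]
        have : q' ∉ ({q} : Finset (Bool × ℤ)) := by
          rw [Finset.mem_singleton]
          rintro rfl
          exact hq hq'
        simp [this]
      rw [this]
    rw [h1, half q (c q) hm hinv, ih', Finset.card_insert_of_notMem hq, pow_succ]
    field_simp

theorem fiber_count (Q : Finset (Bool × ℤ)) (G E : Set Om) (m : ℕ) (T : Om → Om)
    (hT : ∀ x ∈ G, T x ∈ E)
    (hfib : ∀ y, ∃ B : Finset (Finset (Bool × ℤ)), B.card ≤ m ∧ (∀ S ∈ B, S ⊆ Q) ∧
      ∀ x ∈ G, T x = y → ∃ S ∈ B, x = flS S y) (x : Om) [DecidablePred (fun S => flS S x ∈ G)]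
    [DecidablePred (fun S => flS S x ∈ E)] :
    (Q.powerset.filter (fun S => flS S x ∈ G)).card ≤
      m * (Q.powerset.filter (fun S => flS S x ∈ E)).card := by
  classical
  choose B hBc hBQ hB using hfib
  have hch : ∀ S, flS S x ∈ G → ∃ S' ∈ B (T (flS S x)), flS S x = flS S' (T (flS S x)) :=
    fun S hS => hB _ _ hS rfl
  set g : Finset (Bool × ℤ) → Finset (Bool × ℤ) := fun S =>
    if h : flS S x ∈ G then (hch S h).choose else ∅ with hg
  have hgspec : ∀ S, flS S x ∈ G → g S ∈ B (T (flS S x)) ∧
      flS S x = flS (g S) (T (flS S x)) := by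
    intro S h
    simp only [hg, dif_pos h]
    exact (hch S h).choose_spec
  have hgT : ∀ S, flS S x ∈ G → flS (symmDiff (g S) S) x = T (flS S x) := by
    intro S h
    rw [← flS_flS]
    conv_lhs => rw [(hgspec S h).2]
    rw [flS_self]
  refine Finset.card_le_mul_card_image_of_maps_to (f := fun S => symmDiff (g S) S) ?_ m ?_
  · intro S hS
    rw [Finset.mem_filter, Finset.mem_powerset] at hS ⊢
    refine ⟨?_, ?_⟩
    · intro q hq
      rw [Finset.mem_symmDiff] at hq
      rcases hq with ⟨h1, _⟩ | ⟨h1, _⟩
      · exact hBQ _ _ (hgspec S hS.2).1 h1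
      · exact hS.1 h1
    · rw [hgT S hS.2]
      exact hT _ hS.2
  · intro b _
    refine le_trans ?_ (hBc (flS b x))
    refine Finset.card_le_card_of_injOn g ?_ ?_
    · intro S hS
      simp only [Finset.coe_filter, Finset.mem_filter, Finset.mem_powerset, Set.mem_ofPred_eq] at hS
      have := (hgspec S hS.1.2).1
      rw [← hgT S hS.1.2, hS.2] at this
      exact this
    · intro S hS S' hS' heq
      simp only [Finset.coe_filter, Finset.mem_filter, Finset.mem_powerset, Set.mem_ofPred_eq]
        at hS hS'
      have h1 := hS.2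
      have h2 := hS'.2
      rw [← heq] at h2
      rw [← h1] at h2
      exact (symmDiff_right_inj.mp h2).symm

theorem mult_bound (Q : Finset (Bool × ℤ)) {G E : Set Om} (hG : MeasurableSet G)
    (hE : MeasurableSet E) (m : ℕ) (T : Om → Om) (hT : ∀ x ∈ G, T x ∈ E)
    (hfib : ∀ y, ∃ B : Finset (Finset (Bool × ℤ)), B.card ≤ m ∧ (∀ S ∈ B, S ⊆ Q) ∧
      ∀ x ∈ G, T x = y → ∃ S ∈ B, x = flS S y) :
    P.real G ≤ m * P.real E := by
  classical
  have key : ∀ A : Set Om, MeasurableSet A →
      ∫⁻ x, ((Q.powerset.filter (fun S => flS S x ∈ A)).card : ENNReal) ∂P =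
        (2 ^ Q.card : ENNReal) * P A := by
    intro A hA
    have h1 : ∀ x, ((Q.powerset.filter (fun S => flS S x ∈ A)).card : ENNReal) =
        ∑ S ∈ Q.powerset, (flS S ⁻¹' A).indicator (fun _ => (1 : ENNReal)) x := by
      intro x
      rw [Finset.card_filter]
      push_cast
      refine Finset.sum_congr rfl (fun S _ => ?_)
      by_cases h : flS S x ∈ A
      · rw [if_pos h, Set.indicator_of_mem (by exact h)]
      · rw [if_neg h, Set.indicator_of_notMem (by exact h)]
    simp_rw [h1]
    rw [lintegral_finsetSum _ (fun S _ => measurable_const.indicator (measurable_flS S hA))]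
    have h2 : ∀ S ∈ Q.powerset, ∫⁻ x, (flS S ⁻¹' A).indicator (fun _ => (1 : ENNReal)) x ∂P =
        P A := by
      intro S _
      rw [lintegral_indicator (measurable_flS S hA)]
      simp [P_flS S hA]
    rw [Finset.sum_congr rfl h2, Finset.sum_const, Finset.card_powerset]
    simp
  have h1 := key G hG
  have h2 := key E hE
  have h3 : (2 ^ Q.card : ENNReal) * P G ≤ m * ((2 ^ Q.card : ENNReal) * P E) := by
    rw [← h1, ← h2, ← lintegral_const_mul' _ _ (ENNReal.natCast_ne_top m)]
    apply lintegral_mono
    intro x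
    have := fiber_count Q G E m T hT hfib x
    beta_reduce
    exact_mod_cast this
  have h4 : (2 ^ Q.card : ENNReal) * P G ≤ (2 ^ Q.card : ENNReal) * (m * P E) := by
    calc _ ≤ _ := h3
      _ = _ := by ring
  have h5 : P G ≤ m * P E := by
    rwa [ENNReal.mul_le_mul_iff_right (by positivity) (by simp)] at h4
  unfold Measure.real
  have h6 : (m * P E).toReal = m * (P E).toReal := by
    rw [ENNReal.toReal_mul, ENNReal.toReal_natCast]
  rw [← h6]
  exact ENNReal.toReal_mono (ENNReal.mul_ne_top (ENNReal.natCast_ne_top m) (measure_ne_top _ _)) h5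

end Pool.Agent.NoIid
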