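import Mathlib
import Pool.Agent.NoIid.Defs
import Pool.Agent.NoIid.Limit
import Pool.Agent.NoIid.Prob

/-!
The process as a map on the sample space.
-/

open MeasureTheory

namespace Pool.Agent.NoIid

/-- first field -/
def Uf (x : Om) : ℤ → Bool := fun k => (x k).1

/-- second field -/
def Wf (x : Om) : ℤ → Bool := fun k => (x k).2

/-- the process -/
noncomputable def Ymap (s : ℕ → ℕ) (F : ℕ → (ℤ → Bool) → ℤ → Bool) (x : Om) : ℤ → Bool :=
  fun k => YL s F (Uf x) (Wf x) k

theorem meas_of_dep {C : Type*} [Finite C] [MeasurableSpace C] [MeasurableSingletonClass C]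
    {A : Set (ℤ → C)} (lo hi : ℤ)
    (h : ∀ x y : ℤ → C, (∀ k, lo ≤ k → k ≤ hi → x k = y k) → x ∈ A → y ∈ A) :
    MeasurableSet A := by
  classical
  set I : Finset ℤ := Finset.Icc lo hi with hI
  have h1 : A = I.restrict ⁻¹' (I.restrict '' A) := by
    ext x
    constructor
    · intro hx
      exact ⟨x, hx, rfl⟩
    · rintro ⟨y, hy, hxy⟩
      refine h y x ?_ hy
      intro k hk1 hk2
      have hk : k ∈ I := by rw [hI, Finset.mem_Icc]; exact ⟨hk1, hk2⟩
      exact congrFun hxy ⟨k, hk⟩
  rw [h1]
  exact (Finset.measurable_restrict I) (Set.toFinite _).measurableSet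

section

variable {s : ℕ → ℕ} {F : ℕ → (ℤ → Bool) → ℤ → Bool}

theorem Wf_congr {x y : Om} {k : ℤ} (h : x k = y k) : Wf x k = Wf y k := by
  unfold Wf; rw [h]

theorem Uf_congr {x y : Om} {k : ℤ} (h : x k = y k) : Uf x k = Uf y k := by
  unfold Uf; rw [h]

theorem meas_V (hs : Growth s) (i : ℕ) (k : ℤ) : MeasurableSet {x : Om | V s (Wf x) i k} := by
  refine meas_of_dep (k - rad s i) k ?_
  intro x y hxy hx
  exact (V.congr hs (fun m h1 h2 => Wf_congr (hxy m h1 h2))).mp hx

theorem meas_yy (hs : Growth s) (i : ℕ) (k : ℤ) (b : Bool) :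
    MeasurableSet {x : Om | yy s F (Uf x) (Wf x) i k = b} := by
  refine meas_of_dep (k - rad s i) (k + rad s i) ?_
  intro x y hxy hx
  have := yy_congr (F := F) hs i k (W := Wf x) (W' := Wf y) (U := Uf x) (U' := Uf y)
    (fun m h1 h2 => Wf_congr (hxy m h1 h2)) (fun m h1 h2 => Uf_congr (hxy m h1 h2))
  rw [Set.mem_ofPred_eq] at hx ⊢
  rw [← this]
  exact hx

theorem measurable_Ymap (hs : Growth s) : Measurable (Ymap s F) := by
  rw [measurable_pi_iff]
  intro k
  apply measurable_to_bool
  have h : (fun x => Ymap s F x k) ⁻¹' {true} =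
      (⋃ i : ℕ, ({x : Om | V s (Wf x) i k}ᶜ ∩ {x : Om | yy s F (Uf x) (Wf x) i k = true})) ∪
      ((⋂ i : ℕ, {x : Om | V s (Wf x) i k}) ∩ {x : Om | Uf x k = true}) := by
    ext x
    simp only [Set.mem_preimage, Set.mem_singleton_iff, Set.mem_union, Set.mem_iUnion,
      Set.mem_inter_iff, Set.mem_compl_iff, Set.mem_ofPred_eq, Set.mem_iInter, Ymap]
    by_cases hx : ∃ i, ¬ V s (Wf x) i k
    · obtain ⟨i, hi⟩ := hx
      constructor
      · intro h
        left
        exact ⟨i, hi, by rw [← YL_eq hi]; exact h⟩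
      · rintro (⟨i', hi', h⟩ | ⟨h, _⟩)
        · rw [YL_eq hi']; exact h
        · exact absurd (h i) hi
    · push Not at hx
      rw [YL_eq_U hx]
      constructor
      · intro h
        right
        exact ⟨hx, h⟩
      · rintro (⟨i', hi', h⟩ | ⟨_, h⟩)
        · exact absurd (hx i') hi'
        · exact h
  rw [h]
  apply MeasurableSet.union
  · exact MeasurableSet.iUnion (fun i => (meas_V hs i k).compl.inter (meas_yy hs i k true))
  · exact (MeasurableSet.iInter (fun i => meas_V hs i k)).inter (by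
      have : {x : Om | Uf x k = true} = (fun x : Om => bt x (false, k)) ⁻¹' {true} := by
        ext x; simp [bt, Uf]
      rw [this]
      exact measurable_bt _ (MeasurableSet.singleton true))

theorem Ymap_shift (x : Om) : Ymap s F (shift x) = shift (Ymap s F x) := by
  funext k
  exact YL_shift (U := Uf x) (W := Wf x) (c := 1) (k := k)

theorem Uf_shift (x : Om) (c : ℤ) : Uf (fun k => x (k + c)) = fun k => Uf x (k + c) := rfl

end

theorem iid_shift {B : Type*} [MeasurableSpace B] (p : Measure B) [IsProbabilityMeasure p]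
    (c : ℤ) : (iid p).map (fun x k => x (k + c)) = iid p := by
  unfold iid
  classical
  refine Measure.eq_infinitePi _ (fun S t ht => ?_)
  have hm : Measurable (fun (x : ℤ → B) (k : ℤ) => x (k + c)) :=
    measurable_pi_iff.mpr (fun k => measurable_pi_apply (k + c))
  rw [Measure.map_apply hm (MeasurableSet.pi S.countable_toSet (fun i _ => ht i))]
  have h1 : (fun (x : ℤ → B) (k : ℤ) => x (k + c)) ⁻¹' ((S : Set ℤ).pi t) =
      ((S.image (fun k => k + c) : Finset ℤ) : Set ℤ).pi (fun k => t (k - c)) := by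
    ext x
    simp only [Set.mem_preimage, Set.mem_pi, Finset.mem_coe, Finset.mem_image]
    constructor
    · rintro h k ⟨k', hk', rfl⟩
      have := h k' hk'
      simpa using this
    · intro h k hk
      have := h (k + c) ⟨k, hk, rfl⟩
      simpa using this
  rw [h1, Measure.infinitePi_pi _ (fun i _ => ht (i - c)), Finset.prod_image]
  · simp
  · intro a _ b _ hab
    simpa using hab

theorem P_eq_iid : P = iid coin2 := rfl

theorem map_P_shift (c : ℤ) : P.map (fun x k => x (k + c)) = P := iid_shift coin2 c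

theorem mp_shift (c : ℤ) : MeasurePreserving (fun (x : Om) (k : ℤ) => x (k + c)) P P :=
  ⟨measurable_pi_iff.mpr (fun k => measurable_pi_apply (k + c)), map_P_shift c⟩

end Pool.Agent.NoIid
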