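import Mathlib
import Pool.Agent.NoIid.Proc

/-!
Probability bounds for the marks.
-/

open MeasureTheory

namespace Pool.Agent.NoIid

/-- the bits read to detect a run -/
noncomputable def Qr (e : ℤ) (r : ℕ) : Finset (Bool × ℤ) :=
  (Finset.Icc (e - r - 1) e).image (fun m => (true, m))

/-- the pattern of a run -/
def cr (e : ℤ) (r : ℕ) : Bool × ℤ → Bool := fun q => decide (e - r ≤ q.2 ∧ q.2 < e)

theorem Qr_card (e : ℤ) (r : ℕ) : (Qr e r).card = r + 2 := by
  unfold Qr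
  rw [Finset.card_image_of_injective _ (fun a b h => by simpa using h), Int.card_Icc]
  omega

theorem mem_Qr {e : ℤ} {r : ℕ} {q : Bool × ℤ} :
    q ∈ Qr e r ↔ q.1 = true ∧ e - r - 1 ≤ q.2 ∧ q.2 ≤ e := by
  unfold Qr
  rw [Finset.mem_image]
  constructor
  · rintro ⟨m, hm, rfl⟩
    rw [Finset.mem_Icc] at hm
    exact ⟨rfl, hm⟩
  · rintro ⟨h1, h2⟩
    obtain ⟨b, m⟩ := q
    simp only at h1 h2
    subst h1
    exact ⟨m, Finset.mem_Icc.mpr h2, rfl⟩

theorem bt_true (x : Om) (m : ℤ) : bt x (true, m) = Wf x m := by simp [bt, Wf]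

theorem bt_false (x : Om) (m : ℤ) : bt x (false, m) = Uf x m := by simp [bt, Uf]

theorem run_pattern (e : ℤ) (r : ℕ) :
    {x : Om | Run (Wf x) e r} = {x | ∀ q ∈ Qr e r, bt x q = cr e r q} := by
  ext x
  simp only [Set.mem_ofPred_eq]
  constructor
  · rintro ⟨h1, h2, h3⟩ ⟨b, m⟩ hq
    rw [mem_Qr] at hq
    obtain ⟨hb, hm1, hm2⟩ := hq
    simp only at hb hm1 hm2
    subst hb
    rw [bt_true]
    unfold cr
    by_cases hc : e - r ≤ m ∧ m < e
    · rw [decide_eq_true hc]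
      exact h2 m hc.1 hc.2
    · rw [decide_eq_false hc]
      have : m = e ∨ m = e - r - 1 := by
        omega
      rcases this with rfl | rfl
      · exact h1
      · exact h3
  · intro h
    refine ⟨?_, ?_, ?_⟩
    · have := h (true, e) (mem_Qr.mpr ⟨rfl, by simp only; omega, le_rfl⟩)
      rw [bt_true] at this
      rw [this]
      unfold cr
      rw [decide_eq_false]
      simp
    · intro m hm1 hm2
      have := h (true, m) (mem_Qr.mpr ⟨rfl, by simp only; omega, by simp only; omega⟩)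
      rw [bt_true] at this
      rw [this]
      unfold cr
      rw [decide_eq_true]
      exact ⟨hm1, hm2⟩
    · have := h (true, e - r - 1) (mem_Qr.mpr ⟨rfl, le_rfl, by simp only; omega⟩)
      rw [bt_true] at this
      rw [this]
      unfold cr
      rw [decide_eq_false]
      simp only
      omega

theorem meas_run (e : ℤ) (r : ℕ) : MeasurableSet {x : Om | Run (Wf x) e r} := by
  refine meas_of_dep (e - r - 1) e ?_
  intro x y hxy hx
  exact (Run.congr (fun k h1 h2 => Wf_congr (hxy k h1 h2))).mp hx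

theorem run_prob (e : ℤ) (r : ℕ) {E : Set Om} (hE : MeasurableSet E)
    (hI : ∀ m, e - r - 1 ≤ m → m ≤ e → Inv (true, m) E) :
    P.real ({x | Run (Wf x) e r} ∩ E) = P.real E / 2 ^ (r + 2) := by
  rw [run_pattern, pattern (Qr e r) (cr e r) hE, Qr_card]
  rintro ⟨b, m⟩ hq
  rw [mem_Qr] at hq
  obtain ⟨hb, hm1, hm2⟩ := hq
  simp only at hb hm1 hm2
  subst hb
  exact hI m hm1 hm2

theorem run_prob' (e : ℤ) (r : ℕ) : P.real {x : Om | Run (Wf x) e r} = 1 / 2 ^ (r + 2) := by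
  have := run_prob e r (E := Set.univ) MeasurableSet.univ (fun m _ _ x => by simp)
  rw [Set.inter_univ] at this
  rw [this]
  simp

/-- an event depending only on the bits `W` off a set is invariant -/
theorem Wf_flS_of_ne {m m' : ℤ} (h : m' ≠ m) (x : Om) : Wf (flS {(true, m)} x) m' = Wf x m' := by
  rw [← bt_true, ← bt_true, bt_flS]
  simp [h]

theorem Uf_flS_true {m m' : ℤ} (x : Om) : Uf (flS {(true, m)} x) m' = Uf x m' := by
  rw [← bt_false, ← bt_false, bt_flS]
  simp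

theorem Wf_flS_false {m m' : ℤ} (x : Om) : Wf (flS {(false, m)} x) m' = Wf x m' := by
  rw [← bt_true, ← bt_true, bt_flS]
  simp

theorem Uf_flS_of_ne {m m' : ℤ} (h : m' ≠ m) (x : Om) : Uf (flS {(false, m)} x) m' = Uf x m' := by
  rw [← bt_false, ← bt_false, bt_flS]
  simp [h]

/-- no runs of length `s` at `M` spaced locations -/
theorem none_prob (k : ℤ) (s : ℕ) (M : ℕ) :
    P.real {x : Om | ∀ n : ℕ, n < M → ¬ Run (Wf x) (k - n * (s + 2)) s} =
      (1 - 1 / 2 ^ (s + 2)) ^ M := by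
  induction M with
  | zero => simp
  | succ M ih =>
    have hm : MeasurableSet {x : Om | ∀ n : ℕ, n < M → ¬ Run (Wf x) (k - n * (s + 2)) s} := by
      have : {x : Om | ∀ n : ℕ, n < M → ¬ Run (Wf x) (k - n * (s + 2)) s} =
          ⋂ n ∈ Finset.range M, {x : Om | Run (Wf x) (k - n * (s + 2)) s}ᶜ := by
        ext x; simp
      rw [this]
      exact Finset.measurableSet_biInter _ (fun n _ => (meas_run _ _).compl)
    have h1 : {x : Om | ∀ n : ℕ, n < M + 1 → ¬ Run (Wf x) (k - n * (s + 2)) s} =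
        {x : Om | ∀ n : ℕ, n < M → ¬ Run (Wf x) (k - n * (s + 2)) s} \
          {x : Om | Run (Wf x) (k - M * (s + 2)) s} := by
      ext x
      simp only [Set.mem_ofPred_eq, Set.mem_sdiff]
      constructor
      · intro h
        exact ⟨fun n hn => h n (by omega), h M (by omega)⟩
      · rintro ⟨h2, h3⟩ n hn
        rcases Nat.lt_succ_iff_lt_or_eq.mp hn with h | h
        · exact h2 n h
        · subst h; exact h3
    have h2 := measureReal_inter_add_sdiff (μ := P)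
      (s := {x : Om | ∀ n : ℕ, n < M → ¬ Run (Wf x) (k - n * (s + 2)) s})
      (t := {x : Om | Run (Wf x) (k - M * (s + 2)) s}) (meas_run _ _)
    have h3 := run_prob (k - M * (s + 2)) s hm (by
      intro m hm1 hm2 x
      simp only [Set.mem_ofPred_eq]
      refine forall₂_congr (fun n hn => not_congr ?_)
      refine Run.congr (fun k' hk1 hk2 => Wf_flS_of_ne ?_ x)
      have : ((n : ℤ) + 1) * (s + 2) ≤ M * (s + 2) := by
        apply mul_le_mul_of_nonneg_right _ (by omega)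
        exact_mod_cast hn
      have h5 : ((n : ℤ) + 1) * (s + 2) = n * (s + 2) + s + 2 := by ring
      omega)
    rw [Set.inter_comm, ih] at h3
    rw [h1, pow_succ]
    rw [h3, ih] at h2
    have h4 : (1 - 1 / 2 ^ (s + 2) : ℝ) ^ M * (1 - 1 / 2 ^ (s + 2)) =
        (1 - 1 / 2 ^ (s + 2)) ^ M - (1 - 1 / 2 ^ (s + 2)) ^ M / 2 ^ (s + 2) := by ring
    linarith

theorem pow_ge2 (n : ℕ) (h : 10 ≤ n) : 4 * n * (n + 2) ≤ 2 ^ n := by
  induction n, h using Nat.le_induction with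
  | base => norm_num
  | succ n hn ih =>
    rw [pow_succ]
    nlinarith

theorem V_decay (s : ℕ → ℕ) (hs : Growth s) (i : ℕ) (k : ℤ) :
    P.real {x : Om | V s (Wf x) (i + 1) k} ≤ Real.exp (-(s i : ℝ)) := by
  set σ := s i with hσ
  have h10 : 10 ≤ σ := hs.ge10 i
  have hM : (σ * 2 ^ (σ + 2)) * (σ + 2) ≤ 4 ^ σ := by
    have h1 : 4 * σ * (σ + 2) ≤ 2 ^ σ := pow_ge2 σ h10
    have h2 : (4 : ℕ) ^ σ = 2 ^ σ * 2 ^ σ := by
      rw [← mul_pow]
      norm_num
    rw [h2]
    calc (σ * 2 ^ (σ + 2)) * (σ + 2) = (4 * σ * (σ + 2)) * 2 ^ σ := by ring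
      _ ≤ 2 ^ σ * 2 ^ σ := Nat.mul_le_mul_right _ h1
  set M := σ * 2 ^ (σ + 2) with hMdef
  have hsub : {x : Om | V s (Wf x) (i + 1) k} ⊆
      {x : Om | ∀ n : ℕ, n < M → ¬ Run (Wf x) (k - σ - 1 - n * (σ + 2)) σ} := by
    intro x hx n hn hR
    rw [Set.mem_ofPred_eq] at hx
    refine hx i (Nat.lt_succ_self i) (k - σ - 1 - n * (σ + 2)) (Or.inl hR) ?_
    have h1 : ((n : ℤ) + 1) * (σ + 2) ≤ 4 ^ σ := by
      have : (n + 1) * (σ + 2) ≤ 4 ^ σ := le_trans (Nat.mul_le_mul_right _ hn) hM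
      exact_mod_cast this
    have h2 : ((n : ℤ) + 1) * (σ + 2) = n * (σ + 2) + σ + 2 := by ring
    have h3 : (0 : ℤ) ≤ n * (σ + 2) := by positivity
    unfold InJ
    rw [← hσ]
    constructor
    · omega
    · omega
  refine le_trans (measureReal_mono hsub (measure_ne_top _ _)) ?_
  rw [none_prob]
  have h2 : (1 - 1 / 2 ^ (σ + 2) : ℝ) ≤ Real.exp (-(1 / 2 ^ (σ + 2))) := by
    have := Real.add_one_le_exp (-(1 / 2 ^ (σ + 2) : ℝ))
    linarith
  have h3 : (0 : ℝ) ≤ 1 - 1 / 2 ^ (σ + 2) := by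
    have : (1 : ℝ) / 2 ^ (σ + 2) ≤ 1 := by
      rw [div_le_one (by positivity)]
      exact one_le_pow₀ (by norm_num)
    linarith
  calc (1 - 1 / 2 ^ (σ + 2) : ℝ) ^ M ≤ (Real.exp (-(1 / 2 ^ (σ + 2)))) ^ M :=
        pow_le_pow_left₀ h3 h2 M
    _ = Real.exp (M * (-(1 / 2 ^ (σ + 2)))) := by rw [← Real.exp_nat_mul]
    _ = Real.exp (-(σ : ℝ)) := by
        congr 1
        rw [hMdef]
        push_cast
        field_simp

theorem geom_bound (f : ℕ → ℝ) (hf0 : ∀ i, 0 ≤ f i) (hf : ∀ i, f (i + 1) ≤ f i / 2) (j J : ℕ) :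
    ∑ i ∈ Finset.Ico j J, f i ≤ 2 * f j := by
  rcases Nat.lt_or_ge J j with hJ | hJ
  · rw [Finset.Ico_eq_empty (by omega), Finset.sum_empty]
    have := hf0 j
    linarith
  · have key : ∑ i ∈ Finset.Ico j J, f i ≤ 2 * f j - 2 * f J := by
      induction J, hJ using Nat.le_induction with
      | base => simp
      | succ n hn ih =>
        rw [Finset.sum_Ico_succ_top hn]
        have := hf n
        linarith
    have := hf0 J
    linarith

/-- sites covered by an action interval of level in `[j, J)` -/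
def ActS (s : ℕ → ℕ) (j J : ℕ) (W : ℤ → Bool) (k : ℤ) : Prop :=
  ∃ i, j ≤ i ∧ i < J ∧ ∃ a e, AM s W i a e ∧ InJ s i e k

theorem Vst_iff {s : ℕ → ℕ} {W : ℤ → Bool} {j J : ℕ} {k : ℤ} :
    Vst s W j J k ↔ V s W j k ∧ ¬ ActS s j J W k := by
  unfold Vst ActS
  constructor
  · rintro ⟨h1, h2⟩
    refine ⟨h1, ?_⟩
    rintro ⟨i, h3, h4, a, e, h5, h6⟩
    exact h2 i h3 h4 a e h5 h6
  · rintro ⟨h1, h2⟩
    exact ⟨h1, fun i h3 h4 a e h5 h6 => h2 ⟨i, h3, h4, a, e, h5, h6⟩⟩

theorem sum_runs (σ : ℕ) : ∑ a ∈ Finset.range σ, (1 : ℝ) / 2 ^ (10 * σ + a + 2) ≤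
    2 * (1 / 2 ^ (10 * σ + 2)) := by
  have := geom_bound (fun a => (1 : ℝ) / 2 ^ (10 * σ + a + 2)) (fun a => by positivity)
    (fun a => by
      have : (2 : ℝ) ^ (10 * σ + (a + 1) + 2) = 2 ^ (10 * σ + a + 2) * 2 := by
        rw [← pow_succ]; congr 1
      rw [this]
      apply le_of_eq
      field_simp) 0 σ
  rw [Finset.range_eq_Ico]
  simpa using this

theorem ActS_prob (s : ℕ → ℕ) (hs : Growth s) (j J : ℕ) (k : ℤ) :
    P.real {x : Om | ActS s j J (Wf x) k} ≤ 1 / 2 ^ (8 * s j) := by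
  have hsub : {x : Om | ActS s j J (Wf x) k} ⊆
      ⋃ i ∈ Finset.Ico j J, ⋃ a ∈ Finset.range (s i),
        ⋃ e ∈ Finset.Icc (k - s i - 4 ^ s i) (k - s i - 1),
          {x : Om | Run (Wf x) e (10 * s i + a)} := by
    rintro x ⟨i, h1, h2, a, e, ⟨h3, h4⟩, h5⟩
    simp only [Set.mem_iUnion, Finset.mem_Ico, Finset.mem_range, Finset.mem_Icc,
      Set.mem_ofPred_eq, exists_prop]
    have h6 := h5.1
    have h7 := h5.2
    exact ⟨i, ⟨h1, h2⟩, a, h3, e, ⟨by omega, by omega⟩, h4⟩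
  refine le_trans (measureReal_mono hsub (measure_ne_top _ _)) ?_
  refine le_trans (measureReal_biUnion_finset_le _ _) ?_
  have h1 : ∀ i ∈ Finset.Ico j J, P.real (⋃ a ∈ Finset.range (s i),
        ⋃ e ∈ Finset.Icc (k - s i - 4 ^ s i) (k - s i - 1),
          {x : Om | Run (Wf x) e (10 * s i + a)}) ≤ 1 / 2 ^ (8 * s i + 1) := by
    intro i _
    refine le_trans (measureReal_biUnion_finset_le _ _) ?_
    have h2 : ∀ a ∈ Finset.range (s i),
        P.real (⋃ e ∈ Finset.Icc (k - s i - 4 ^ s i) (k - s i - 1),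
          {x : Om | Run (Wf x) e (10 * s i + a)}) ≤
        4 ^ s i * (1 / 2 ^ (10 * s i + a + 2)) := by
      intro a _
      refine le_trans (measureReal_biUnion_finset_le _ _) ?_
      rw [Finset.sum_congr rfl (fun e _ => run_prob' e _), Finset.sum_const, Int.card_Icc]
      have : (k - s i - 1 + 1 - (k - s i - 4 ^ s i)).toNat = 4 ^ s i := by
        have h3 : k - s i - 1 + 1 - (k - s i - 4 ^ s i) = ((4 ^ s i : ℕ) : ℤ) := by
          push_cast; ring
        rw [h3, Int.toNat_natCast]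
      rw [this]
      simp
    refine le_trans (Finset.sum_le_sum h2) ?_
    rw [← Finset.mul_sum]
    refine le_trans (mul_le_mul_of_nonneg_left (sum_runs (s i)) (by positivity)) ?_
    have h3 : (4 : ℝ) ^ s i = 2 ^ (2 * s i) := by
      rw [pow_mul]; norm_num
    have h4 : (2 : ℝ) ^ (10 * s i + 2) = 2 ^ (2 * s i) * 2 ^ (8 * s i + 1) * 2 := by
      rw [← pow_add, ← pow_succ]; congr 1; ring
    rw [h3, h4]
    apply le_of_eq
    field_simp
  refine le_trans (Finset.sum_le_sum h1) ?_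
  refine le_trans (geom_bound (fun i => (1 : ℝ) / 2 ^ (8 * s i + 1)) (fun i => by positivity) ?_
    j J) ?_
  · intro i
    have h2 := hs.lt_succ i
    have h3 : (2 : ℝ) ^ (8 * s i + 1) * 2 ≤ 2 ^ (8 * s (i + 1) + 1) := by
      rw [← pow_succ]
      exact pow_le_pow_right₀ (by norm_num) (by omega)
    have h4 : (1 : ℝ) / 2 ^ (8 * s i + 1) / 2 = 1 / (2 ^ (8 * s i + 1) * 2) := by
      field_simp
    rw [h4]
    exact one_div_le_one_div_of_le (by positivity) h3
  · rw [pow_succ]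
    apply le_of_eq
    field_simp

end Pool.Agent.NoIid
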