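import Mathlib
import Pool.Agent.NoIid.Bounds

/-!
Positivity: sites outside all intervals, with prescribed content.
-/

open MeasureTheory

namespace Pool.Agent.NoIid

variable {s : ℕ → ℕ} {F : ℕ → (ℤ → Bool) → ℤ → Bool}

theorem V_of_zero {s : ℕ → ℕ} (hs : Growth s) {W : ℤ → Bool} {j : ℕ} {k : ℤ}
    (h : ∀ m, k - rad s j ≤ m → m ≤ k → W m = false) : V s W j k := by
  intro i hi e hM hJ
  have h1 := hs.rad_mono hi
  have h2 := hs.pow_geZ i
  have h3 := hs.ge10 i
  have h4 := hJ.1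
  have h5 := hJ.2
  have h6 : W (e - 1) = true := by
    rcases hM with hR | ⟨a, _, hR⟩
    · exact hR.2.1 (e - 1) (by omega) (by omega)
    · exact hR.2.1 (e - 1) (by push_cast; omega) (by omega)
  rw [h (e - 1) (by omega) (by omega)] at h6
  exact Bool.noConfusion h6

theorem yy_of_Vst {U W : ℤ → Bool} {j J : ℕ} {k : ℤ} (h : Vst s W j J k) :
    yy s F U W J k = U k := by
  refine (yy_indep (C := {k}) (U' := U) (fun _ _ => rfl) J ?_).2 k rfl
  rintro k' rfl i hi a e hA hJ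
  rcases Nat.lt_or_ge i j with hij | hij
  · exact h.1 i hij e (Or.inr ⟨a, hA⟩) hJ
  · exact h.2 i hij hi a e hA hJ

theorem Vst.na {W : ℤ → Bool} {j J : ℕ} {k : ℤ} (h : Vst s W j J k) : NA s W J k := by
  intro i hi a e hA hJ
  rcases Nat.lt_or_ge i j with hij | hij
  · exact h.1 i hij e (Or.inr ⟨a, hA⟩) hJ
  · exact h.2 i hij hi a e hA hJ

theorem ActS.congr {W W' : ℤ → Bool} {j J : ℕ} {k : ℤ}
    (h : ∀ m, m ≤ k - s j - 1 → W m = W' m) (hs : Growth s) :
    ActS s j J W k ↔ ActS s j J W' k := by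
  have key : ∀ i, j ≤ i → ∀ a e, InJ s i e k → (AM s W i a e ↔ AM s W' i a e) := by
    intro i hi a e hJ
    have h1 : s j ≤ s i := hs.strictMono.monotone hi
    have h2 := hJ.1
    exact AM.congr (fun m hm1 hm2 => h m (by omega))
  constructor
  · rintro ⟨i, h1, h2, a, e, h3, h4⟩
    exact ⟨i, h1, h2, a, e, (key i h1 a e h4).mp h3, h4⟩
  · rintro ⟨i, h1, h2, a, e, h3, h4⟩
    exact ⟨i, h1, h2, a, e, (key i h1 a e h4).mpr h3, h4⟩

theorem meas_ActS (hs : Growth s) (j J : ℕ) (k : ℤ) :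
    MeasurableSet {x : Om | ActS s j J (Wf x) k} := by
  refine meas_of_dep (k - rad s J) k ?_
  intro x y hxy
  rintro ⟨i, h1, h2, a, e, h3, h4⟩
  refine ⟨i, h1, h2, a, e, ?_, h4⟩
  refine (AM.congr (fun m hm1 hm2 => ?_)).mp h3
  apply Wf_congr
  have h5 := hs.rad_mono h2
  have h6 := hs.pow_geZ i
  have h7 := h4.1
  have h8 := h4.2
  exact hxy m (by omega) (by omega)

/-- the positive probability event -/
def PosEv (s : ℕ → ℕ) (R j J : ℕ) (u : ℤ → Bool) : Set Om :=
  {x | (∀ m : ℤ, -R - rad s j ≤ m → m ≤ R → Wf x m = false) ∧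
    (∀ k : ℤ, |k| ≤ R → ¬ ActS s j J (Wf x) k) ∧ (∀ k : ℤ, -R ≤ k → k ≤ R → Uf x k = u k)}

theorem PosEv_Vst (hs : Growth s) {R j J : ℕ} {u : ℤ → Bool} {x : Om} (hx : x ∈ PosEv s R j J u)
    {k : ℤ} (hk : |k| ≤ R) : Vst s (Wf x) j J k := by
  rw [Vst_iff]
  refine ⟨V_of_zero hs (fun m h1 h2 => ?_), hx.2.1 k hk⟩
  rw [abs_le] at hk
  exact hx.1 m (by omega) (by omega)

theorem PosEv_prob (hs : Growth s) {R j : ℕ} (hR : 4 * R ≤ s j) (J : ℕ) (u : ℤ → Bool) :
    1 / 2 ^ (4 * R + 3 + (rad s j).toNat) ≤ P.real (PosEv s R j J u) := by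
  set ρ := (rad s j).toNat with hρ
  have hρ' : (ρ : ℤ) = rad s j := Int.toNat_of_nonneg (rad_nonneg s j)
  have hrad := hs.rad_le j
  have h10 := hs.ge10 j
  set E : Set Om := {x | ∀ k : ℤ, |k| ≤ R → ¬ ActS s j J (Wf x) k} with hE
  have hEeq : E = ⋂ k ∈ Finset.Icc (-R : ℤ) R, {x : Om | ActS s j J (Wf x) k}ᶜ := by
    ext x
    simp only [hE, Set.mem_ofPred_eq, Set.mem_iInter, Set.mem_compl_iff, Finset.mem_Icc, abs_le]
  have hEm : MeasurableSet E := by
    rw [hEeq]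
    exact Finset.measurableSet_biInter _ (fun k _ => (meas_ActS hs j J k).compl)
  have hEc : P.real Eᶜ ≤ 1 / 2 := by
    have h1 : Eᶜ ⊆ ⋃ k ∈ Finset.Icc (-R : ℤ) R, {x : Om | ActS s j J (Wf x) k} := by
      rw [hEeq]
      intro x hx
      simp only [Set.mem_compl_iff, Set.mem_iInter, not_forall, not_not] at hx
      simp only [Set.mem_iUnion]
      exact hx
    refine le_trans (measureReal_mono h1 (measure_ne_top _ _)) ?_
    refine le_trans (measureReal_biUnion_finset_le _ _) ?_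
    refine le_trans (Finset.sum_le_sum (fun k _ => ActS_prob s hs j J k)) ?_
    rw [Finset.sum_const, Int.card_Icc, nsmul_eq_mul]
    have h2 : ((R : ℤ) + 1 - -R).toNat = 2 * R + 1 := by omega
    rw [h2]
    rw [mul_one_div, div_le_div_iff₀ (by positivity) (by norm_num)]
    have h3 : (2 * R + 1) * 2 ≤ 2 ^ (8 * s j) := by
      have h4 : s j < 2 ^ s j := Nat.lt_two_pow_self
      have h5 : 2 ^ s j * 4 ≤ 2 ^ (8 * s j) := by
        have : 2 ^ s j * 4 = 2 ^ (s j + 2) := by rw [pow_add]; norm_num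
        rw [this]
        exact Nat.pow_le_pow_right (by norm_num) (by omega)
      omega
    have h6 : (((2 * R + 1 : ℕ) : ℝ)) * 2 ≤ 2 ^ (8 * s j) := by exact_mod_cast h3
    linarith
  have hEp : 1 / 2 ≤ P.real E := by
    have := probReal_compl_eq_one_sub (μ := P) hEm
    linarith
  set Q : Finset (Bool × ℤ) := ((Finset.Icc (-R - rad s j) (R : ℤ)).image (fun m => (true, m))) ∪
    ((Finset.Icc (-R : ℤ) R).image (fun m => (false, m))) with hQ
  have hmemQ : ∀ q : Bool × ℤ, q ∈ Q ↔ (q.1 = true ∧ -R - rad s j ≤ q.2 ∧ q.2 ≤ R) ∨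
      (q.1 = false ∧ -R ≤ q.2 ∧ q.2 ≤ (R : ℤ)) := by
    rintro ⟨b, m⟩
    rw [hQ, Finset.mem_union, Finset.mem_image, Finset.mem_image]
    constructor
    · rintro (⟨a, ha, h⟩ | ⟨a, ha, h⟩)
      · rw [Finset.mem_Icc] at ha
        simp only [Prod.mk.injEq] at h
        obtain ⟨h1, h2⟩ := h
        subst h1; subst h2
        left; exact ⟨rfl, ha⟩
      · rw [Finset.mem_Icc] at ha
        simp only [Prod.mk.injEq] at h
        obtain ⟨h1, h2⟩ := h
        subst h1; subst h2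
        right; exact ⟨rfl, ha⟩
    · rintro (⟨h1, h2⟩ | ⟨h1, h2⟩)
      · simp only at h1; subst h1
        left; exact ⟨m, Finset.mem_Icc.mpr h2, rfl⟩
      · simp only at h1; subst h1
        right; exact ⟨m, Finset.mem_Icc.mpr h2, rfl⟩
  have hQcard : Q.card = 4 * R + 2 + ρ := by
    rw [hQ, Finset.card_union_of_disjoint, Finset.card_image_of_injective,
      Finset.card_image_of_injective, Int.card_Icc, Int.card_Icc]
    · omega
    · intro a b h; simpa using h
    · intro a b h; simpa using h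
    · rw [Finset.disjoint_left]
      rintro ⟨b, m⟩ h1 h2
      rw [Finset.mem_image] at h1 h2
      obtain ⟨_, _, h1⟩ := h1
      obtain ⟨_, _, h2⟩ := h2
      simp only [Prod.mk.injEq] at h1 h2
      rw [← h1.1] at h2
      exact Bool.noConfusion h2.1
  set c : Bool × ℤ → Bool := fun q => if q.1 then false else u q.2 with hc
  have hpat := pattern Q c hEm (by
    rintro ⟨b, m⟩ hq x
    rw [hmemQ] at hq
    simp only [hE, Set.mem_ofPred_eq]
    refine forall₂_congr (fun k hk => not_congr ?_)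
    rw [abs_le] at hk
    rcases hq with ⟨h1, h2, h3⟩ | ⟨h1, _, _⟩
    · simp only at h1 h2 h3
      subst h1
      exact ActS.congr (fun m' hm' => Wf_flS_of_ne (by omega) x) hs
    · simp only at h1
      subst h1
      exact ActS.congr (fun m' _ => Wf_flS_false x) hs)
  have hset : PosEv s R j J u = {x | ∀ q ∈ Q, bt x q = c q} ∩ E := by
    ext x
    simp only [PosEv, Set.mem_ofPred_eq, Set.mem_inter_iff, hE]
    constructor
    · rintro ⟨h1, h2, h3⟩
      refine ⟨?_, h2⟩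
      rintro ⟨b, m⟩ hq
      rw [hmemQ] at hq
      rcases hq with ⟨hb, hm1, hm2⟩ | ⟨hb, hm1, hm2⟩
      · simp only at hb hm1 hm2; subst hb
        rw [bt_true, h1 m hm1 hm2]; simp [hc]
      · simp only at hb hm1 hm2; subst hb
        rw [bt_false, h3 m hm1 hm2]; simp [hc]
    · rintro ⟨h1, h2⟩
      refine ⟨?_, h2, ?_⟩
      · intro m hm1 hm2
        have := h1 (true, m) ((hmemQ _).mpr (Or.inl ⟨rfl, hm1, hm2⟩))
        rw [bt_true] at this
        rw [this]; simp [hc]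
      · intro m hm1 hm2
        have := h1 (false, m) ((hmemQ _).mpr (Or.inr ⟨rfl, hm1, hm2⟩))
        rw [bt_false] at this
        rw [this]; simp [hc]
  rw [hset, hpat, hQcard]
  rw [div_le_div_iff₀ (by positivity) (by positivity)]
  have : (2 : ℝ) ^ (4 * R + 3 + ρ) = 2 * 2 ^ (4 * R + 2 + ρ) := by
    rw [← pow_succ']; congr 1; ring
  rw [this]
  have h2 : (0 : ℝ) < 2 ^ (4 * R + 2 + ρ) := by positivity
  nlinarith

theorem PosEv_anti {R j : ℕ} {u : ℤ → Bool} {J J' : ℕ} (h : J ≤ J') :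
    PosEv s R j J' u ⊆ PosEv s R j J u := by
  rintro x ⟨h1, h2, h3⟩
  refine ⟨h1, fun k hk hA => h2 k hk ?_, h3⟩
  obtain ⟨i, h4, h5, h6⟩ := hA
  exact ⟨i, h4, lt_of_lt_of_le h5 h, h6⟩

theorem meas_PosEv (hs : Growth s) (R j J : ℕ) (u : ℤ → Bool) :
    MeasurableSet (PosEv s R j J u) := by
  refine meas_of_dep (-R - rad s j - rad s J) R ?_
  intro x y hxy
  rintro ⟨h1, h2, h3⟩
  have hj := rad_nonneg s j
  have hJ := rad_nonneg s J
  refine ⟨fun m hm1 hm2 => ?_, fun k hk hA => h2 k hk ?_, fun k hk1 hk2 => ?_⟩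
  · rw [← Wf_congr (hxy m (by omega) hm2)]
    exact h1 m hm1 hm2
  · rw [abs_le] at hk
    obtain ⟨i, h4, h5, a, e, h6, h7⟩ := hA
    refine ⟨i, h4, h5, a, e, ?_, h7⟩
    refine (AM.congr (fun m hm1 hm2 => ?_)).mpr h6
    apply Wf_congr
    have h8 := hs.rad_mono h5
    have h9 := hs.pow_geZ i
    have h10 := h7.1
    have h11 := h7.2
    exact hxy m (by omega) (by omega)
  · rw [← Uf_congr (hxy k (by omega) hk2)]
    exact h3 k hk1 hk2

theorem Growth.exists_ge (hs : Growth s) (n : ℕ) : ∃ j, n ≤ s j :=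
  ⟨n, hs.strictMono.id_le n⟩

theorem pos_inf (hs : Growth s) (R : ℕ) (u : ℤ → Bool) :
    0 < P {x : Om | (∀ k : ℤ, |k| ≤ R → ∀ i, NA s (Wf x) i k) ∧
      (∀ k : ℤ, |k| ≤ R → Uf x k = u k)} := by
  obtain ⟨j, hj⟩ := hs.exists_ge (4 * R)
  have h1 : Filter.Tendsto (fun J => P (PosEv s R j J u)) Filter.atTop
      (nhds (P (⋂ J, PosEv s R j J u))) := by
    apply tendsto_measure_iInter_atTop
    · exact fun J => (meas_PosEv hs R j J u).nullMeasurableSet
    · intro J J' h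
      exact PosEv_anti h
    · exact ⟨0, measure_ne_top _ _⟩
  have h2 : ∀ J, ENNReal.ofReal (1 / 2 ^ (4 * R + 3 + (rad s j).toNat)) ≤
      P (PosEv s R j J u) := by
    intro J
    have := PosEv_prob hs hj J u
    rw [ENNReal.ofReal_le_iff_le_toReal (measure_ne_top _ _)]
    exact this
  have h3 := ge_of_tendsto' h1 h2
  have h4 : (0 : ENNReal) < ENNReal.ofReal (1 / 2 ^ (4 * R + 3 + (rad s j).toNat)) := by
    rw [ENNReal.ofReal_pos]; positivity
  refine lt_of_lt_of_le h4 (le_trans h3 (measure_mono ?_))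
  intro x hx
  rw [Set.mem_iInter] at hx
  constructor
  · intro k hk i
    have h5 := PosEv_Vst hs (hx (max i j)) hk
    intro i' hi'
    exact h5.na i' (lt_of_lt_of_le hi' (le_max_left _ _))
  · intro k hk
    rw [abs_le] at hk
    exact (hx 0).2.2 k hk.1 hk.2

end Pool.Agent.NoIid
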