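import Mathlib
import Pool.Agent.NoIid.Pos

/-!
Words which decide a finitary observable, and the existence of a flippable pair.
-/

open MeasureTheory

namespace Pool.Agent.NoIid

/-- the window of radius `N` of `v` decides that `g` holds -/
def Dec (ν : Measure (ℤ → Bool)) (g : (ℤ → Bool) → Prop) (N : ℕ) (v : ℤ → Bool) : Prop :=
  ∀ᵐ y ∂ν, (∀ k : ℤ, |k| ≤ N → y k = v k) → g y

/-- the observable `g` is finitary -/
def Fin1 (ν : Measure (ℤ → Bool)) (g : (ℤ → Bool) → Prop) : Prop :=
  ∀ᵐ y ∂ν, ∃ r : ℕ, ∀ᵐ y' ∂ν, (∀ k : ℤ, |k| ≤ r → y' k = y k) → (g y' ↔ g y)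

section

variable {ν : Measure (ℤ → Bool)} {g : (ℤ → Bool) → Prop}

theorem Dec.mono {N N' : ℕ} (h : N ≤ N') {v : ℤ → Bool} (hD : Dec ν g N v) : Dec ν g N' v := by
  unfold Dec at hD ⊢
  filter_upwards [hD] with y hy hy'
  exact hy (fun k hk => hy' k (le_trans hk (by exact_mod_cast h)))

theorem Dec.congr {N : ℕ} {v v' : ℤ → Bool} (h : ∀ k : ℤ, |k| ≤ N → v k = v' k)
    (hD : Dec ν g N v) : Dec ν g N v' := by
  unfold Dec at hD ⊢
  filter_upwards [hD] with y hy hy'
  exact hy (fun k hk => (hy' k hk).trans (h k hk).symm)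

theorem Fin1.ae_dec (hF : Fin1 ν g) : ∀ᵐ y ∂ν, (g y → ∃ N, Dec ν g N y) ∧
    (¬ g y → ∃ N, Dec ν (fun y => ¬ g y) N y) := by
  unfold Fin1 at hF
  filter_upwards [hF] with y hy
  obtain ⟨r, hr⟩ := hy
  constructor
  · intro hg
    refine ⟨r, ?_⟩
    unfold Dec
    filter_upwards [hr] with y' hy' h
    exact (hy' h).mpr hg
  · intro hg
    refine ⟨r, ?_⟩
    unfold Dec
    filter_upwards [hr] with y' hy' h hg'
    exact hg ((hy' h).mp hg')

theorem ae_of_dec (ν : Measure (ℤ → Bool)) (g : (ℤ → Bool) → Prop) :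
    ∀ᵐ y ∂ν, ∀ N, Dec ν g N y → g y := by
  rw [ae_all_iff]
  intro N
  classical
  -- enumerate words
  set ext : (Finset.Icc (-N : ℤ) N → Bool) → ℤ → Bool := fun w k =>
    if h : k ∈ Finset.Icc (-N : ℤ) N then w ⟨k, h⟩ else false with hext
  have h1 : ∀ᵐ y ∂ν, ∀ w : (Finset.Icc (-N : ℤ) N → Bool), Dec ν g N (ext w) →
      (∀ k : ℤ, |k| ≤ N → y k = ext w k) → g y := by
    rw [ae_all_iff]
    intro w
    by_cases hw : Dec ν g N (ext w)
    · unfold Dec at hw
      filter_upwards [hw] with y hy _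
      exact hy
    · exact Filter.Eventually.of_forall (fun y h => absurd h hw)
  filter_upwards [h1] with y hy hD
  have h2 : ∀ k : ℤ, |k| ≤ N → y k = ext (fun k => y k) k := by
    intro k hk
    have hk' : k ∈ Finset.Icc (-N : ℤ) N := by rw [Finset.mem_Icc]; rwa [abs_le] at hk
    simp only [hext, dif_pos hk']
  exact hy (fun k => y k) (hD.congr h2) h2

theorem meas_Dec (ν : Measure (ℤ → Bool)) (g : (ℤ → Bool) → Prop) (N : ℕ) :
    MeasurableSet {y : ℤ → Bool | Dec ν g N y} := by
  refine meas_of_dep (-N) N ?_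
  intro x y hxy hx
  exact hx.congr (fun k hk => by rw [abs_le] at hk; exact hxy k hk.1 hk.2)

theorem tendsto_Dec [IsProbabilityMeasure ν] (hF : Fin1 ν g) :
    Filter.Tendsto (fun N => ν.real {y | Dec ν g N y}) Filter.atTop (nhds (ν.real {y | g y})) := by
  have h1 : {y | g y} =ᵐ[ν] ⋃ N, {y | Dec ν g N y} := by
    filter_upwards [hF.ae_dec, ae_of_dec ν g] with y hy1 hy2
    apply propext
    constructor
    · intro h
      obtain ⟨N, hN⟩ := hy1.1 h
      exact Set.mem_iUnion.mpr ⟨N, hN⟩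
    · intro h
      obtain ⟨N, hN⟩ := Set.mem_iUnion.mp h
      exact hy2 N hN
  have h2 : ν.real {y | g y} = ν.real (⋃ N, {y | Dec ν g N y}) := measureReal_congr h1
  rw [h2]
  unfold Measure.real
  apply (ENNReal.tendsto_toReal (measure_ne_top _ _)).comp
  apply tendsto_measure_iUnion_atTop
  intro N N' h y hy
  exact Dec.mono h hy

end

section flip

variable {s : ℕ → ℕ} {F : ℕ → (ℤ → Bool) → ℤ → Bool}

/-- law of the process -/
noncomputable def nu (s : ℕ → ℕ) (F : ℕ → (ℤ → Bool) → ℤ → Bool) : Measure (ℤ → Bool) :=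
  P.map (Ymap s F)

theorem nu_prob (hs : Growth s) : IsProbabilityMeasure (nu s F) := by
  unfold nu
  exact Measure.isProbabilityMeasure_map (measurable_Ymap hs).aemeasurable

theorem ae_nu (hs : Growth s) {p : (ℤ → Bool) → Prop} (h : ∀ᵐ y ∂(nu s F), p y) :
    ∀ᵐ x ∂P, p (Ymap s F x) :=
  ae_of_ae_map (measurable_Ymap hs).aemeasurable h

theorem ae_flS (S : Finset (Bool × ℤ)) {p : Om → Prop} (h : ∀ᵐ x ∂P, p x) :
    ∀ᵐ x ∂P, p (flS S x) :=
  (mp_flS S).quasiMeasurePreserving.ae h

/-- full support -/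
theorem nu_full (hs : Growth s) (N : ℕ) (v : ℤ → Bool) :
    0 < nu s F {y | ∀ k : ℤ, |k| ≤ N → y k = v k} := by
  have hm : MeasurableSet {y : ℤ → Bool | ∀ k : ℤ, |k| ≤ N → y k = v k} := by
    refine meas_of_dep (-N) N ?_
    intro x y hxy hx k hk
    have := hx k hk
    rw [abs_le] at hk
    rw [← hxy k hk.1 hk.2]; exact this
  unfold nu
  rw [Measure.map_apply (measurable_Ymap hs) hm]
  refine lt_of_lt_of_le (pos_inf hs N v) (measure_mono ?_)
  rintro x ⟨h1, h2⟩ k hk
  have := (YL_indep (F := F) (U := Uf x) (W := Wf x) (C := {k | |k| ≤ N}) (U' := Uf x)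
    (fun _ _ => rfl) (fun k hk i => h1 k hk i)).2 k hk
  change YL s F (Uf x) (Wf x) k = v k
  rw [this]
  exact h2 k hk

theorem dec_excl (hs : Growth s) {g : (ℤ → Bool) → Prop} {N : ℕ} {v : ℤ → Bool}
    (h1 : Dec (nu s F) g N v) (h2 : Dec (nu s F) (fun y => ¬ g y) N v) : False := by
  have h3 := nu_full (F := F) hs N v
  have h4 : ∀ᵐ y ∂(nu s F), ¬ (∀ k : ℤ, |k| ≤ N → y k = v k) := by
    unfold Dec at h1 h2
    filter_upwards [h1, h2] with y hy1 hy2 h
    exact hy2 h (hy1 h)
  rw [ae_iff] at h4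
  simp only [not_not] at h4
  rw [h4] at h3
  exact lt_irrefl _ h3

theorem Ymap_flip_NA {x : Om} {κ : ℤ} (h : ∀ i, NA s (Wf x) i κ) :
    Ymap s F (flS {(false, κ)} x) = Function.update (Ymap s F x) κ (! Ymap s F x κ) := by
  have hW : Wf (flS {(false, κ)} x) = Wf x := by
    funext m; exact Wf_flS_false x
  have hU : ∀ k, k ∉ ({κ} : Set ℤ) → Uf (flS {(false, κ)} x) k = Uf x k := by
    intro k hk
    exact Uf_flS_of_ne (by simpa using hk) x
  have hC : ∀ k ∈ ({κ} : Set ℤ), ∀ i, NA s (Wf x) i k := by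
    intro k hk i
    rw [Set.mem_singleton_iff] at hk
    rw [hk]; exact h i
  have h1 := YL_indep (F := F) hU hC
  have h2 := (YL_indep (F := F) (U := Uf x) (U' := Uf x) (fun _ _ => rfl) hC).2 κ rfl
  funext k
  by_cases hk : k = κ
  · subst hk
    rw [Function.update_self]
    change YL s F (Uf (flS {(false, k)} x)) (Wf (flS {(false, k)} x)) k =
      ! YL s F (Uf x) (Wf x) k
    rw [hW, h1.2 k rfl, h2, ← bt_false, ← bt_false, bt_flS]
    simp
  · rw [Function.update_of_ne hk]
    change YL s F (Uf (flS {(false, κ)} x)) (Wf (flS {(false, κ)} x)) k =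
      YL s F (Uf x) (Wf x) k
    rw [hW]
    exact h1.1 k (by simpa using hk)

theorem exists_flip (hs : Growth s) {g : (ℤ → Bool) → Prop} (hF : Fin1 (nu s F) g)
    (h1 : ¬ ∀ᵐ y ∂(nu s F), g y) (h0 : ¬ ∀ᵐ y ∂(nu s F), ¬ g y) :
    ∃ (R : ℕ) (v : ℤ → Bool) (κ : ℤ), |κ| ≤ R ∧ Dec (nu s F) g R v ∧
      Dec (nu s F) (fun y => ¬ g y) R (Function.update v κ (! v κ)) := by
  by_contra hno
  push Not at hno
  have hae := ae_nu hs hF.ae_dec
  -- claim A
  have hA : ∀ κ : ℤ, ∀ᵐ x ∂P, (∀ i, NA s (Wf x) i κ) → g (Ymap s F x) →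
      g (Ymap s F (flS {(false, κ)} x)) := by
    intro κ
    filter_upwards [hae, ae_flS {(false, κ)} hae] with x hx1 hx2 hNA hg
    by_contra hng
    obtain ⟨N1, hN1⟩ := hx1.1 hg
    obtain ⟨N0, hN0⟩ := hx2.2 hng
    set R := max (max N1 N0) κ.natAbs with hR
    have hκ : |κ| ≤ R := by
      rw [hR, Int.abs_eq_natAbs]
      exact_mod_cast le_max_right _ _
    refine hno R (Ymap s F x) κ hκ (hN1.mono ?_) ?_
    · exact le_trans (le_max_left _ _) (le_max_left _ _)
    · rw [← Ymap_flip_NA hNA]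
      exact hN0.mono (le_trans (le_max_right _ _) (le_max_left _ _))
  -- claim B
  have hB : ∀ S : Finset ℤ, ∀ᵐ x ∂P, (∀ κ ∈ S, ∀ i, NA s (Wf x) i κ) → g (Ymap s F x) →
      g (Ymap s F (flS (S.image (fun k => (false, k))) x)) := by
    intro S
    classical
    induction S using Finset.induction_on with
    | empty =>
      refine Filter.Eventually.of_forall (fun x _ h => ?_)
      have : flS (Finset.image (fun k => (false, k)) (∅ : Finset ℤ)) x = x := by
        apply Om_ext; intro q; rw [bt_flS]; simp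
      rw [this]; exact h
    | insert κ S hκ ih =>
      filter_upwards [ih, ae_flS (S.image (fun k => (false, k))) (hA κ)] with x hx1 hx2 hNA hg
      have h2 := hx1 (fun κ' hκ' => hNA κ' (Finset.mem_insert_of_mem hκ')) hg
      have hW : Wf (flS (S.image (fun k => (false, k))) x) = Wf x := by
        funext m
        rw [← bt_true, ← bt_true, bt_flS]
        simp
      have h3 := hx2 (by rw [hW]; exact hNA κ (Finset.mem_insert_self κ S)) h2
      rw [flS_flS] at h3
      have h4 : symmDiff {(false, κ)} (S.image (fun k => ((false, k) : Bool × ℤ))) =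
          (insert κ S).image (fun k => (false, k)) := by
        ext ⟨b, m⟩
        rw [Finset.mem_symmDiff]
        simp only [Finset.mem_singleton, Finset.mem_image, Finset.mem_insert, Prod.mk.injEq]
        constructor
        · rintro (⟨⟨h5, h6⟩, _⟩ | ⟨⟨a, h5, h6, h7⟩, _⟩)
          · exact ⟨κ, Or.inl rfl, h5.symm, h6.symm⟩
          · exact ⟨a, Or.inr h5, h6, h7⟩
        · rintro ⟨a, h5 | h5, h6, h7⟩
          · subst h5
            left
            refine ⟨⟨h6.symm, h7.symm⟩, ?_⟩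
            rintro ⟨a', h8, _, h9⟩
            rw [← h7] at h9
            rw [h9] at h8
            exact hκ h8
          · right
            refine ⟨⟨a, h5, h6, h7⟩, ?_⟩
            rintro ⟨_, h8⟩
            rw [h8] at h7
            rw [h7] at h5
            exact hκ h5
      rw [h4] at h3
      exact h3
  -- claim C
  have hex1 : ∃ (N : ℕ) (v : ℤ → Bool), Dec (nu s F) g N v := by
    by_contra hc
    push Not at hc
    apply h0
    filter_upwards [hF.ae_dec] with y hy hg
    obtain ⟨N, hN⟩ := hy.1 hg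
    exact hc N y hN
  have hex0 : ∃ (N : ℕ) (v : ℤ → Bool), Dec (nu s F) (fun y => ¬ g y) N v := by
    by_contra hc
    push Not at hc
    apply h1
    filter_upwards [hF.ae_dec] with y hy
    by_contra hg
    obtain ⟨N, hN⟩ := hy.2 hg
    exact hc N y hN
  obtain ⟨N1, v1, hv1⟩ := hex1
  obtain ⟨N0, v0, hv0⟩ := hex0
  set N := max N1 N0 with hN
  have hv1' : Dec (nu s F) g N v1 := hv1.mono (le_max_left _ _)
  have hv0' : Dec (nu s F) (fun y => ¬ g y) N v0 := hv0.mono (le_max_right _ _)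
  classical
  set S : Finset ℤ := (Finset.Icc (-N : ℤ) N).filter (fun k => v1 k ≠ v0 k) with hS
  have hpos := pos_inf hs N v1
  have hzero : ∀ᵐ x ∂P, ¬ ((∀ k : ℤ, |k| ≤ N → ∀ i, NA s (Wf x) i k) ∧
      (∀ k : ℤ, |k| ≤ N → Uf x k = v1 k)) := by
    have e1 := ae_nu hs hv1'
    have e0 := ae_flS (S.image (fun k => (false, k))) (ae_nu hs hv0')
    filter_upwards [e1, e0, hB S] with x hx1 hx0 hxB
    rintro ⟨hNA, hUx⟩
    have hC : ∀ k ∈ {k : ℤ | |k| ≤ N}, ∀ i, NA s (Wf x) i k := fun k hk i => hNA k hk i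
    have hW : Wf (flS (S.image (fun k => (false, k))) x) = Wf x := by
      funext m
      rw [← bt_true, ← bt_true, bt_flS]
      simp
    have hy1 : ∀ k : ℤ, |k| ≤ N → Ymap s F x k = v1 k := by
      intro k hk
      have := (YL_indep (F := F) (U := Uf x) (U' := Uf x) (fun _ _ => rfl) hC).2 k hk
      change YL s F (Uf x) (Wf x) k = v1 k
      rw [this]; exact hUx k hk
    have hy0 : ∀ k : ℤ, |k| ≤ N →
        Ymap s F (flS (S.image (fun k => (false, k))) x) k = v0 k := by
      intro k hk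
      have := (YL_indep (F := F) (U := Uf (flS (S.image (fun k => (false, k))) x))
        (U' := Uf (flS (S.image (fun k => (false, k))) x)) (fun _ _ => rfl) hC).2 k hk
      change YL s F (Uf (flS (S.image (fun k => (false, k))) x))
        (Wf (flS (S.image (fun k => (false, k))) x)) k = v0 k
      rw [hW, this, ← bt_false, bt_flS, bt_false, hUx k hk]
      have hmem : ((false, k) ∈ S.image (fun k => ((false, k) : Bool × ℤ))) ↔ v1 k ≠ v0 k := by
        rw [Finset.mem_image]
        constructor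
        · rintro ⟨a, ha, h⟩
          simp only [Prod.mk.injEq, true_and] at h
          subst h
          exact (Finset.mem_filter.mp ha).2
        · intro h
          refine ⟨k, Finset.mem_filter.mpr ⟨?_, h⟩, rfl⟩
          rw [Finset.mem_Icc]; rwa [abs_le] at hk
      by_cases hne : v1 k = v0 k
      · have : ¬ ((false, k) ∈ S.image (fun k => ((false, k) : Bool × ℤ))) := by
          rw [hmem]; simp [hne]
        rw [decide_eq_false this, hne]; simp
      · rw [decide_eq_true (hmem.mpr hne)]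
        revert hne
        cases v1 k <;> cases v0 k <;> simp
    have hg := hx1 hy1
    have hng := hx0 hy0
    refine hng (hxB ?_ hg)
    intro κ hκ i
    have : κ ∈ Finset.Icc (-N : ℤ) N := (Finset.mem_filter.mp hκ).1
    rw [Finset.mem_Icc] at this
    exact hNA κ (abs_le.mpr this) i
  rw [ae_iff] at hzero
  simp only [not_not] at hzero
  rw [hzero] at hpos
  exact lt_irrefl _ hpos

end flip

end Pool.Agent.NoIid
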