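import Mathlib
import Pool.Agent.NoIid.Dec

/-!
The process is a nontrivial finitary factor of an i.i.d. process.
-/

open MeasureTheory

namespace Pool.Agent.NoIid

section

variable {s : ℕ → ℕ} {F : ℕ → (ℤ → Bool) → ℤ → Bool}

theorem measurable_shift {A : Type*} [MeasurableSpace A] :
    Measurable (shift : (ℤ → A) → ℤ → A) := by
  unfold shift
  exact measurable_pi_iff.mpr (fun k => measurable_pi_apply (k + 1))

theorem tendsto_s (hs : Growth s) : Filter.Tendsto (fun i => (s i : ℝ)) Filter.atTop Filter.atTop :=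
  tendsto_natCast_atTop_atTop.comp hs.strictMono.tendsto_atTop

theorem tendsto_exp_s (hs : Growth s) :
    Filter.Tendsto (fun i => Real.exp (-(s i : ℝ))) Filter.atTop (nhds 0) :=
  Real.tendsto_exp_neg_atTop_nhds_zero.comp (tendsto_s hs)

theorem ae_notV (hs : Growth s) (k : ℤ) : ∀ᵐ x ∂P, ∃ i, ¬ V s (Wf x) i k := by
  rw [ae_iff]
  simp only [not_exists, not_not]
  have h1 : ∀ i, P.real {x : Om | ∀ i, V s (Wf x) i k} ≤ Real.exp (-(s i : ℝ)) := by
    intro i
    refine le_trans (measureReal_mono ?_ (measure_ne_top _ _)) (V_decay s hs i k)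
    intro x hx
    exact hx (i + 1)
  have h2 : P.real {x : Om | ∀ i, V s (Wf x) i k} ≤ 0 :=
    ge_of_tendsto' (tendsto_exp_s hs) h1
  have h3 : P.real {x : Om | ∀ i, V s (Wf x) i k} = 0 := le_antisymm h2 measureReal_nonneg
  exact (measureReal_eq_zero_iff (measure_ne_top _ _)).mp h3

theorem Ymap_congr (hs : Growth s) {x y : Om} {i : ℕ} {k : ℤ} (hi : ¬ V s (Wf x) i k)
    (h : ∀ m : ℤ, k - rad s i ≤ m → m ≤ k + rad s i → y m = x m) :
    Ymap s F y k = Ymap s F x k := by
  have h0 := rad_nonneg s i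
  have hV : ¬ V s (Wf y) i k := fun hv => hi ((V.congr hs
    (fun m h1 h2 => Wf_congr (h m h1 (by omega)))).mp hv)
  unfold Ymap
  rw [YL_eq hi, YL_eq hV]
  exact yy_congr hs i k (fun m h1 h2 => Wf_congr (h m h1 h2)) (fun m h1 h2 => Uf_congr (h m h1 h2))

theorem factor_map (hs : Growth s) : IsFinitaryFactorMap (iid coin2) (nu s F) (Ymap s F) where
  aemeasurable := (measurable_Ymap hs).aemeasurable
  equivariant := Filter.Eventually.of_forall (fun x => Ymap_shift x)
  map_eq := rfl
  finitary := by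
    rw [← P_eq_iid]
    filter_upwards [ae_notV hs 0] with x hx
    obtain ⟨i, hi⟩ := hx
    refine ⟨(rad s i).toNat, Filter.Eventually.of_forall (fun y hy => ?_)⟩
    refine Ymap_congr hs hi (fun m h1 h2 => hy m ?_)
    rw [Int.toNat_of_nonneg (rad_nonneg s i), abs_le]
    constructor <;> omega

theorem nu_shift (hs : Growth s) : (nu s F).map shift = nu s F := by
  unfold nu
  rw [Measure.map_map measurable_shift (measurable_Ymap hs)]
  have h1 : (shift ∘ Ymap s F) = (Ymap s F) ∘ (fun (x : Om) (k : ℤ) => x (k + 1)) := by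
    funext x
    exact (Ymap_shift x).symm
  rw [h1, ← Measure.map_map (measurable_Ymap hs) (mp_shift 1).measurable, map_P_shift]

theorem nu_process (hs : Growth s) : IsProcess (nu s F) := ⟨nu_prob hs, nu_shift hs⟩

theorem nu_shift_c (hs : Growth s) (c : ℤ) :
    (nu s F).map (fun y k => y (k + c)) = nu s F := by
  have hm : Measurable (fun (y : ℤ → Bool) (k : ℤ) => y (k + c)) :=
    measurable_pi_iff.mpr (fun k => measurable_pi_apply (k + c))
  unfold nu
  rw [Measure.map_map hm (measurable_Ymap hs)]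
  have h1 : ((fun (y : ℤ → Bool) (k : ℤ) => y (k + c)) ∘ Ymap s F) =
      (Ymap s F) ∘ (fun (x : Om) (k : ℤ) => x (k + c)) := by
    funext x k
    exact (YL_shift (U := Uf x) (W := Wf x) (c := c) (k := k)).symm
  rw [h1, ← Measure.map_map (measurable_Ymap hs) (mp_shift c).measurable, map_P_shift]

theorem mp_nu_shift (hs : Growth s) (c : ℤ) :
    MeasurePreserving (fun (y : ℤ → Bool) (k : ℤ) => y (k + c)) (nu s F) (nu s F) :=
  ⟨measurable_pi_iff.mpr (fun k => measurable_pi_apply (k + c)), nu_shift_c hs c⟩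

theorem nu_nontrivial (hs : Growth s) : ¬ IsTrivialProcess (nu s F) := by
  rintro ⟨a, ha⟩
  have h1 := nu_full (F := F) hs 0 (fun _ => !a)
  rw [ae_iff] at ha
  have h2 : {y : ℤ → Bool | ∀ k : ℤ, |k| ≤ (0 : ℕ) → y k = !a} ⊆ {y | ¬ y 0 = a} := by
    intro y hy h3
    have := hy 0 (by simp)
    rw [h3] at this
    cases a <;> simp at this
  exact absurd (lt_of_lt_of_le h1 (measure_mono h2)) (by rw [ha]; exact lt_irrefl _)

end

end Pool.Agent.NoIid
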