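import Mathlib
import Pool.Agent.NoIid.Factor

/-!
Cells, cell rules and flippable cells.
-/

open MeasureTheory

namespace Pool.Agent.NoIid

open Classical in
/-- the cell rule with parameters `R κ v θ` -/
noncomputable def rule (R : ℕ) (κ : ℤ) (v : ℤ → Bool) (M : ℕ) (θ : ZMod (M + 1) → Bool)
    (y : ℤ → Bool) (p : ℤ) : Bool :=
  if p % (2 * R + 1) = R + κ ∧ ∀ q : ℤ, |q| ≤ R → q ≠ κ → y (p - κ + q) = v q then
    (if θ ((p / (2 * R + 1) : ℤ) : ZMod (M + 1)) then v κ else !v κ)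
  else y p

/-- centre of the cell `m` -/
def cen (a0 : ℤ) (R : ℕ) (m : ℤ) : ℤ := a0 + m * (2 * R + 1) + R

/-- the cell with centre `c` is flippable -/
def Flp (s : ℕ → ℕ) (F : ℕ → (ℤ → Bool) → ℤ → Bool) (j J R : ℕ) (κ : ℤ) (v : ℤ → Bool) (x : Om)
    (c : ℤ) : Prop :=
  Vst s (Wf x) j J (c + κ) ∧
    ∀ q : ℤ, |q| ≤ R → q ≠ κ → yy s F (Uf x) (Wf x) J (c + q) = v q

open Classical in
/-- the approximation with the flippable cells set according to `θ` -/
noncomputable def Y2 (s : ℕ → ℕ) (F : ℕ → (ℤ → Bool) → ℤ → Bool) (j J : ℕ) (a0 : ℤ) (R : ℕ)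
    (κ : ℤ) (v : ℤ → Bool) (M : ℕ) (θ : ZMod (M + 1) → Bool) (x : Om) (k : ℤ) : Bool :=
  if (k - a0) % (2 * R + 1) = R + κ ∧ Flp s F j J R κ v x (k - κ) then
    (if θ (((k - a0) / (2 * R + 1) : ℤ) : ZMod (M + 1)) then v κ else !v κ)
  else yy s F (Uf x) (Wf x) J k

section arith

theorem cell_divmod {a0 κ m : ℤ} {R : ℕ} (hκ : |κ| ≤ R) :
    (cen a0 R m + κ - a0) % (2 * R + 1) = R + κ ∧ (cen a0 R m + κ - a0) / (2 * R + 1) = m := by
  rw [abs_le] at hκ
  unfold cen
  have e1 : a0 + m * (2 * R + 1) + R + κ - a0 = (R + κ) + m * (2 * (R : ℤ) + 1) := by ring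
  rw [e1]
  constructor
  · rw [Int.add_mul_emod_self_right]
    exact Int.emod_eq_of_lt (by omega) (by omega)
  · rw [Int.add_mul_ediv_right _ _ (by omega)]
    rw [Int.ediv_eq_zero_of_lt (by omega) (by omega), zero_add]

theorem cell_of_mod {a0 κ k : ℤ} {R : ℕ} (h : (k - a0) % (2 * R + 1) = R + κ) :
    k = cen a0 R ((k - a0) / (2 * R + 1)) + κ := by
  have h1 := Int.emod_add_mul_ediv (k - a0) (2 * R + 1)
  rw [h] at h1
  unfold cen
  linarith

theorem cen_sub {a0 m m' : ℤ} {R : ℕ} : cen a0 R m - cen a0 R m' = (m - m') * (2 * R + 1) := by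
  unfold cen; ring

theorem cen_inj {a0 m m' q q' : ℤ} {R : ℕ} (hq : |q| ≤ R) (hq' : |q'| ≤ R)
    (h : cen a0 R m + q = cen a0 R m' + q') : m = m' ∧ q = q' := by
  rw [abs_le] at hq hq'
  have h1 := cen_sub (a0 := a0) (m := m) (m' := m') (R := R)
  have h2 : (m - m') * (2 * R + 1) = q' - q := by linarith
  have h3 : m - m' = 0 := by
    by_contra hne
    rcases lt_or_gt_of_ne hne with h4 | h4
    · have : (m - m') * (2 * R + 1) ≤ (-1) * (2 * R + 1) :=
        mul_le_mul_of_nonneg_right (by omega) (by omega)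
      omega
    · have : 1 * (2 * (R : ℤ) + 1) ≤ (m - m') * (2 * R + 1) :=
        mul_le_mul_of_nonneg_right (by omega) (by omega)
      omega
  rw [h3] at h2
  constructor
  · omega
  · omega

end arith

section

variable {s : ℕ → ℕ} {F : ℕ → (ℤ → Bool) → ℤ → Bool} {j J R : ℕ} {κ a0 : ℤ} {v : ℤ → Bool}
  {M : ℕ} {θ : ZMod (M + 1) → Bool} {x : Om}

theorem Y2_cell {m : ℤ} (hκ : |κ| ≤ R) (hF : Flp s F j J R κ v x (cen a0 R m)) :
    Y2 s F j J a0 R κ v M θ x (cen a0 R m + κ) = if θ (m : ZMod (M + 1)) then v κ else !v κ := by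
  unfold Y2
  obtain ⟨h1, h2⟩ := cell_divmod (a0 := a0) (m := m) hκ
  rw [if_pos ⟨h1, by rw [add_sub_cancel_right]; exact hF⟩, h2]

theorem Y2_not {k : ℤ} (h : ∀ m, k = cen a0 R m + κ → ¬ Flp s F j J R κ v x (cen a0 R m)) :
    Y2 s F j J a0 R κ v M θ x k = yy s F (Uf x) (Wf x) J k := by
  unfold Y2
  rw [if_neg]
  rintro ⟨h1, h2⟩
  have h3 := cell_of_mod h1
  apply h _ h3
  have : k - κ = cen a0 R ((k - a0) / (2 * R + 1)) := by linarith
  rw [← this]; exact h2

theorem Y2_other {m q : ℤ} (hκ : |κ| ≤ R) (hq : |q| ≤ R) (hne : q ≠ κ) :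
    Y2 s F j J a0 R κ v M θ x (cen a0 R m + q) = yy s F (Uf x) (Wf x) J (cen a0 R m + q) := by
  apply Y2_not
  intro m' h
  exact absurd (cen_inj hq hκ h).2 hne

theorem Flp_congr (hs : Growth s) (hjJ : j ≤ J) {y : Om} {c : ℤ} (hκ : |κ| ≤ R)
    (h : ∀ m, c - R - rad s J ≤ m → m ≤ c + R + rad s J → x m = y m)
    (hF : Flp s F j J R κ v x c) : Flp s F j J R κ v y c := by
  have h0 := rad_nonneg s J
  rw [abs_le] at hκ
  constructor
  · exact (Vst.congr hs hjJ (fun m h1 h2 => Wf_congr (h m (by omega) (by omega)))).mp hF.1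
  · intro q hq hne
    rw [← hF.2 q hq hne]
    rw [abs_le] at hq
    exact yy_congr hs J _
      (fun m h1 h2 => (Wf_congr (h m (by omega) (by omega))).symm)
      (fun m h1 h2 => (Uf_congr (h m (by omega) (by omega))).symm)

theorem meas_Flp (hs : Growth s) (hjJ : j ≤ J) (hκ : |κ| ≤ R) (c : ℤ) :
    MeasurableSet {x : Om | Flp s F j J R κ v x c} := by
  refine meas_of_dep (c - R - rad s J) (c + R + rad s J) ?_
  intro x y hxy hx
  exact Flp_congr hs hjJ hκ hxy hx

theorem Y2_congr (hs : Growth s) (hjJ : j ≤ J) {y : Om} {k : ℤ} (hκ : |κ| ≤ R)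
    (h : ∀ m, k - 2 * R - rad s J ≤ m → m ≤ k + 2 * R + rad s J → x m = y m) :
    Y2 s F j J a0 R κ v M θ x k = Y2 s F j J a0 R κ v M θ y k := by
  have hκ' := hκ
  rw [abs_le] at hκ'
  have h0 := rad_nonneg s J
  have h1 : Flp s F j J R κ v x (k - κ) ↔ Flp s F j J R κ v y (k - κ) :=
    ⟨Flp_congr hs hjJ hκ (fun m h1 h2 => h m (by omega) (by omega)),
      Flp_congr hs hjJ hκ (fun m h1 h2 => (h m (by omega) (by omega)).symm)⟩
  have h2 : yy s F (Uf x) (Wf x) J k = yy s F (Uf y) (Wf y) J k :=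
    yy_congr (F := F) hs J k (fun m h1 h2 => Wf_congr (h m (by omega) (by omega)))
      (fun m h1 h2 => Uf_congr (h m (by omega) (by omega)))
  unfold Y2
  rw [h2]
  by_cases hc : (k - a0) % (2 * R + 1) = R + κ ∧ Flp s F j J R κ v x (k - κ)
  · have hc' : (k - a0) % (2 * R + 1) = R + κ ∧ Flp s F j J R κ v y (k - κ) :=
      ⟨hc.1, h1.mp hc.2⟩
    rw [if_pos hc, if_pos hc']
  · have hc' : ¬ ((k - a0) % (2 * R + 1) = R + κ ∧ Flp s F j J R κ v y (k - κ)) :=
      fun h => hc ⟨h.1, h1.mpr h.2⟩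
    rw [if_neg hc, if_neg hc']

/-- effect of flipping flippable cells -/
theorem flip_yy {B : Finset ℤ} (hB : ∀ m ∈ B, Flp s F j J R κ v x (cen a0 R m)) (k : ℤ) :
    yy s F (Uf (flS (B.image (fun m => (false, cen a0 R m + κ))) x))
      (Wf (flS (B.image (fun m => (false, cen a0 R m + κ))) x)) J k =
    xor (yy s F (Uf x) (Wf x) J k)
      (decide ((false, k) ∈ B.image (fun m => (false, cen a0 R m + κ)))) := by
  set S := B.image (fun m => (false, cen a0 R m + κ)) with hS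
  have hW : Wf (flS S x) = Wf x := by
    funext m
    rw [← bt_true, ← bt_true, bt_flS]
    simp [hS]
  have hU : ∀ k, Uf (flS S x) k = xor (Uf x k) (decide ((false, k) ∈ S)) := by
    intro k
    rw [← bt_false, ← bt_false, bt_flS]
  have hC : ∀ k ∈ {k : ℤ | (false, k) ∈ S}, NA s (Wf x) J k := by
    intro k hk
    rw [Set.mem_ofPred_eq, hS, Finset.mem_image] at hk
    obtain ⟨m, hm, h⟩ := hk
    simp only [Prod.mk.injEq, true_and] at h
    rw [← h]
    exact (hB m hm).1.na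
  rw [hW]
  by_cases hk : (false, k) ∈ S
  · rw [(yy_indep (F := F) (C := {k : ℤ | (false, k) ∈ S}) (U := Uf (flS S x))
      (U' := Uf (flS S x)) (fun _ _ => rfl) J hC).2 k hk]
    rw [(yy_indep (F := F) (C := {k : ℤ | (false, k) ∈ S}) (U := Uf x)
      (U' := Uf x) (fun _ _ => rfl) J hC).2 k hk]
    exact hU k
  · rw [decide_eq_false hk, Bool.xor_false]
    refine (yy_indep (F := F) (C := {k : ℤ | (false, k) ∈ S}) ?_ J hC).1 k hk
    intro k' hk'
    rw [hU k']
    have : (false, k') ∉ S := hk'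
    rw [decide_eq_false this, Bool.xor_false]

theorem flip_Flp (hκ : |κ| ≤ R) {B : Finset ℤ}
    (hB : ∀ m ∈ B, Flp s F j J R κ v x (cen a0 R m)) (m : ℤ) :
    Flp s F j J R κ v (flS (B.image (fun m => (false, cen a0 R m + κ))) x) (cen a0 R m) ↔
      Flp s F j J R κ v x (cen a0 R m) := by
  have hW : Wf (flS (B.image (fun m => (false, cen a0 R m + κ))) x) = Wf x := by
    funext m
    rw [← bt_true, ← bt_true, bt_flS]
    simp
  unfold Flp
  rw [hW]
  refine and_congr_right (fun _ => forall₃_congr (fun q hq hne => ?_))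
  have h1 := flip_yy hB (cen a0 R m + q)
  rw [hW] at h1
  rw [h1]
  have h2 : (false, cen a0 R m + q) ∉ B.image (fun m => (false, cen a0 R m + κ)) := by
    rw [Finset.mem_image]
    rintro ⟨m', _, h⟩
    simp only [Prod.mk.injEq, true_and] at h
    exact hne (cen_inj hκ hq h).2.symm
  rw [decide_eq_false h2, Bool.xor_false]

end

/-- piecewise application of measure preserving maps -/
theorem mp_piece {ι : Type*} (K : Finset ι) (c : Om → ι) (hcK : ∀ x, c x ∈ K)
    (hc : ∀ i, MeasurableSet {x | c x = i}) (T : ι → Om → Om)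
    (hT : ∀ i, MeasurePreserving (T i) P P) (hinv : ∀ i x, c (T i x) = i ↔ c x = i)
    {E : Set Om} (hE : MeasurableSet E) :
    P.real {x | T (c x) x ∈ E} = P.real E ∧ MeasurableSet {x | T (c x) x ∈ E} := by
  have h1 : {x | T (c x) x ∈ E} = ⋃ i ∈ K, T i ⁻¹' ({x | c x = i} ∩ E) := by
    ext x
    simp only [Set.mem_ofPred_eq, Set.mem_iUnion, Set.mem_preimage, Set.mem_inter_iff, exists_prop]
    constructor
    · intro h
      exact ⟨c x, hcK x, (hinv (c x) x).mpr rfl, h⟩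
    · rintro ⟨i, _, h2, h3⟩
      rw [hinv] at h2
      rw [h2]; exact h3
  have h2 : E = ⋃ i ∈ K, ({x | c x = i} ∩ E) := by
    ext x
    simp only [Set.mem_iUnion, Set.mem_inter_iff, Set.mem_ofPred_eq, exists_prop]
    constructor
    · intro h
      exact ⟨c x, hcK x, rfl, h⟩
    · rintro ⟨i, _, _, h3⟩
      exact h3
  have hm : ∀ i, MeasurableSet (T i ⁻¹' ({x | c x = i} ∩ E)) := fun i =>
    (hT i).measurable ((hc i).inter hE)
  refine ⟨?_, ?_⟩
  · rw [h1]
    conv_rhs => rw [h2]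
    rw [measureReal_biUnion_finset, measureReal_biUnion_finset]
    · refine Finset.sum_congr rfl (fun i _ => ?_)
      unfold Measure.real
      rw [(hT i).measure_preimage ((hc i).inter hE).nullMeasurableSet]
    · intro i _ i' _ hne
      rw [Function.onFun, Set.disjoint_left]
      rintro x ⟨h3, _⟩ ⟨h4, _⟩
      rw [Set.mem_ofPred_eq] at h3 h4
      exact hne (h3.symm.trans h4)
    · intro i _
      exact (hc i).inter hE
    · intro i _ i' _ hne
      rw [Function.onFun, Set.disjoint_left]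
      rintro x ⟨h3, _⟩ ⟨h4, _⟩
      rw [Set.mem_ofPred_eq] at h3 h4
      rw [hinv] at h3 h4
      exact hne (h3.symm.trans h4)
    · intro i _
      exact hm i
  · rw [h1]
    exact Finset.measurableSet_biUnion _ (fun i _ => hm i)

end Pool.Agent.NoIid
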