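import Mathlib
import Pool.Agent.NoIid.Cell

/-!
Averaging over the parameter of the cell rule.
-/

open MeasureTheory

namespace Pool.Agent.NoIid

/-- representative of a residue class near `m` -/
def rep (L : ℕ) (m : ℤ) (r : ZMod (2 * L + 1)) : ℤ :=
  m - L + ((r - ((m - L : ℤ) : ZMod (2 * L + 1))).val : ℤ)

theorem rep_eq {L : ℕ} {m m' : ℤ} (h1 : m - L ≤ m') (h2 : m' ≤ m + L) :
    rep L m (m' : ZMod (2 * L + 1)) = m' := by
  unfold rep
  rw [← Int.cast_sub, ZMod.val_intCast]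
  rw [Int.emod_eq_of_lt (by omega) (by push_cast; omega)]
  ring

theorem cast_inj_near {L : ℕ} {m m' m'' : ℤ} (h1 : m - L ≤ m') (h2 : m' ≤ m + L)
    (h3 : m - L ≤ m'') (h4 : m'' ≤ m + L)
    (h : (m' : ZMod (2 * L + 1)) = (m'' : ZMod (2 * L + 1))) : m' = m'' := by
  rw [← rep_eq h1 h2, ← rep_eq h3 h4, h]

theorem xor_sum {n : ℕ} (c : ZMod (n + 1) → Bool) (G : (ZMod (n + 1) → Bool) → ℝ) :
    ∑ h : ZMod (n + 1) → Bool, G (fun r => xor (h r) (c r)) =
      ∑ h : ZMod (n + 1) → Bool, G h := by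
  have hinv : Function.Involutive
      (fun (h : ZMod (n + 1) → Bool) (r : ZMod (n + 1)) => xor (h r) (c r)) := by
    intro h
    funext r
    simp
  exact Equiv.sum_comp hinv.toPerm G

section

variable {s : ℕ → ℕ} {F : ℕ → (ℤ → Bool) → ℤ → Bool} {j J R : ℕ} {κ a0 : ℤ} {v : ℤ → Bool}

open Classical in
/-- flippable cells near `m` -/
noncomputable def nearF (s : ℕ → ℕ) (F : ℕ → (ℤ → Bool) → ℤ → Bool) (j J R : ℕ) (κ a0 : ℤ)
    (v : ℤ → Bool) (L : ℕ) (m : ℤ) (x : Om) : Finset ℤ :=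
  (Finset.Icc (m - L) (m + L)).filter (fun m' => Flp s F j J R κ v x (cen a0 R m'))

/-- the bits flipped -/
def SS (R : ℕ) (κ a0 : ℤ) (L : ℕ) (h : ZMod (2 * L + 1) → Bool) (A : Finset ℤ) :
    Finset (Bool × ℤ) :=
  (A.filter (fun m' : ℤ => h (m' : ZMod (2 * L + 1)) = true)).image (fun m' : ℤ => (false, cen a0 R m' + κ))

open Classical in
theorem mem_nearF {L : ℕ} {m m' : ℤ} {x : Om} : m' ∈ nearF s F j J R κ a0 v L m x ↔
    (m - L ≤ m' ∧ m' ≤ m + L) ∧ Flp s F j J R κ v x (cen a0 R m') := by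
  unfold nearF
  rw [Finset.mem_filter, Finset.mem_Icc]

theorem meas_nearF (hs : Growth s) (hjJ : j ≤ J) (hκ : |κ| ≤ R) (L : ℕ) (m : ℤ) (A : Finset ℤ) :
    MeasurableSet {x : Om | nearF s F j J R κ a0 v L m x = A} := by
  have h1 : {x : Om | nearF s F j J R κ a0 v L m x = A} =
      ⋂ m' : ℤ, {x : Om | m' ∈ nearF s F j J R κ a0 v L m x ↔ m' ∈ A} := by
    ext x
    rw [Set.mem_iInter]
    exact Finset.ext_iff
  rw [h1]
  refine MeasurableSet.iInter (fun m' => ?_)
  have h2 := meas_Flp (F := F) (v := v) hs hjJ hκ (cen a0 R m')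
  by_cases hm : m - L ≤ m' ∧ m' ≤ m + L
  · by_cases hA : m' ∈ A
    · have : {x : Om | m' ∈ nearF s F j J R κ a0 v L m x ↔ m' ∈ A} =
          {x | Flp s F j J R κ v x (cen a0 R m')} := by
        ext x
        simp only [Set.mem_ofPred_eq, mem_nearF]
        tauto
      rw [this]; exact h2
    · have : {x : Om | m' ∈ nearF s F j J R κ a0 v L m x ↔ m' ∈ A} =
          {x | Flp s F j J R κ v x (cen a0 R m')}ᶜ := by
        ext x
        simp only [Set.mem_ofPred_eq, mem_nearF, Set.mem_compl_iff]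
        tauto
      rw [this]; exact h2.compl
  · by_cases hA : m' ∈ A
    · have : {x : Om | m' ∈ nearF s F j J R κ a0 v L m x ↔ m' ∈ A} = ∅ := by
        ext x
        simp only [Set.mem_ofPred_eq, mem_nearF, Set.mem_empty_iff_false]
        tauto
      rw [this]; exact MeasurableSet.empty
    · have : {x : Om | m' ∈ nearF s F j J R κ a0 v L m x ↔ m' ∈ A} = Set.univ := by
        ext x
        simp only [Set.mem_ofPred_eq, mem_nearF, Set.mem_univ]
        tauto
      rw [this]; exact MeasurableSet.univ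

theorem nearF_inv (hκ : |κ| ≤ R) (L : ℕ) (m : ℤ) (h : ZMod (2 * L + 1) → Bool) (A : Finset ℤ)
    (x : Om) : nearF s F j J R κ a0 v L m (flS (SS R κ a0 L h A) x) = A ↔
      nearF s F j J R κ a0 v L m x = A := by
  have key : ∀ x, nearF s F j J R κ a0 v L m x = A →
      nearF s F j J R κ a0 v L m (flS (SS R κ a0 L h A) x) = A := by
    intro x hx
    have hB : ∀ m' ∈ A.filter (fun m' : ℤ => h (m' : ZMod (2 * L + 1)) = true),
        Flp s F j J R κ v x (cen a0 R m') := by
      intro m' hm'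
      have h1 := (Finset.mem_filter.mp hm').1
      rw [← hx, mem_nearF] at h1
      exact h1.2
    ext m'
    rw [mem_nearF]
    unfold SS
    rw [flip_Flp hκ hB m', ← mem_nearF, hx]
  constructor
  · intro h1
    have h2 := key _ h1
    rwa [flS_self] at h2
  · exact key x

theorem near_of_window {N : ℕ} {m m' k : ℤ} (hκ : |κ| ≤ R) (hk : |k - cen a0 R m| ≤ N)
    (h : k = cen a0 R m' + κ) :
    m - (N + R : ℕ) ≤ m' ∧ m' ≤ m + (N + R : ℕ) := by
  have h1 := cen_sub (a0 := a0) (m := m') (m' := m) (R := R)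
  rw [abs_le] at hκ hk
  have h2 : (m' - m) * (2 * R + 1) = k - κ - cen a0 R m := by linarith
  push_cast
  constructor
  · by_contra hlt
    have : (m' - m) * (2 * R + 1) ≤ (-(N + R + 1)) * (2 * R + 1) :=
      mul_le_mul_of_nonneg_right (by omega) (by omega)
    nlinarith
  · by_contra hlt
    have : ((N : ℤ) + R + 1) * (2 * R + 1) ≤ (m' - m) * (2 * R + 1) :=
      mul_le_mul_of_nonneg_right (by omega) (by omega)
    nlinarith

/-- the reference pattern -/
noncomputable def tstar (s : ℕ → ℕ) (F : ℕ → (ℤ → Bool) → ℤ → Bool) (J R : ℕ) (κ a0 : ℤ)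
    (v : ℤ → Bool) (L : ℕ) (m : ℤ) (x : Om) (r : ZMod (2 * L + 1)) : Bool :=
  ! (xor (v κ) (yy s F (Uf x) (Wf x) J (cen a0 R (rep L m r) + κ)))

theorem flip_eq_Y2 (hκ : |κ| ≤ R) {N : ℕ} {m k : ℤ} (hk : |k - cen a0 R m| ≤ N)
    (h : ZMod (2 * (N + R) + 1) → Bool) (x : Om) :
    yy s F (Uf (flS (SS R κ a0 (N + R) h (nearF s F j J R κ a0 v (N + R) m x)) x))
      (Wf (flS (SS R κ a0 (N + R) h (nearF s F j J R κ a0 v (N + R) m x)) x)) J k =
    Y2 s F j J a0 R κ v (2 * (N + R))
      (fun r => xor (h r) (tstar s F J R κ a0 v (N + R) m x r)) x k := by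
  set A := nearF s F j J R κ a0 v (N + R) m x with hA
  have hB : ∀ m' ∈ A.filter (fun m' : ℤ => h (m' : ZMod (2 * (N + R) + 1)) = true),
      Flp s F j J R κ v x (cen a0 R m') := by
    intro m' hm'
    have h1 := (Finset.mem_filter.mp hm').1
    rw [hA, mem_nearF] at h1
    exact h1.2
  unfold SS
  rw [flip_yy hB]
  by_cases hc : ∃ m', k = cen a0 R m' + κ ∧ Flp s F j J R κ v x (cen a0 R m')
  · obtain ⟨m', hkm, hF⟩ := hc
    have hnear := near_of_window hκ hk hkm
    rw [hkm, Y2_cell hκ hF]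
    have hmem : (false, cen a0 R m' + κ) ∈ (A.filter (fun m' : ℤ => h (m' : ZMod (2 * (N + R) + 1)) =
        true)).image (fun m' : ℤ => ((false, cen a0 R m' + κ) : Bool × ℤ)) ↔
        h (m' : ZMod (2 * (N + R) + 1)) = true := by
      rw [Finset.mem_image]
      constructor
      · rintro ⟨m'', h1, h2⟩
        simp only [Prod.mk.injEq, true_and] at h2
        have := (cen_inj hκ hκ h2).1
        rw [← this]
        exact (Finset.mem_filter.mp h1).2
      · intro h1
        exact ⟨m', Finset.mem_filter.mpr ⟨by rw [hA, mem_nearF]; exact ⟨hnear, hF⟩, h1⟩, rfl⟩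
    have hdec : decide ((false, cen a0 R m' + κ) ∈ (A.filter (fun m' : ℤ =>
        h (m' : ZMod (2 * (N + R) + 1)) =
        true)).image (fun m' : ℤ => ((false, cen a0 R m' + κ) : Bool × ℤ))) =
        h (m' : ZMod (2 * (N + R) + 1)) := by
      by_cases h1 : h (m' : ZMod (2 * (N + R) + 1)) = true
      · rw [h1]; exact decide_eq_true (hmem.mpr h1)
      · rw [Bool.not_eq_true] at h1
        rw [h1]
        exact decide_eq_false (fun h2 => by rw [hmem, h1] at h2; exact Bool.noConfusion h2)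
    rw [hdec]
    unfold tstar
    rw [rep_eq hnear.1 hnear.2]
    cases h (m' : ZMod (2 * (N + R) + 1)) <;> cases v κ <;>
      cases yy s F (Uf x) (Wf x) J (cen a0 R m' + κ) <;> rfl
  · push Not at hc
    rw [Y2_not (fun m' h1 => hc m' h1)]
    have : (false, k) ∉ (A.filter (fun m' : ℤ => h (m' : ZMod (2 * (N + R) + 1)) =
        true)).image (fun m' : ℤ => ((false, cen a0 R m' + κ) : Bool × ℤ)) := by
      rw [Finset.mem_image]
      rintro ⟨m', h1, h2⟩
      simp only [Prod.mk.injEq, true_and] at h2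
      exact hc m' h2.symm (hB m' h1)
    rw [decide_eq_false this, Bool.xor_false]

theorem real_eq_integral {A : Set Om} (hA : MeasurableSet A) :
    P.real A = ∫ x, A.indicator (fun _ => (1 : ℝ)) x ∂P := by
  rw [integral_indicator hA]
  simp

theorem integrable_ind {A : Set Om} (hA : MeasurableSet A) :
    Integrable (fun x => A.indicator (fun _ => (1 : ℝ)) x) P :=
  (integrable_const (1 : ℝ)).indicator hA

open Classical in
theorem sum_Y2 (hs : Growth s) (hjJ : j ≤ J) (hκ : |κ| ≤ R) {N : ℕ} {m : ℤ}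
    (Φ : (ℤ → Bool) → Prop)
    (hΦ : ∀ y y' : ℤ → Bool, (∀ k, |k - cen a0 R m| ≤ N → y k = y' k) → Φ y → Φ y')
    (hm1 : MeasurableSet {x : Om | Φ (yy s F (Uf x) (Wf x) J)})
    (hm2 : ∀ θ, MeasurableSet {x : Om | Φ (Y2 s F j J a0 R κ v (2 * (N + R)) θ x)}) :
    ∑ θ, P.real {x : Om | Φ (Y2 s F j J a0 R κ v (2 * (N + R)) θ x)} =
      2 ^ (2 * (N + R) + 1) * P.real {x : Om | Φ (yy s F (Uf x) (Wf x) J)} := by
  set T : (ZMod (2 * (N + R) + 1) → Bool) → Om → Om := fun h x =>
    flS (SS R κ a0 (N + R) h (nearF s F j J R κ a0 v (N + R) m x)) x with hT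
  have hmp : ∀ h : ZMod (2 * (N + R) + 1) → Bool,
      P.real {x | T h x ∈ {x : Om | Φ (yy s F (Uf x) (Wf x) J)}} =
        P.real {x : Om | Φ (yy s F (Uf x) (Wf x) J)} ∧
      MeasurableSet {x | T h x ∈ {x : Om | Φ (yy s F (Uf x) (Wf x) J)}} := by
    intro h
    refine mp_piece (Finset.Icc (m - (N + R : ℕ)) (m + (N + R : ℕ))).powerset
      (fun x => nearF s F j J R κ a0 v (N + R) m x) (fun x => ?_)
      (fun A => meas_nearF hs hjJ hκ _ _ A)
      (fun A => flS (SS R κ a0 (N + R) h A)) (fun A => mp_flS _)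
      (fun A x => nearF_inv hκ _ _ h A x) hm1
    rw [Finset.mem_powerset]
    exact Finset.filter_subset _ _
  have hpt : ∀ x, ∑ θ, ({x : Om | Φ (Y2 s F j J a0 R κ v (2 * (N + R)) θ x)}).indicator
        (fun _ => (1 : ℝ)) x =
      ∑ h, ({x | T h x ∈ {x : Om | Φ (yy s F (Uf x) (Wf x) J)}}).indicator
        (fun _ => (1 : ℝ)) x := by
    intro x
    rw [← xor_sum (fun r => tstar s F J R κ a0 v (N + R) m x r)
      (fun θ => ({x : Om | Φ (Y2 s F j J a0 R κ v (2 * (N + R)) θ x)}).indicator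
        (fun _ => (1 : ℝ)) x)]
    refine Finset.sum_congr rfl (fun h _ => ?_)
    have hiff : x ∈ {x1 : Om | Φ (Y2 s F j J a0 R κ v (2 * (N + R))
        (fun r => xor (h r) (tstar s F J R κ a0 v (N + R) m x r)) x1)} ↔
        x ∈ {x | T h x ∈ {x : Om | Φ (yy s F (Uf x) (Wf x) J)}} := by
      simp only [Set.mem_ofPred_eq]
      constructor
      · exact hΦ _ _ (fun k hk => (flip_eq_Y2 hκ hk h x).symm)
      · exact hΦ _ _ (fun k hk => flip_eq_Y2 hκ hk h x)
    by_cases hx : x ∈ {x | T h x ∈ {x : Om | Φ (yy s F (Uf x) (Wf x) J)}}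
    · rw [Set.indicator_of_mem hx]
      exact Set.indicator_of_mem (hiff.mpr hx) _
    · rw [Set.indicator_of_notMem hx]
      exact Set.indicator_of_notMem (fun h => hx (hiff.mp h)) _
  calc ∑ θ, P.real {x : Om | Φ (Y2 s F j J a0 R κ v (2 * (N + R)) θ x)}
      = ∑ θ, ∫ x, ({x : Om | Φ (Y2 s F j J a0 R κ v (2 * (N + R)) θ x)}).indicator
        (fun _ => (1 : ℝ)) x ∂P := by
          exact Finset.sum_congr rfl (fun θ _ => real_eq_integral (hm2 θ))
    _ = ∫ x, ∑ θ, ({x : Om | Φ (Y2 s F j J a0 R κ v (2 * (N + R)) θ x)}).indicator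
        (fun _ => (1 : ℝ)) x ∂P := by
          rw [integral_finsetSum]
          intro θ _
          exact integrable_ind (hm2 θ)
    _ = ∫ x, ∑ h, ({x | T h x ∈ {x : Om | Φ (yy s F (Uf x) (Wf x) J)}}).indicator
        (fun _ => (1 : ℝ)) x ∂P := by
          congr 1
          funext x
          exact hpt x
    _ = ∑ h, ∫ x, ({x | T h x ∈ {x : Om | Φ (yy s F (Uf x) (Wf x) J)}}).indicator
        (fun _ => (1 : ℝ)) x ∂P := by
          rw [integral_finsetSum]
          intro h _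
          exact integrable_ind (hmp h).2
    _ = ∑ h : (ZMod (2 * (N + R) + 1) → Bool),
          P.real {x : Om | Φ (yy s F (Uf x) (Wf x) J)} := by
          exact Finset.sum_congr rfl (fun h _ => by
            rw [← real_eq_integral (hmp h).2, (hmp h).1])
    _ = _ := by
          rw [Finset.sum_const, nsmul_eq_mul, Finset.card_univ, Fintype.card_fun, ZMod.card,
            Fintype.card_bool]
          push_cast
          ring

end

end Pool.Agent.NoIid
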