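import Mathlib
import Pool.Agent.NoIid.Expect

/-!
Correlation of the parameter with the decided cells.
-/

open MeasureTheory

namespace Pool.Agent.NoIid

section

variable {s : ℕ → ℕ} {F : ℕ → (ℤ → Bool) → ℤ → Bool} {j J R : ℕ} {κ a0 : ℤ} {v : ℤ → Bool}

/-- the cell `m` of `y` is decided -/
def PhD (ν : Measure (ℤ → Bool)) (g : (ℤ → Bool) → Prop) (N : ℕ) (a0 : ℤ) (R : ℕ) (m : ℤ)
    (y : ℤ → Bool) : Prop :=
  Dec ν g N (fun k => y (cen a0 R m + k))

theorem PhD_congr {ν : Measure (ℤ → Bool)} {g : (ℤ → Bool) → Prop} {N : ℕ} {m : ℤ}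
    (y y' : ℤ → Bool) (h : ∀ k, |k - cen a0 R m| ≤ N → y k = y' k)
    (hD : PhD ν g N a0 R m y) : PhD ν g N a0 R m y' :=
  Dec.congr (fun k hk => h _ (by rw [add_sub_cancel_left]; exact hk)) hD

theorem meas_PhD_yy (hs : Growth s) (ν : Measure (ℤ → Bool)) (g : (ℤ → Bool) → Prop) (N : ℕ)
    (m : ℤ) : MeasurableSet {x : Om | PhD ν g N a0 R m (yy s F (Uf x) (Wf x) J)} := by
  refine meas_of_dep (cen a0 R m - N - rad s J) (cen a0 R m + N + rad s J) ?_
  intro x y hxy hx
  refine PhD_congr _ _ (fun k hk => ?_) hx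
  rw [abs_le] at hk
  exact yy_congr hs J k (fun m h1 h2 => Wf_congr (hxy m (by omega) (by omega)))
    (fun m h1 h2 => Uf_congr (hxy m (by omega) (by omega)))

theorem meas_PhD_Y2 (hs : Growth s) (hjJ : j ≤ J) (hκ : |κ| ≤ R) (ν : Measure (ℤ → Bool))
    (g : (ℤ → Bool) → Prop) (N : ℕ) (m : ℤ) (M : ℕ) (θ : ZMod (M + 1) → Bool) :
    MeasurableSet {x : Om | PhD ν g N a0 R m (Y2 s F j J a0 R κ v M θ x)} := by
  refine meas_of_dep (cen a0 R m - N - 2 * R - rad s J) (cen a0 R m + N + 2 * R + rad s J) ?_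
  intro x y hxy hx
  refine PhD_congr _ _ (fun k hk => ?_) hx
  rw [abs_le] at hk
  exact Y2_congr hs hjJ hκ (fun m h1 h2 => hxy m (by omega) (by omega))

/-- on a flippable cell the outcome is the parameter -/
theorem PhD_Y2_true (hκ : |κ| ≤ R) {g : (ℤ → Bool) → Prop} {N : ℕ}
    (hRN : R ≤ N) (hv1 : Dec (nu s F) g R v) {m : ℤ} {M : ℕ} {θ : ZMod (M + 1) → Bool} {x : Om}
    (hF : Flp s F j J R κ v x (cen a0 R m)) (hθ : θ (m : ZMod (M + 1)) = true) :
    PhD (nu s F) g N a0 R m (Y2 s F j J a0 R κ v M θ x) := by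
  refine Dec.mono hRN (hv1.congr (fun q hq => ?_))
  by_cases hne : q = κ
  · rw [hne, Y2_cell hκ hF, if_pos hθ]
  · rw [Y2_other hκ hq hne, hF.2 q hq hne]

theorem PhD_Y2_false (hs : Growth s) (hκ : |κ| ≤ R) {g : (ℤ → Bool) → Prop} {N : ℕ}
    (hRN : R ≤ N) (hv0 : Dec (nu s F) (fun y => ¬ g y) R (Function.update v κ (!v κ)))
    {m : ℤ} {M : ℕ} {θ : ZMod (M + 1) → Bool} {x : Om}
    (hF : Flp s F j J R κ v x (cen a0 R m)) (hθ : ¬ θ (m : ZMod (M + 1)) = true) :
    ¬ PhD (nu s F) g N a0 R m (Y2 s F j J a0 R κ v M θ x) := by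
  intro h
  refine dec_excl hs h (Dec.mono hRN (hv0.congr (fun q hq => ?_)))
  by_cases hne : q = κ
  · rw [hne, Y2_cell hκ hF, if_neg hθ, Function.update_self]
  · rw [Y2_other hκ hq hne, hF.2 q hq hne, Function.update_of_ne hne]

/-- flip one entry of the parameter -/
def fl1 {n : ℕ} (r : ZMod (n + 1)) (θ : ZMod (n + 1) → Bool) : ZMod (n + 1) → Bool :=
  fun r' => xor (θ r') (decide (r' = r))

theorem fl1_sum {n : ℕ} (r : ZMod (n + 1)) (G : (ZMod (n + 1) → Bool) → ℝ) :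
    ∑ h : ZMod (n + 1) → Bool, G (fl1 r h) = ∑ h : ZMod (n + 1) → Bool, G h :=
  xor_sum (fun r' => decide (r' = r)) G

theorem fl1_self {n : ℕ} (r : ZMod (n + 1)) (θ : ZMod (n + 1) → Bool) :
    fl1 r θ r = ! θ r := by
  unfold fl1; simp

theorem fl1_ne {n : ℕ} {r r' : ZMod (n + 1)} (h : r' ≠ r) (θ : ZMod (n + 1) → Bool) :
    fl1 r θ r' = θ r' := by
  unfold fl1; simp [h]

theorem PhD_fl1 (hκ : |κ| ≤ R) {ν : Measure (ℤ → Bool)}
    {g : (ℤ → Bool) → Prop} {N : ℕ} {m : ℤ} (θ : ZMod (2 * (N + R) + 1) → Bool) {x : Om}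
    (hF : ¬ Flp s F j J R κ v x (cen a0 R m)) :
    PhD ν g N a0 R m (Y2 s F j J a0 R κ v (2 * (N + R)) (fl1 (m : ZMod _) θ) x) ↔
      PhD ν g N a0 R m (Y2 s F j J a0 R κ v (2 * (N + R)) θ x) := by
  have key : ∀ k, |k - cen a0 R m| ≤ N →
      Y2 s F j J a0 R κ v (2 * (N + R)) (fl1 (m : ZMod _) θ) x k =
      Y2 s F j J a0 R κ v (2 * (N + R)) θ x k := by
    intro k hk
    by_cases hc : ∃ m', k = cen a0 R m' + κ ∧ Flp s F j J R κ v x (cen a0 R m')
    · obtain ⟨m', hkm, hF'⟩ := hc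
      have hnear := near_of_window hκ hk hkm
      rw [hkm, Y2_cell hκ hF', Y2_cell hκ hF', fl1_ne]
      intro heq
      have := cast_inj_near hnear.1 hnear.2 (m'' := m) (by push_cast; omega) (by push_cast; omega)
        heq
      rw [this] at hF'
      exact hF hF'
    · push Not at hc
      rw [Y2_not (fun m' h1 => hc m' h1), Y2_not (fun m' h1 => hc m' h1)]
  exact ⟨PhD_congr _ _ key, PhD_congr _ _ (fun k hk => (key k hk).symm)⟩

theorem half_sum {n : ℕ} (r : ZMod (n + 1)) (G : (ZMod (n + 1) → Bool) → ℝ)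
    (hG : ∀ θ, G (fl1 r θ) = G θ) :
    2 * ∑ θ : ZMod (n + 1) → Bool, (if θ r = true then G θ else 0) =
      ∑ θ : ZMod (n + 1) → Bool, G θ := by
  have h1 := fl1_sum r (fun θ => if θ r = true then G θ else 0)
  simp only [fl1_self, hG] at h1
  have h2 : ∑ θ : ZMod (n + 1) → Bool, (if θ r = true then G θ else 0) +
      ∑ θ : ZMod (n + 1) → Bool, (if (! θ r) = true then G θ else 0) =
      ∑ θ : ZMod (n + 1) → Bool, G θ := by
    rw [← Finset.sum_add_distrib]
    refine Finset.sum_congr rfl (fun θ _ => ?_)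
    cases θ r <;> simp
  linarith

theorem expect_cell (hs : Growth s) (hjJ : j ≤ J) (hκ : |κ| ≤ R) {g : (ℤ → Bool) → Prop}
    {N : ℕ} (hRN : R ≤ N) (hv1 : Dec (nu s F) g R v)
    (hv0 : Dec (nu s F) (fun y => ¬ g y) R (Function.update v κ (!v κ))) (m : ℤ) :
    ∑ θ : ZMod (2 * (N + R) + 1) → Bool, (if θ (m : ZMod (2 * (N + R) + 1)) = true then
      P.real {x : Om | PhD (nu s F) g N a0 R m (Y2 s F j J a0 R κ v (2 * (N + R)) θ x)} else 0) =
    2 ^ (2 * (N + R)) * (P.real {x : Om | PhD (nu s F) g N a0 R m (yy s F (Uf x) (Wf x) J)} +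
      P.real {x : Om | Flp s F j J R κ v x (cen a0 R m)} / 2) := by
  set r : ZMod (2 * (N + R) + 1) := (m : ZMod (2 * (N + R) + 1)) with hr
  set S : Set Om := {x : Om | Flp s F j J R κ v x (cen a0 R m)} with hS
  have hSm : MeasurableSet S := meas_Flp hs hjJ hκ _
  set Z : (ZMod (2 * (N + R) + 1) → Bool) → Set Om := fun θ =>
    {x : Om | PhD (nu s F) g N a0 R m (Y2 s F j J a0 R κ v (2 * (N + R)) θ x)} with hZ
  have h1 := sum_Y2 (F := F) (v := v) (a0 := a0) hs hjJ hκ (N := N) (m := m)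
    (PhD (nu s F) g N a0 R m)
    (fun y y' h hD => PhD_congr y y' h hD) (meas_PhD_yy hs _ g N m)
    (fun θ => meas_PhD_Y2 hs hjJ hκ _ g N m _ θ)
  have hsplit : ∀ θ, P.real (Z θ) = P.real (Z θ ∩ S) + P.real (Z θ \ S) := fun θ =>
    (measureReal_inter_add_sdiff hSm).symm
  have hon : ∀ θ : ZMod (2 * (N + R) + 1) → Bool,
      P.real (Z θ ∩ S) = if θ r = true then P.real S else 0 := by
    intro θ
    by_cases hθ : θ r = true
    · rw [if_pos hθ]
      congr 1
      ext x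
      simp only [Set.mem_inter_iff, hZ, Set.mem_ofPred_eq, and_iff_right_iff_imp]
      intro hx
      exact PhD_Y2_true hκ hRN hv1 hx hθ
    · rw [if_neg hθ]
      have : Z θ ∩ S = ∅ := by
        ext x
        simp only [Set.mem_inter_iff, hZ, Set.mem_ofPred_eq, Set.mem_empty_iff_false, iff_false,
          not_and]
        intro h2 hx
        exact PhD_Y2_false hs hκ hRN hv0 hx hθ h2
      rw [this, measureReal_empty]
  have hoff : ∀ θ : ZMod (2 * (N + R) + 1) → Bool,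
      P.real (Z (fl1 r θ) \ S) = P.real (Z θ \ S) := by
    intro θ
    congr 1
    ext x
    simp only [Set.mem_sdiff, hZ, Set.mem_ofPred_eq]
    refine and_congr_left (fun hx => PhD_fl1 hκ θ hx)
  have hoffsum := half_sum r (fun θ => P.real (Z θ \ S)) hoff
  have honsum := half_sum r (fun _ : ZMod (2 * (N + R) + 1) → Bool => P.real S) (fun _ => rfl)
  have hcard : ∑ _θ : ZMod (2 * (N + R) + 1) → Bool, P.real S =
      2 ^ (2 * (N + R) + 1) * P.real S := by
    rw [Finset.sum_const, nsmul_eq_mul, Finset.card_univ, Fintype.card_fun, ZMod.card,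
      Fintype.card_bool]
    push_cast
    ring
  have hA : ∑ θ : ZMod (2 * (N + R) + 1) → Bool, (if θ r = true then P.real (Z θ) else 0) =
      ∑ θ : ZMod (2 * (N + R) + 1) → Bool, (if θ r = true then P.real S else 0) +
      ∑ θ : ZMod (2 * (N + R) + 1) → Bool, (if θ r = true then P.real (Z θ \ S) else 0) := by
    rw [← Finset.sum_add_distrib]
    refine Finset.sum_congr rfl (fun θ _ => ?_)
    by_cases hθ : θ r = true
    · rw [if_pos hθ, if_pos hθ, if_pos hθ, hsplit θ, hon θ, if_pos hθ]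
    · rw [if_neg hθ, if_neg hθ, if_neg hθ, add_zero]
  have hB : ∑ θ : ZMod (2 * (N + R) + 1) → Bool, P.real (Z θ) =
      ∑ θ : ZMod (2 * (N + R) + 1) → Bool, (if θ r = true then P.real S else 0) +
      ∑ θ : ZMod (2 * (N + R) + 1) → Bool, P.real (Z θ \ S) := by
    rw [← Finset.sum_add_distrib]
    refine Finset.sum_congr rfl (fun θ _ => ?_)
    rw [hsplit θ, hon θ]
  rw [hcard] at honsum
  have h2 : (2 : ℝ) ^ (2 * (N + R) + 1) = 2 * 2 ^ (2 * (N + R)) := by
    rw [pow_succ]; ring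
  rw [h2] at h1 honsum
  have h1' : ∑ θ : ZMod (2 * (N + R) + 1) → Bool, P.real (Z θ) =
      2 * 2 ^ (2 * (N + R)) *
        P.real {x : Om | PhD (nu s F) g N a0 R m (yy s F (Uf x) (Wf x) J)} := h1
  rw [hA]
  linarith

/-- shift invariance of the probability of a decided cell -/
theorem PhD_yy_shift (hs : Growth s) (ν : Measure (ℤ → Bool)) (g : (ℤ → Bool) → Prop) (N : ℕ)
    (m : ℤ) : P.real {x : Om | PhD ν g N a0 R m (yy s F (Uf x) (Wf x) J)} =
      P.real {x : Om | Dec ν g N (yy s F (Uf x) (Wf x) J)} := by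
  have hm : MeasurableSet {x : Om | Dec ν g N (yy s F (Uf x) (Wf x) J)} := by
    refine meas_of_dep (- N - rad s J) (N + rad s J) ?_
    intro x y hxy hx
    refine Dec.congr (fun k hk => ?_) hx
    rw [abs_le] at hk
    exact yy_congr hs J k (fun m h1 h2 => Wf_congr (hxy m (by omega) (by omega)))
      (fun m h1 h2 => Uf_congr (hxy m (by omega) (by omega)))
  have h1 := (mp_shift (cen a0 R m)).measure_preimage hm.nullMeasurableSet
  unfold Measure.real
  rw [← h1]
  congr 2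
  ext x
  simp only [Set.mem_ofPred_eq, Set.mem_preimage]
  unfold PhD
  have h2 : (fun k => yy s F (Uf x) (Wf x) J (cen a0 R m + k)) =
      yy s F (Uf fun k => x (k + cen a0 R m)) (Wf fun k => x (k + cen a0 R m)) J := by
    funext k
    have := yy_shift (s := s) (F := F) (U := Uf x) (W := Wf x) (c := cen a0 R m) J k
    rw [add_comm (cen a0 R m) k]
    exact this.symm
  rw [h2]

/-- lower bound for the probability of a flippable cell -/
theorem Flp_prob (hs : Growth s) (hκ : |κ| ≤ R) (hR : 4 * R ≤ s j) (c : ℤ) :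
    1 / 2 ^ (4 * R + 3 + (rad s j).toNat) ≤ P.real {x : Om | Flp s F j J R κ v x c} := by
  have h1 := (mp_shift c).measure_preimage (meas_PosEv hs R j J v).nullMeasurableSet
  have h2 := PosEv_prob hs hR J v
  refine le_trans h2 ?_
  unfold Measure.real
  rw [← h1]
  refine ENNReal.toReal_mono (measure_ne_top _ _) (measure_mono ?_)
  intro x hx
  rw [Set.mem_preimage] at hx
  have hV : ∀ q : ℤ, |q| ≤ R → Vst s (Wf x) j J (c + q) := by
    intro q hq
    have h3 := PosEv_Vst hs hx hq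
    unfold Vst at h3 ⊢
    rw [add_comm c q]
    have h4 : (Wf fun k => x (k + c)) = fun k => Wf x (k + c) := rfl
    rw [h4] at h3
    refine ⟨V.shift.mp h3.1, fun i hi hJ a e hA hI => ?_⟩
    refine h3.2 i hi hJ a (e - c) ?_ ?_
    · rw [AM.shift]; simpa using hA
    · rw [InJ.shift (c := c)]; simpa using hI
  refine ⟨hV κ hκ, fun q hq _ => ?_⟩
  rw [yy_of_Vst (hV q hq)]
  have h5 := hx.2.2 q (abs_le.mp hq).1 (abs_le.mp hq).2
  rw [← h5, add_comm c q]
  rfl

end

end Pool.Agent.NoIid
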