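import Mathlib
import Pool.Agent.NoIid.Expect2

/-!
The statistic, and the choice of the parameter.
-/

open MeasureTheory

namespace Pool.Agent.NoIid

section

variable {s : ℕ → ℕ} {F : ℕ → (ℤ → Bool) → ℤ → Bool} {j J R : ℕ} {κ a0 : ℤ} {v : ℤ → Bool}

theorem V_window (hs : Growth s) (i N : ℕ) :
    P.real {x : Om | ∃ k : ℤ, |k| ≤ N ∧ V s (Wf x) (i + 1) k} ≤
      (2 * N + 1) * Real.exp (-(s i : ℝ)) := by
  have h1 : {x : Om | ∃ k : ℤ, |k| ≤ N ∧ V s (Wf x) (i + 1) k} =
      ⋃ k ∈ Finset.Icc (-N : ℤ) N, {x : Om | V s (Wf x) (i + 1) k} := by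
    ext x
    simp only [Set.mem_ofPred_eq, Set.mem_iUnion, Finset.mem_Icc, exists_prop, abs_le]
  rw [h1]
  refine le_trans (measureReal_biUnion_finset_le _ _) ?_
  refine le_trans (Finset.sum_le_sum (fun k _ => V_decay s hs i k)) ?_
  rw [Finset.sum_const, Int.card_Icc, nsmul_eq_mul]
  apply le_of_eq
  congr 1
  have : ((N : ℤ) + 1 - -N).toNat = 2 * N + 1 := by omega
  rw [this]
  push_cast
  ring

theorem approx_dec (hs : Growth s) (g : (ℤ → Bool) → Prop) (N i : ℕ) :
    (nu s F).real {y | Dec (nu s F) g N y} ≤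
      P.real {x : Om | Dec (nu s F) g N (yy s F (Uf x) (Wf x) (i + 1))} +
        (2 * N + 1) * Real.exp (-(s i : ℝ)) := by
  have h1 : (nu s F).real {y | Dec (nu s F) g N y} =
      P.real {x : Om | Dec (nu s F) g N (Ymap s F x)} := by
    unfold Measure.real
    congr 1
    conv_lhs => rw [nu]
    rw [Measure.map_apply (measurable_Ymap hs) (meas_Dec _ _ _)]
    rfl
  rw [h1]
  have h2 : {x : Om | Dec (nu s F) g N (Ymap s F x)} ⊆
      {x : Om | Dec (nu s F) g N (yy s F (Uf x) (Wf x) (i + 1))} ∪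
      {x : Om | ∃ k : ℤ, |k| ≤ N ∧ V s (Wf x) (i + 1) k} := by
    intro x hx
    by_cases hc : ∃ k : ℤ, |k| ≤ N ∧ V s (Wf x) (i + 1) k
    · right; exact hc
    · left
      push Not at hc
      refine Dec.congr (fun k hk => ?_) hx
      exact YL_eq (hc k hk)
  refine le_trans (measureReal_mono h2 (measure_ne_top _ _)) ?_
  refine le_trans (measureReal_union_le _ _) ?_
  have := V_window hs i N
  linarith

/-- choice of the parameter -/
theorem exists_theta (hs : Growth s) {i : ℕ} (hji : j ≤ i + 1) (hκ : |κ| ≤ R)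
    {g : (ℤ → Bool) → Prop} {N : ℕ} (hRN : R ≤ N) (hv1 : Dec (nu s F) g R v)
    (hv0 : Dec (nu s F) (fun y => ¬ g y) R (Function.update v κ (!v κ)))
    (hR : 4 * R ≤ s j) {δ ϖ : ℝ} (hϖ : ϖ ≤ 1 / 2 ^ (4 * R + 3 + (rad s j).toNat))
    (hN : δ - (nu s F).real {y | Dec (nu s F) g N y} ≤ ϖ / 8)
    (hi : (2 * N + 1) * Real.exp (-(s i : ℝ)) ≤ ϖ / 8) (a0 : ℤ) (C : Finset ℤ) :
    ∃ θ : ZMod (2 * (N + R) + 1) → Bool,
      ϖ / 8 * C.card ≤ ∑ m ∈ C, (if θ (m : ZMod (2 * (N + R) + 1)) = true then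
        P.real {x : Om | PhD (nu s F) g N a0 R m
          (Y2 s F j (i + 1) a0 R κ v (2 * (N + R)) θ x)} - δ else 0) := by
  by_contra hno
  push Not at hno
  have hcell : ∀ m : ℤ, 2 ^ (2 * (N + R) + 1) * (ϖ / 8) ≤
      ∑ θ : ZMod (2 * (N + R) + 1) → Bool,
      (if θ (m : ZMod (2 * (N + R) + 1)) = true then
        P.real {x : Om | PhD (nu s F) g N a0 R m
          (Y2 s F j (i + 1) a0 R κ v (2 * (N + R)) θ x)} - δ else 0) := by
    intro m
    have h1 := expect_cell (F := F) (a0 := a0) hs hji hκ hRN hv1 hv0 m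
    rw [PhD_yy_shift hs] at h1
    have h2 := approx_dec (F := F) hs g N i
    have h3 := Flp_prob (F := F) (J := i + 1) (v := v) hs hκ hR (cen a0 R m)
    have h4 := half_sum (m : ZMod (2 * (N + R) + 1))
      (fun _ : ZMod (2 * (N + R) + 1) → Bool => δ) (fun _ => rfl)
    rw [Finset.sum_const, nsmul_eq_mul, Finset.card_univ, Fintype.card_fun, ZMod.card,
      Fintype.card_bool] at h4
    have h5 : ∑ θ : ZMod (2 * (N + R) + 1) → Bool,
      (if θ (m : ZMod (2 * (N + R) + 1)) = true then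
        P.real {x : Om | PhD (nu s F) g N a0 R m
          (Y2 s F j (i + 1) a0 R κ v (2 * (N + R)) θ x)} - δ else 0) =
      ∑ θ : ZMod (2 * (N + R) + 1) → Bool,
      (if θ (m : ZMod (2 * (N + R) + 1)) = true then
        P.real {x : Om | PhD (nu s F) g N a0 R m
          (Y2 s F j (i + 1) a0 R κ v (2 * (N + R)) θ x)} else 0) -
      ∑ θ : ZMod (2 * (N + R) + 1) → Bool,
      (if θ (m : ZMod (2 * (N + R) + 1)) = true then δ else 0) := by
      rw [← Finset.sum_sub_distrib]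
      refine Finset.sum_congr rfl (fun θ _ => ?_)
      by_cases hθ : θ (m : ZMod (2 * (N + R) + 1)) = true
      · rw [if_pos hθ, if_pos hθ, if_pos hθ]
      · rw [if_neg hθ, if_neg hθ, if_neg hθ, sub_zero]
    rw [h5, h1]
    push_cast at h4
    have h6 : (2 : ℝ) ^ (2 * (N + R) + 1) = 2 * 2 ^ (2 * (N + R)) := by
      rw [pow_succ]; ring
    rw [h6] at h4 ⊢
    have h7 : (0 : ℝ) < 2 ^ (2 * (N + R)) := by positivity
    have h8 : ∑ θ : ZMod (2 * (N + R) + 1) → Bool,
      (if θ (m : ZMod (2 * (N + R) + 1)) = true then δ else 0) = 2 ^ (2 * (N + R)) * δ := by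
      linarith
    rw [h8]
    have h9 : 2 ^ (2 * (N + R)) * (2 * (ϖ / 8)) ≤ 2 ^ (2 * (N + R)) *
        ((P.real {x : Om | Dec (nu s F) g N (yy s F (Uf x) (Wf x) (i + 1))} +
        P.real {x : Om | Flp s F j (i + 1) R κ v x (cen a0 R m)} / 2) - δ) := by
      apply mul_le_mul_of_nonneg_left _ h7.le
      linarith
    linarith
  have hlow : ∑ m ∈ C, (2 : ℝ) ^ (2 * (N + R) + 1) * (ϖ / 8) ≤
      ∑ m ∈ C, ∑ θ : ZMod (2 * (N + R) + 1) → Bool,
      (if θ (m : ZMod (2 * (N + R) + 1)) = true then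
        P.real {x : Om | PhD (nu s F) g N a0 R m
          (Y2 s F j (i + 1) a0 R κ v (2 * (N + R)) θ x)} - δ else 0) :=
    Finset.sum_le_sum (fun m _ => hcell m)
  rw [Finset.sum_comm, Finset.sum_const, nsmul_eq_mul] at hlow
  have hhigh : ∑ θ : ZMod (2 * (N + R) + 1) → Bool, ∑ m ∈ C,
      (if θ (m : ZMod (2 * (N + R) + 1)) = true then
        P.real {x : Om | PhD (nu s F) g N a0 R m
          (Y2 s F j (i + 1) a0 R κ v (2 * (N + R)) θ x)} - δ else 0) <
      ∑ _θ : ZMod (2 * (N + R) + 1) → Bool, ϖ / 8 * C.card := by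
    apply Finset.sum_lt_sum_of_nonempty Finset.univ_nonempty
    intro θ _
    exact hno θ
  rw [Finset.sum_const, nsmul_eq_mul, Finset.card_univ, Fintype.card_fun, ZMod.card,
      Fintype.card_bool] at hhigh
  push_cast at hhigh
  have h6 : (C.card : ℝ) * (2 ^ (2 * (N + R) + 1) * (ϖ / 8)) =
    2 ^ (2 * (N + R) + 1) * (ϖ / 8 * C.card) := by ring
  rw [h6] at hlow
  exact absurd hlow (not_le.mpr hhigh)

open Classical in
/-- the statistic -/
noncomputable def stat (ν : Measure (ℤ → Bool)) (g : (ℤ → Bool) → Prop) (N : ℕ) (a0 : ℤ) (R : ℕ)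
    (δ : ℝ) (M : ℕ) (θ : ZMod (M + 1) → Bool) (C : Finset ℤ) (y : ℤ → Bool) : ℝ :=
  ∑ m ∈ C, (if θ (m : ZMod (M + 1)) = true then
    (if PhD ν g N a0 R m y then 1 else 0) - δ else 0)

theorem stat_congr {ν : Measure (ℤ → Bool)} {g : (ℤ → Bool) → Prop} {N : ℕ}
    {δ : ℝ} {M : ℕ} {θ : ZMod (M + 1) → Bool} {C : Finset ℤ} {y y' : ℤ → Bool}
    (h : ∀ m ∈ C, ∀ k, |k - cen a0 R m| ≤ N → y k = y' k) :
    stat ν g N a0 R δ M θ C y = stat ν g N a0 R δ M θ C y' := by
  classical
  unfold stat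
  refine Finset.sum_congr rfl (fun m hm => ?_)
  have : PhD ν g N a0 R m y ↔ PhD ν g N a0 R m y' :=
    ⟨PhD_congr _ _ (h m hm), PhD_congr _ _ (fun k hk => (h m hm k hk).symm)⟩
  by_cases hc : PhD ν g N a0 R m y
  · rw [if_pos hc, if_pos (this.mp hc)]
  · rw [if_neg hc, if_neg (fun h => hc (this.mpr h))]

theorem stat_le {ν : Measure (ℤ → Bool)} {g : (ℤ → Bool) → Prop} {N : ℕ}
    {δ : ℝ} (hδ : 0 ≤ δ) {M : ℕ} {θ : ZMod (M + 1) → Bool} {C : Finset ℤ} {y : ℤ → Bool} :
    stat ν g N a0 R δ M θ C y ≤ C.card := by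
  classical
  unfold stat
  have : ∀ m ∈ C, (if θ (m : ZMod (M + 1)) = true then
    (if PhD ν g N a0 R m y then (1 : ℝ) else 0) - δ else 0) ≤ 1 := by
    intro m _
    split_ifs <;> linarith
  refine le_trans (Finset.sum_le_sum this) ?_
  simp

open Classical in
theorem stat_eq_ind {ν : Measure (ℤ → Bool)} {g : (ℤ → Bool) → Prop} {N : ℕ}
    {δ : ℝ} {M : ℕ} {θ : ZMod (M + 1) → Bool} {C : Finset ℤ} (Y : Om → ℤ → Bool) (x : Om) :
    stat ν g N a0 R δ M θ C (Y x) = ∑ m ∈ C, (if θ (m : ZMod (M + 1)) = true then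
      ({x : Om | PhD ν g N a0 R m (Y x)}).indicator (fun _ => (1 : ℝ)) x - δ else 0) := by
  unfold stat
  refine Finset.sum_congr rfl (fun m _ => ?_)
  by_cases hx : PhD ν g N a0 R m (Y x)
  · rw [if_pos hx, Set.indicator_of_mem (by exact hx)]
  · rw [if_neg hx, Set.indicator_of_notMem (by exact hx)]

/-- the event of a large statistic is likely -/
theorem stat_prob (hs : Growth s) {i : ℕ} (hji : j ≤ i + 1) (hκ : |κ| ≤ R)
    {g : (ℤ → Bool) → Prop} {N : ℕ} {δ β : ℝ} (hδ : 0 ≤ δ) (hβ : 0 ≤ β) (a0 : ℤ) (C : Finset ℤ)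
    (hC : 0 < C.card) (θ : ZMod (2 * (N + R) + 1) → Bool)
    (hθ : β * C.card ≤ ∑ m ∈ C, (if θ (m : ZMod (2 * (N + R) + 1)) = true then
        P.real {x : Om | PhD (nu s F) g N a0 R m
          (Y2 s F j (i + 1) a0 R κ v (2 * (N + R)) θ x)} - δ else 0)) :
    MeasurableSet {x : Om | β * C.card / 2 ≤ stat (nu s F) g N a0 R δ (2 * (N + R)) θ C
      (Y2 s F j (i + 1) a0 R κ v (2 * (N + R)) θ x)} ∧
    β / 2 ≤ P.real {x : Om | β * C.card / 2 ≤ stat (nu s F) g N a0 R δ (2 * (N + R)) θ C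
      (Y2 s F j (i + 1) a0 R κ v (2 * (N + R)) θ x)} := by
  classical
  set Y : Om → ℤ → Bool := fun x => Y2 s F j (i + 1) a0 R κ v (2 * (N + R)) θ x with hY
  have hmZ : ∀ m, MeasurableSet {x : Om | PhD (nu s F) g N a0 R m (Y x)} := fun m =>
    meas_PhD_Y2 hs hji hκ _ g N m _ θ
  set f : Om → ℝ := fun x => stat (nu s F) g N a0 R δ (2 * (N + R)) θ C (Y x) with hf
  have hf2 : f = fun x => ∑ m ∈ C, (if θ (m : ZMod (2 * (N + R) + 1)) = true then
      ({x : Om | PhD (nu s F) g N a0 R m (Y x)}).indicator (fun _ => (1 : ℝ)) x - δ else 0) := by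
    funext x
    exact stat_eq_ind Y x
  have hint1 : ∀ m ∈ C, Integrable (fun x => if θ (m : ZMod (2 * (N + R) + 1)) = true then
      ({x : Om | PhD (nu s F) g N a0 R m (Y x)}).indicator (fun _ => (1 : ℝ)) x - δ else 0) P := by
    intro m _
    by_cases hc : θ (m : ZMod (2 * (N + R) + 1)) = true
    · simp only [if_pos hc]
      exact (integrable_ind (hmZ m)).sub (integrable_const δ)
    · simp only [if_neg hc]
      exact integrable_zero _ _ _
  have hfint : Integrable f P := by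
    rw [hf2]
    exact integrable_finsetSum _ hint1
  have hfmeas : Measurable f := by
    rw [hf2]
    refine Finset.measurable_sum _ (fun m _ => ?_)
    by_cases hc : θ (m : ZMod (2 * (N + R) + 1)) = true
    · simp only [if_pos hc]
      exact (measurable_const.indicator (hmZ m)).sub_const δ
    · simp only [if_neg hc]
      exact measurable_const
  have hmE : MeasurableSet {x : Om | β * C.card / 2 ≤ f x} := measurableSet_le measurable_const hfmeas
  refine ⟨hmE, ?_⟩
  have hintf : ∫ x, f x ∂P = ∑ m ∈ C, (if θ (m : ZMod (2 * (N + R) + 1)) = true then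
        P.real {x : Om | PhD (nu s F) g N a0 R m (Y x)} - δ else 0) := by
    rw [hf2, integral_finsetSum _ hint1]
    refine Finset.sum_congr rfl (fun m _ => ?_)
    by_cases hc : θ (m : ZMod (2 * (N + R) + 1)) = true
    · simp only [if_pos hc]
      rw [integral_sub (integrable_ind (hmZ m)) (integrable_const δ), ← real_eq_integral (hmZ m)]
      simp
    · simp only [if_neg hc]
      simp
  have hbound : ∀ x, f x ≤ C.card * ({x : Om | β * C.card / 2 ≤ f x}).indicator
      (fun _ => (1 : ℝ)) x + β * C.card / 2 := by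
    intro x
    have h0 : 0 ≤ β * C.card / 2 := by positivity
    by_cases hx : β * C.card / 2 ≤ f x
    · rw [Set.indicator_of_mem (by exact hx)]
      have : f x ≤ C.card := stat_le hδ
      linarith
    · rw [Set.indicator_of_notMem (by exact hx)]
      push Not at hx
      linarith
  have h1 : ∫ x, f x ∂P ≤ ∫ x, (C.card * ({x : Om | β * C.card / 2 ≤ f x}).indicator
      (fun _ => (1 : ℝ)) x + β * C.card / 2) ∂P := by
    apply integral_mono hfint _ hbound
    exact ((integrable_ind hmE).const_mul _).add (integrable_const _)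
  rw [integral_add ((integrable_ind hmE).const_mul _) (integrable_const _),
    integral_const_mul, ← real_eq_integral hmE, hintf] at h1
  simp only [integral_const, probReal_univ, smul_eq_mul, one_mul] at h1
  have h2 := le_trans hθ h1
  have h3 : (0 : ℝ) < C.card := by exact_mod_cast hC
  by_contra hlt
  push Not at hlt
  have h4 : (C.card : ℝ) * P.real {x : Om | β * C.card / 2 ≤ f x} < C.card * (β / 2) :=
    mul_lt_mul_of_pos_left hlt h3
  linarith

end

end Pool.Agent.NoIid
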