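import Mathlib
import Pool.Agent.NoIid.Stat

/-!
The comparison map on the sample space.
-/

open MeasureTheory

namespace Pool.Agent.NoIid

section

variable {s : ℕ → ℕ} {F : ℕ → (ℤ → Bool) → ℤ → Bool} {j J R : ℕ} {κ : ℤ} {v : ℤ → Bool}

/-- the action with a cell rule is the flipped approximation -/
theorem Yfin_eq_Y2 (hs : Growth s) (hκ : |κ| ≤ R) {a M : ℕ} {θ : ZMod (M + 1) → Bool}
    (hFa : F a = rule R κ v M θ) {k : ℤ} (hk1 : 2 * R ≤ k - (s J + 1))
    (hk2 : k - (s J + 1) < 4 ^ s J - 2 * R) (x : Om) :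
    Yfin s F j J a (Uf x) (Wf x) k = Y2 s F j J (s J + 1) R κ v M θ x k := by
  have h0 := hs.ge10 J
  rw [abs_le] at hκ
  have e0 : k - (0 + (s J : ℤ) + 1) = k - (s J + 1) := by ring
  have hcont : ∀ p : ℤ, 0 ≤ p → p < 4 ^ s J →
      cont s J (yy s F (Uf x) (Wf x) J) 0 p = yy s F (Uf x) (Wf x) J (s J + 1 + p) := by
    intro p h1 h2
    unfold cont
    rw [if_pos ⟨h1, h2⟩]
    congr 1
    ring
  unfold Yfin Y2
  rw [hFa, e0]
  by_cases hV : Vst s (Wf x) j J k
  · rw [if_pos hV]
    unfold rule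
    have hiff : (∀ q : ℤ, |q| ≤ R → q ≠ κ → cont s J (yy s F (Uf x) (Wf x) J) 0
        (k - (s J + 1) - κ + q) = v q) ↔ Flp s F j J R κ v x (k - κ) := by
      unfold Flp
      rw [sub_add_cancel]
      have h3 : ∀ q : ℤ, |q| ≤ R → cont s J (yy s F (Uf x) (Wf x) J) 0
          (k - (s J + 1) - κ + q) = yy s F (Uf x) (Wf x) J (k - κ + q) := by
        intro q hq
        rw [abs_le] at hq
        rw [hcont _ (by omega) (by omega)]
        congr 1
        ring
      constructor
      · intro h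
        exact ⟨hV, fun q hq hne => by rw [← h3 q hq]; exact h q hq hne⟩
      · rintro ⟨_, h⟩ q hq hne
        rw [h3 q hq]; exact h q hq hne
    have helse : cont s J (yy s F (Uf x) (Wf x) J) 0 (k - (s J + 1)) =
        yy s F (Uf x) (Wf x) J k := by
      rw [hcont _ (by omega) (by omega)]
      congr 1
      ring
    rw [helse]
    by_cases hc : (k - (s J + 1)) % (2 * (R : ℤ) + 1) = R + κ ∧ Flp s F j J R κ v x (k - κ)
    · have hc' : (k - (s J + 1)) % (2 * (R : ℤ) + 1) = R + κ ∧ (∀ q : ℤ, |q| ≤ R → q ≠ κ →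
          cont s J (yy s F (Uf x) (Wf x) J) 0 (k - (s J + 1) - κ + q) = v q) :=
        ⟨hc.1, hiff.mpr hc.2⟩
      rw [if_pos hc, if_pos hc']
    · have hc' : ¬ ((k - (s J + 1)) % (2 * (R : ℤ) + 1) = R + κ ∧ (∀ q : ℤ, |q| ≤ R → q ≠ κ →
          cont s J (yy s F (Uf x) (Wf x) J) 0 (k - (s J + 1) - κ + q) = v q)) :=
        fun h => hc ⟨h.1, hiff.mp h.2⟩
      rw [if_neg hc, if_neg hc']
  · rw [if_neg hV]
    have hc : ¬ ((k - (s J + 1)) % (2 * (R : ℤ) + 1) = R + κ ∧ Flp s F j J R κ v x (k - κ)) := by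
      rintro ⟨_, h⟩
      apply hV
      have := h.1
      rwa [sub_add_cancel] at this
    rw [if_neg hc]

/-- the comparison map -/
noncomputable def TT (s : ℕ → ℕ) (F : ℕ → (ℤ → Bool) → ℤ → Bool) (j J r : ℕ) (x : Om) : Om :=
  fun k => (Uh s F j J (Uf x) (Wf x) k, Wh s j J r (Wf x) k)

open Classical in
/-- modified sites of the second field -/
noncomputable def modS (s : ℕ → ℕ) (j J r : ℕ) (x : Om) : Finset ℤ :=
  (Finset.Icc (-(3 * 4 ^ s J)) (3 * 4 ^ s J)).filter (fun m => Wh s j J r (Wf x) m ≠ Wf x m)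

open Classical in
/-- sites covered by action intervals -/
noncomputable def actS (s : ℕ → ℕ) (j J : ℕ) (x : Om) : Finset ℤ :=
  (Finset.Icc (s J + 1 : ℤ) (s J + 4 ^ s J)).filter (fun k => ActS s j J (Wf x) k)

open Classical in
/-- modified sites of the first field -/
noncomputable def difU (s : ℕ → ℕ) (F : ℕ → (ℤ → Bool) → ℤ → Bool) (j J : ℕ) (x : Om) :
    Finset ℤ :=
  (Finset.Icc (s J + 1 : ℤ) (s J + 4 ^ s J)).filter (fun k => Uh s F j J (Uf x) (Wf x) k ≠ Uf x k)

theorem Uf_TT {r : ℕ} (x : Om) : Uf (TT s F j J r x) = Uh s F j J (Uf x) (Wf x) := rfl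

theorem Wf_TT {r : ℕ} (x : Om) : Wf (TT s F j J r x) = Wh s j J r (Wf x) := rfl

theorem difU_sub (x : Om) : difU s F j J x ⊆ actS s j J x := by
  classical
  intro k hk
  unfold difU at hk
  unfold actS
  rw [Finset.mem_filter] at hk ⊢
  refine ⟨hk.1, ?_⟩
  obtain ⟨_, _, h⟩ := Uh_ne hk.2
  exact h

/-- embedding of sites in bits -/
noncomputable def imb (b : Bool) (S : Finset ℤ) : Finset (Bool × ℤ) := S.image (fun m => (b, m))

theorem mem_imb {b b' : Bool} {S : Finset ℤ} {m : ℤ} :
    (b', m) ∈ imb b S ↔ b' = b ∧ m ∈ S := by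
  unfold imb
  rw [Finset.mem_image]
  constructor
  · rintro ⟨a, ha, h⟩
    simp only [Prod.mk.injEq] at h
    exact ⟨h.1.symm, by rw [← h.2]; exact ha⟩
  · rintro ⟨h1, h2⟩
    exact ⟨m, h2, by rw [h1]⟩

theorem Wf_flS_imb (S : Finset ℤ) (x : Om) (m : ℤ) :
    Wf (flS (imb true S) x) m = xor (Wf x m) (decide (m ∈ S)) := by
  rw [← bt_true, ← bt_true, bt_flS]
  congr 1
  exact decide_eq_decide.mpr (by rw [mem_imb]; simp)

theorem mem_modS {r : ℕ} {x : Om} {m : ℤ} :
    m ∈ modS s j J r x ↔ Wh s j J r (Wf x) m ≠ Wf x m := by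
  classical
  unfold modS
  rw [Finset.mem_filter, Finset.mem_Icc]
  constructor
  · exact fun h => h.2
  · intro h
    refine ⟨?_, h⟩
    have : win s J r m := by
      by_contra hw
      exact h (Wh_not_win hw)
    exact ⟨this.1, this.2.1⟩

theorem mem_difU {x : Om} {k : ℤ} :
    k ∈ difU s F j J x ↔ Uh s F j J (Uf x) (Wf x) k ≠ Uf x k := by
  classical
  unfold difU
  rw [Finset.mem_filter, Finset.mem_Icc]
  constructor
  · exact fun h => h.2
  · intro h
    refine ⟨?_, h⟩
    obtain ⟨h1, _⟩ := Uh_ne h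
    have h2 := h1.1
    have h3 := h1.2
    omega

theorem Wf_recover {r : ℕ} (x : Om) :
    Wf (flS (imb true (modS s j J r x)) (TT s F j J r x)) = Wf x := by
  funext m
  rw [Wf_flS_imb, Wf_TT]
  by_cases h : m ∈ modS s j J r x
  · rw [decide_eq_true h]
    rw [mem_modS] at h
    revert h
    cases Wh s j J r (Wf x) m <;> cases Wf x m <;> simp
  · rw [decide_eq_false h, Bool.xor_false]
    rw [mem_modS, not_not] at h
    exact h

theorem recover {r : ℕ} (x : Om) :
    x = flS (imb true (modS s j J r x) ∪ imb false (difU s F j J x)) (TT s F j J r x) := by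
  apply Om_ext
  rintro ⟨b, m⟩
  rw [bt_flS]
  cases b
  · rw [bt_false, bt_false, Uf_TT]
    have h1 : (false, m) ∈ imb true (modS s j J r x) ∪ imb false (difU s F j J x) ↔
        m ∈ difU s F j J x := by
      rw [Finset.mem_union, mem_imb, mem_imb]; simp
    by_cases h : m ∈ difU s F j J x
    · rw [decide_eq_true (h1.mpr h)]
      rw [mem_difU] at h
      revert h
      cases Uh s F j J (Uf x) (Wf x) m <;> cases Uf x m <;> simp
    · rw [decide_eq_false (fun h2 => h (h1.mp h2)), Bool.xor_false]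
      rw [mem_difU, not_not] at h
      exact h.symm
  · rw [bt_true, bt_true, Wf_TT]
    have h1 : (true, m) ∈ imb true (modS s j J r x) ∪ imb false (difU s F j J x) ↔
        m ∈ modS s j J r x := by
      rw [Finset.mem_union, mem_imb, mem_imb]; simp
    by_cases h : m ∈ modS s j J r x
    · rw [decide_eq_true (h1.mpr h)]
      rw [mem_modS] at h
      revert h
      cases Wh s j J r (Wf x) m <;> cases Wf x m <;> simp
    · rw [decide_eq_false (fun h2 => h (h1.mp h2)), Bool.xor_false]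
      rw [mem_modS, not_not] at h
      exact h.symm

/-- small subsets of the window -/
noncomputable def smallS (n D : ℕ) : Finset (Finset ℤ) :=
  (Finset.Icc (-(n : ℤ)) n).powerset.filter (fun S => S.card ≤ D)

open Classical in
/-- the multiplicity set -/
noncomputable def BB (s : ℕ → ℕ) (j J D D' : ℕ) (y : Om) : Finset (Finset (Bool × ℤ)) :=
  (smallS (3 * 4 ^ s J) D).biUnion (fun S1 =>
    if (actS s j J (flS (imb true S1) y)).card ≤ D' then
      (actS s j J (flS (imb true S1) y)).powerset.image (fun S2 => imb true S1 ∪ imb false S2)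
    else ∅)

theorem BB_card (s : ℕ → ℕ) (j J D D' : ℕ) (y : Om) :
    (BB s j J D D' y).card ≤ (smallS (3 * 4 ^ s J) D).card * 2 ^ D' := by
  classical
  unfold BB
  refine Finset.card_biUnion_le_card_mul _ _ _ (fun S1 _ => ?_)
  split_ifs with h
  · refine le_trans Finset.card_image_le ?_
    rw [Finset.card_powerset]
    exact Nat.pow_le_pow_right (by norm_num) h
  · simp

/-- the bits involved -/
noncomputable def QQ (s : ℕ → ℕ) (J : ℕ) : Finset (Bool × ℤ) :=
  imb true (Finset.Icc (-((3 * 4 ^ s J : ℕ) : ℤ)) ((3 * 4 ^ s J : ℕ) : ℤ)) ∪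
    imb false (Finset.Icc (s J + 1 : ℤ) (s J + 4 ^ s J))

theorem BB_sub (s : ℕ → ℕ) (j J D D' : ℕ) (y : Om) :
    ∀ S ∈ BB s j J D D' y, S ⊆ QQ s J := by
  classical
  intro S hS
  unfold BB at hS
  rw [Finset.mem_biUnion] at hS
  obtain ⟨S1, h1, h2⟩ := hS
  split_ifs at h2 with h3
  · rw [Finset.mem_image] at h2
    obtain ⟨S2, h4, h5⟩ := h2
    rw [Finset.mem_powerset] at h4
    have h1' : S1 ⊆ Finset.Icc (-((3 * 4 ^ s J : ℕ) : ℤ)) ((3 * 4 ^ s J : ℕ) : ℤ) := by
      unfold smallS at h1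
      rw [Finset.mem_filter, Finset.mem_powerset] at h1
      exact h1.1
    rw [← h5]
    unfold QQ imb
    apply Finset.union_subset_union
    · exact Finset.image_subset_image h1'
    · apply Finset.image_subset_image
      exact h4.trans (Finset.filter_subset _ _)
  · simp at h2

theorem BB_mem {r D D' : ℕ} {x : Om} (h1 : (modS s j J r x).card ≤ D)
    (h2 : (actS s j J x).card ≤ D') :
    ∃ S ∈ BB s j J D D' (TT s F j J r x), x = flS S (TT s F j J r x) := by
  classical
  refine ⟨_, ?_, recover x⟩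
  unfold BB
  rw [Finset.mem_biUnion]
  refine ⟨modS s j J r x, ?_, ?_⟩
  · unfold smallS
    rw [Finset.mem_filter, Finset.mem_powerset]
    refine ⟨?_, h1⟩
    unfold modS
    refine (Finset.filter_subset _ _).trans ?_
    push_cast
    exact Finset.Subset.refl _
  · have h3 : actS s j J (flS (imb true (modS s j J r x)) (TT s F j J r x)) = actS s j J x := by
      unfold actS
      rw [Wf_recover]
    rw [h3, if_pos h2, Finset.mem_image]
    exact ⟨difU s F j J x, Finset.mem_powerset.mpr (difU_sub x), rfl⟩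

/-- number of small subsets -/
theorem smallS_card (n D : ℕ) (lam : ℝ) (hl : 0 ≤ lam) :
    ((smallS n D).card : ℝ) ≤ Real.exp ((2 * n + 1) * Real.exp (-lam) + lam * D) := by
  have h1 : ((smallS n D).card : ℝ) * Real.exp (-lam * D) ≤
      ∑ S ∈ (Finset.Icc (-(n : ℤ)) n).powerset, Real.exp (-lam) ^ S.card := by
    rw [← nsmul_eq_mul, ← Finset.sum_const]
    refine le_trans ?_ (Finset.sum_le_sum_of_subset_of_nonneg
      (Finset.filter_subset (fun S => S.card ≤ D) (Finset.Icc (-(n : ℤ)) n).powerset)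
      (fun _ _ _ => by positivity))
    unfold smallS
    refine Finset.sum_le_sum (fun S hS => ?_)
    rw [Finset.mem_filter] at hS
    rw [← Real.exp_nat_mul]
    apply Real.exp_le_exp.mpr
    have : (S.card : ℝ) ≤ D := by exact_mod_cast hS.2
    nlinarith
  have h2 : ∑ S ∈ (Finset.Icc (-(n : ℤ)) n).powerset, Real.exp (-lam) ^ S.card =
      (Real.exp (-lam) + 1) ^ (2 * n + 1) := by
    have h3 := Finset.sum_pow_mul_eq_add_pow (Real.exp (-lam)) 1 (Finset.Icc (-(n : ℤ)) n)
    simp only [one_pow, mul_one] at h3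
    rw [h3, Int.card_Icc]
    congr 1
    omega
  rw [h2] at h1
  have h3 : (Real.exp (-lam) + 1) ^ (2 * n + 1) ≤ Real.exp ((2 * n + 1) * Real.exp (-lam)) := by
    have h4 := Real.add_one_le_exp (Real.exp (-lam))
    refine le_trans (pow_le_pow_left₀ (by positivity) h4 _) ?_
    rw [← Real.exp_nat_mul]
    push_cast
    exact le_refl _
  have h4 := le_trans h1 h3
  rw [Real.exp_add]
  have h5 : Real.exp (-lam * D) * Real.exp (lam * D) = 1 := by
    rw [← Real.exp_add]; simp
  calc ((smallS n D).card : ℝ) = ((smallS n D).card : ℝ) *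
        (Real.exp (-lam * D) * Real.exp (lam * D)) := by rw [h5, mul_one]
    _ = ((smallS n D).card : ℝ) * Real.exp (-lam * D) * Real.exp (lam * D) := by ring
    _ ≤ Real.exp ((2 * n + 1) * Real.exp (-lam)) * Real.exp (lam * D) :=
        mul_le_mul_of_nonneg_right h4 (Real.exp_pos _).le

end

end Pool.Agent.NoIid
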