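import Mathlib
import Pool.Agent.NoIid.Tmap

/-!
Lower bound for the probability of a large statistic.
-/

open MeasureTheory

namespace Pool.Agent.NoIid

theorem markov_card (Q : Finset ℤ) (S : Om → Finset ℤ) (hS : ∀ x, S x ⊆ Q)
    (hm : ∀ m, MeasurableSet {x | m ∈ S x}) (p : ℝ) (hp : ∀ m, P.real {x | m ∈ S x} ≤ p)
    (D : ℕ) : MeasurableSet {x | D < (S x).card} ∧
      P.real {x | D < (S x).card} ≤ Q.card * p / (D + 1) := by
  classical
  have hcard : ∀ x, ((S x).card : ℝ) = ∑ m ∈ Q, ({x | m ∈ S x}).indicator (fun _ => (1 : ℝ)) x := by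
    intro x
    have h1 : S x = Q.filter (fun m => m ∈ S x) := by
      ext m
      rw [Finset.mem_filter]
      exact ⟨fun h => ⟨hS x h, h⟩, fun h => h.2⟩
    conv_lhs => rw [h1]
    rw [Finset.card_filter]
    push_cast
    refine Finset.sum_congr rfl (fun m _ => ?_)
    by_cases h : m ∈ S x
    · rw [if_pos h, Set.indicator_of_mem (by exact h)]
    · rw [if_neg h, Set.indicator_of_notMem (by exact h)]
  have hmeas : Measurable (fun x => ((S x).card : ℝ)) := by
    have : (fun x => ((S x).card : ℝ)) =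
        fun x => ∑ m ∈ Q, ({x | m ∈ S x}).indicator (fun _ => (1 : ℝ)) x := funext hcard
    rw [this]
    exact Finset.measurable_sum _ (fun m _ => measurable_const.indicator (hm m))
  have hmE : MeasurableSet {x | D < (S x).card} := by
    have : {x | D < (S x).card} = {x | (D : ℝ) < ((S x).card : ℝ)} := by
      ext x
      simp only [Set.mem_ofPred_eq, Nat.cast_lt]
    rw [this]
    exact measurableSet_lt measurable_const hmeas
  refine ⟨hmE, ?_⟩
  have hint : ∫ x, ((S x).card : ℝ) ∂P ≤ Q.card * p := by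
    have : (fun x => ((S x).card : ℝ)) =
        fun x => ∑ m ∈ Q, ({x | m ∈ S x}).indicator (fun _ => (1 : ℝ)) x := funext hcard
    rw [this, integral_finsetSum _ (fun m _ => integrable_ind (hm m))]
    have h2 : ∀ m ∈ Q, ∫ x, ({x | m ∈ S x}).indicator (fun _ => (1 : ℝ)) x ∂P ≤ p := by
      intro m _
      rw [← real_eq_integral (hm m)]
      exact hp m
    refine le_trans (Finset.sum_le_sum h2) ?_
    rw [Finset.sum_const, nsmul_eq_mul]
  have hbd : ∀ x, ((D : ℝ) + 1) * ({x | D < (S x).card}).indicator (fun _ => (1 : ℝ)) x ≤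
      ((S x).card : ℝ) := by
    intro x
    by_cases h : D < (S x).card
    · rw [Set.indicator_of_mem (by exact h), mul_one]
      exact_mod_cast h
    · rw [Set.indicator_of_notMem (by exact h), mul_zero]
      positivity
  have hintble : Integrable (fun x => ((S x).card : ℝ)) P := by
    have : (fun x => ((S x).card : ℝ)) =
        fun x => ∑ m ∈ Q, ({x | m ∈ S x}).indicator (fun _ => (1 : ℝ)) x := funext hcard
    rw [this]
    exact integrable_finsetSum _ (fun m _ => integrable_ind (hm m))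
  have h3 : ∫ x, ((D : ℝ) + 1) * ({x | D < (S x).card}).indicator (fun _ => (1 : ℝ)) x ∂P ≤
      ∫ x, ((S x).card : ℝ) ∂P :=
    integral_mono ((integrable_ind hmE).const_mul _) hintble hbd
  rw [integral_const_mul, ← real_eq_integral hmE] at h3
  rw [le_div_iff₀ (by positivity)]
  linarith

section

variable {s : ℕ → ℕ} {F : ℕ → (ℤ → Bool) → ℤ → Bool} {j J R : ℕ} {κ : ℤ} {v : ℤ → Bool}

theorem Wh_congr_win {r : ℕ} {W W' : ℤ → Bool} (h : ∀ m, win s J r m → W m = W' m) (m : ℤ) :
    Wh s j J r W m ≠ W m ↔ Wh s j J r W' m ≠ W' m := by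
  have hWm : Wm s J r W = Wm s J r W' := by
    funext m
    by_cases hw : win s J r m
    · rw [Wm_win hw, Wm_win hw, h m hw]
    · unfold Wm
      rw [if_neg hw, if_neg hw]
  by_cases hw : win s J r m
  · rw [Wh_win hw, Wh_win hw, hWm, h m hw]
  · rw [Wh_not_win hw, Wh_not_win hw]
    simp

theorem modS_congr {r : ℕ} {x y : Om} (h : ∀ m, win s J r m → Wf x m = Wf y m) :
    modS s j J r x = modS s j J r y := by
  ext m
  rw [mem_modS, mem_modS]
  exact Wh_congr_win h m

theorem meas_modS {r : ℕ} (m : ℤ) : MeasurableSet {x : Om | m ∈ modS s j J r x} := by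
  refine meas_of_dep (-(3 * 4 ^ s J)) (3 * 4 ^ s J) ?_
  intro x y hxy hx
  rw [Set.mem_ofPred_eq] at hx ⊢
  rwa [← modS_congr (x := x) (y := y) (fun m hm => Wf_congr (hxy m hm.1 hm.2.1))]

theorem ones_prob (q : ℤ) (n : ℕ) :
    P.real {x : Om | ∀ m' : ℤ, q ≤ m' → m' < q + n → Wf x m' = true} = 1 / 2 ^ n := by
  have h1 := pattern (imb true (Finset.Ico q (q + n))) (fun _ => true) (E := Set.univ)
    MeasurableSet.univ (fun q _ x => by simp)
  rw [Set.inter_univ] at h1
  have h2 : {x : Om | ∀ m' : ℤ, q ≤ m' → m' < q + n → Wf x m' = true} =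
      {x | ∀ q' ∈ imb true (Finset.Ico q (q + n)), bt x q' = true} := by
    ext x
    simp only [Set.mem_ofPred_eq]
    constructor
    · rintro h ⟨b, m⟩ hm
      rw [mem_imb, Finset.mem_Ico] at hm
      rw [hm.1, bt_true]
      exact h m hm.2.1 hm.2.2
    · intro h m h3 h4
      rw [← bt_true]
      exact h (true, m) (mem_imb.mpr ⟨rfl, Finset.mem_Ico.mpr ⟨h3, h4⟩⟩)
  rw [h2, h1]
  have h3 : (imb true (Finset.Ico q (q + n))).card = n := by
    unfold imb
    rw [Finset.card_image_of_injective _ (fun a b h => by simpa using h), Int.card_Ico]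
    omega
  rw [h3]
  simp

theorem modS_prob (hs : Growth s) {r : ℕ} (m : ℤ) :
    P.real {x : Om | m ∈ modS s j J r x} ≤ s j / 2 ^ s j := by
  have hsub : {x : Om | m ∈ modS s j J r x} ⊆ ⋃ q ∈ Finset.Ioc (m - s j) m,
      {x : Om | ∀ m' : ℤ, q ≤ m' → m' < q + s j → Wf x m' = true} := by
    intro x hx
    rw [Set.mem_ofPred_eq, mem_modS] at hx
    obtain ⟨_, _, _, q, h1, h2, h3⟩ := Wh_ne hs hx
    simp only [Set.mem_iUnion, Finset.mem_Ioc, exists_prop]
    exact ⟨q, ⟨by omega, h1⟩, h3⟩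
  refine le_trans (measureReal_mono hsub (measure_ne_top _ _)) ?_
  refine le_trans (measureReal_biUnion_finset_le _ _) ?_
  rw [Finset.sum_congr rfl (fun q _ => ones_prob q (s j)), Finset.sum_const, Int.card_Ioc]
  have : (m - (m - s j)).toNat = s j := by omega
  rw [this, nsmul_eq_mul]
  apply le_of_eq
  ring

theorem actS_congr (hs : Growth s) {x y : Om} (h : ∀ m, 0 < m → Wf x m = Wf y m) :
    actS s j J x = actS s j J y := by
  classical
  unfold actS
  refine Finset.filter_congr (fun k hk => ?_)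
  rw [Finset.mem_Icc] at hk
  have hrad := hs.rad_le J
  have h0 := rad_nonneg s J
  have h10 := hs.ge10 J
  have key : ∀ i, i < J → ∀ a e, InJ s i e k → (AM s (Wf x) i a e ↔ AM s (Wf y) i a e) := by
    intro i hi a e hJ
    apply AM.congr
    intro m hm1 hm2
    have h1 := hs.rad_mono hi
    have h2 := hs.pow_geZ i
    have h3 := hJ.1
    have h4 := hJ.2
    exact h m (by omega)
  constructor
  · rintro ⟨i, h1, h2, a, e, h3, h4⟩
    exact ⟨i, h1, h2, a, e, (key i h2 a e h4).mp h3, h4⟩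
  · rintro ⟨i, h1, h2, a, e, h3, h4⟩
    exact ⟨i, h1, h2, a, e, (key i h2 a e h4).mpr h3, h4⟩

theorem meas_actS (hs : Growth s) (m : ℤ) : MeasurableSet {x : Om | m ∈ actS s j J x} := by
  classical
  have : {x : Om | m ∈ actS s j J x} =
      {_x : Om | m ∈ Finset.Icc (s J + 1 : ℤ) (s J + 4 ^ s J)} ∩ {x | ActS s j J (Wf x) m} := by
    ext x
    unfold actS
    simp only [Set.mem_ofPred_eq, Finset.mem_filter, Set.mem_inter_iff]
  rw [this]
  exact (MeasurableSet.const _).inter (meas_ActS hs j J m)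

theorem actS_prob (hs : Growth s) (m : ℤ) :
    P.real {x : Om | m ∈ actS s j J x} ≤ 1 / 2 ^ (8 * s j) := by
  classical
  refine le_trans (measureReal_mono ?_ (measure_ne_top _ _)) (ActS_prob s hs j J m)
  intro x hx
  unfold actS at hx
  rw [Set.mem_ofPred_eq, Finset.mem_filter] at hx
  exact hx.2

theorem ld_lower (hs : Growth s) (hjJ : j ≤ J) (hκ : |κ| ≤ R) {a : ℕ} (ha : a < s J) {N : ℕ}
    {θ : ZMod (2 * (N + R) + 1) → Bool} (hFa : F a = rule R κ v (2 * (N + R)) θ)
    {g : (ℤ → Bool) → Prop} {δ β t : ℝ} (C : Finset ℤ)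
    (hC : ∀ m ∈ C, ∀ k, |k - cen (s J + 1) R m| ≤ N →
      2 * R ≤ k - (s J + 1) ∧ k - (s J + 1) < 4 ^ s J - 2 * R)
    (hmE : MeasurableSet {x : Om | t ≤ stat (nu s F) g N (s J + 1) R δ (2 * (N + R)) θ C
      (Y2 s F j J (s J + 1) R κ v (2 * (N + R)) θ x)})
    (hst : β / 2 ≤ P.real {x : Om | t ≤ stat (nu s F) g N (s J + 1) R δ (2 * (N + R)) θ C
      (Y2 s F j J (s J + 1) R κ v (2 * (N + R)) θ x)})
    (hmT : MeasurableSet {x : Om | t ≤ stat (nu s F) g N (s J + 1) R δ (2 * (N + R)) θ C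
      (Ymap s F x)})
    (D D' : ℕ) (hD : (2 * (3 * 4 ^ s J) + 1) * (s j / 2 ^ s j) / (D + 1) ≤ β / 8)
    (hD' : 4 ^ s J * (1 / 2 ^ (8 * s j)) / (D' + 1) ≤ β / 8) (hβ : 0 ≤ β) :
    β / 4 / 2 ^ (11 * s J + 2) ≤ ((smallS (3 * 4 ^ s J) D).card * 2 ^ D') *
      P.real {x : Om | t ≤ stat (nu s F) g N (s J + 1) R δ (2 * (N + R)) θ C (Ymap s F x)} := by
  classical
  set r := 10 * s J + a with hr
  have h10 := hs.ge10 J
  have hrad := hs.rad_le J
  have hrad0 := rad_nonneg s J
  set E1 : Set Om := {x : Om | t ≤ stat (nu s F) g N (s J + 1) R δ (2 * (N + R)) θ C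
      (Y2 s F j J (s J + 1) R κ v (2 * (N + R)) θ x)} with hE1
  obtain ⟨hm2, hp2⟩ := markov_card (Finset.Icc (-(3 * 4 ^ s J) : ℤ) (3 * 4 ^ s J))
    (modS s j J r) (fun x => Finset.filter_subset _ _) (fun m => meas_modS m) (s j / 2 ^ s j)
    (fun m => modS_prob hs m) D
  obtain ⟨hm3, hp3⟩ := markov_card (Finset.Icc (s J + 1 : ℤ) (s J + 4 ^ s J))
    (actS s j J) (fun x => Finset.filter_subset _ _) (fun m => meas_actS hs m)
    (1 / 2 ^ (8 * s j)) (fun m => actS_prob hs m) D'
  have hc2 : ((Finset.Icc (-(3 * 4 ^ s J) : ℤ) (3 * 4 ^ s J)).card : ℝ) =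
      2 * (3 * 4 ^ s J) + 1 := by
    rw [Int.card_Icc]
    have : (3 * 4 ^ s J + 1 - -(3 * 4 ^ s J) : ℤ) = ((2 * (3 * 4 ^ s J) + 1 : ℕ) : ℤ) := by
      push_cast; ring
    rw [this, Int.toNat_natCast]
    push_cast
    ring
  have hc3 : ((Finset.Icc (s J + 1 : ℤ) (s J + 4 ^ s J)).card : ℝ) = 4 ^ s J := by
    rw [Int.card_Icc]
    have : ((s J : ℤ) + 4 ^ s J + 1 - (s J + 1)) = ((4 ^ s J : ℕ) : ℤ) := by
      push_cast; ring
    rw [this, Int.toNat_natCast]
    push_cast
    ring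
  rw [hc2] at hp2
  rw [hc3] at hp3
  set E2 : Set Om := {x | D < (modS s j J r x).card} with hE2
  set E3 : Set Om := {x | D' < (actS s j J x).card} with hE3
  set G' : Set Om := E1 \ (E2 ∪ E3) with hG'
  have hmG' : MeasurableSet G' := hmE.diff (hm2.union hm3)
  have hpG' : β / 4 ≤ P.real G' := by
    have h1 : P.real E1 ≤ P.real G' + P.real (E2 ∪ E3) := by
      have : E1 ⊆ G' ∪ (E2 ∪ E3) := by
        intro x hx
        by_cases h : x ∈ E2 ∪ E3
        · right; exact h
        · left; exact ⟨hx, h⟩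
      exact le_trans (measureReal_mono this (measure_ne_top _ _)) (measureReal_union_le _ _)
    have h2 : P.real (E2 ∪ E3) ≤ P.real E2 + P.real E3 := measureReal_union_le _ _
    have h3 := le_trans hp2 hD
    have h4 := le_trans hp3 hD'
    linarith
  have hinv : ∀ m : ℤ, 0 - r - 1 ≤ m → m ≤ 0 → Inv (true, m) G' := by
    intro m hm1 hm2 x
    have hW : ∀ m', m' ≠ m → Wf (flS {(true, m)} x) m' = Wf x m' := fun m' h => Wf_flS_of_ne h x
    have hU : ∀ m', Uf (flS {(true, m)} x) m' = Uf x m' := fun m' => Uf_flS_true x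
    have hx : ∀ m', 0 < m' → (flS {(true, m)} x) m' = x m' := by
      intro m' h
      exact Prod.ext (hU m') (hW m' (by omega))
    have e1 : modS s j J r (flS {(true, m)} x) = modS s j J r x := by
      apply modS_congr
      intro m' hw
      apply hW
      rintro rfl
      rcases hw.2.2 with h | h <;> omega
    have e2 : actS s j J (flS {(true, m)} x) = actS s j J x :=
      actS_congr hs (fun m' h => hW m' (by omega))
    have e3 : stat (nu s F) g N (s J + 1) R δ (2 * (N + R)) θ C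
        (Y2 s F j J (s J + 1) R κ v (2 * (N + R)) θ (flS {(true, m)} x)) =
        stat (nu s F) g N (s J + 1) R δ (2 * (N + R)) θ C
        (Y2 s F j J (s J + 1) R κ v (2 * (N + R)) θ x) := by
      apply stat_congr
      intro m' hm' k hk
      have hk' := hC m' hm' k hk
      apply Y2_congr hs hjJ hκ
      intro q h1 h2
      exact hx q (by omega)
    rw [hG', hE1, hE2, hE3]
    simp only [Set.mem_sdiff, Set.mem_union, Set.mem_ofPred_eq]
    rw [e1, e2, e3]
  set G : Set Om := {x | Run (Wf x) 0 r} ∩ G' with hG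
  have hpG : P.real G = P.real G' / 2 ^ (r + 2) := run_prob 0 r hmG' hinv
  have hmG : MeasurableSet G := (meas_run 0 r).inter hmG'
  have hTE : ∀ x ∈ G, TT s F j J r x ∈ {x : Om | t ≤ stat (nu s F) g N (s J + 1) R δ
      (2 * (N + R)) θ C (Ymap s F x)} := by
    rintro x ⟨hR, hx, _⟩
    rw [Set.mem_ofPred_eq] at hR ⊢
    rw [hE1, Set.mem_ofPred_eq] at hx
    refine le_trans hx (le_of_eq ?_)
    apply stat_congr
    intro m hm k hk
    have hk' := hC m hm k hk
    have hI : InJ s J 0 k := ⟨by omega, by omega⟩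
    have h1 := YL_Wh (F := F) (U := Uf x) hs hjJ ha hR hI
    rw [← Yfin_eq_Y2 hs hκ hFa hk'.1 hk'.2, ← h1]
    rfl
  have hmult := mult_bound (QQ s J) hmG hmT ((smallS (3 * 4 ^ s J) D).card * 2 ^ D')
    (TT s F j J r) hTE (fun y => ⟨BB s j J D D' y, BB_card s j J D D' y, BB_sub s j J D D' y,
      fun x hx hxy => by
        rw [← hxy]
        have h1 := hx.2.2
        rw [Set.mem_union, not_or] at h1
        exact BB_mem (not_lt.mp h1.1) (not_lt.mp h1.2)⟩)
  push_cast at hmult
  refine le_trans ?_ hmult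
  rw [hpG]
  calc β / 4 / 2 ^ (11 * s J + 2) ≤ P.real G' / 2 ^ (11 * s J + 2) :=
        div_le_div_of_nonneg_right hpG' (by positivity)
    _ ≤ P.real G' / 2 ^ (r + 2) := by
        apply div_le_div_of_nonneg_left measureReal_nonneg (by positivity)
        exact pow_le_pow_right₀ (by norm_num) (by omega)

end

end Pool.Agent.NoIid
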