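import Mathlib

/-!
Numerical estimates.
-/

namespace Pool.Agent.NoIid

theorem num_final {β T K cnt D D' cC : ℝ} {σ σj : ℕ} (hβ0 : 0 < β)
    (hT : 0 < T) (hD0 : 0 ≤ D) (hcnt0 : 0 ≤ cnt) (d' : ℕ) (hd' : (d' : ℝ) = D')
    (hN1 : 7 * Real.exp (-(σj : ℝ)) + 56 * (σj : ℝ) ^ 2 / 2 ^ σj / β + 8 / 2 ^ (8 * σj) / β ≤
      β ^ 2 / (4 * T))
    (hD : D ≤ 8 * ((2 * (3 * 4 ^ σ) + 1) * (σj / 2 ^ σj)) / β)
    (hD' : D' ≤ 8 * (4 ^ σ * (1 / 2 ^ (8 * σj))) / β)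
    (hC : 4 ^ σ / T - 2 * K - 1 ≤ cC) (hC0 : 0 < cC)
    (hcnt : cnt ≤ Real.exp ((2 * (3 * 4 ^ σ) + 1) * Real.exp (-(σj : ℝ)) + σj * D))
    (hmain : β / 4 / 2 ^ (11 * σ + 2) ≤ (cnt * 2 ^ d') *
      Real.exp (-2 * (β * cC / 2) ^ 2 / cC)) :
    β / 16 ≤ Real.exp (11 * σ - β ^ 2 * 4 ^ σ / (4 * T) + β ^ 2 * (2 * K + 1) / 2) := by
  set n : ℝ := 4 ^ σ with hn
  have hn1 : 1 ≤ n := one_le_pow₀ (by norm_num)
  have h2 : (2 : ℝ) ^ d' ≤ Real.exp D' := by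
    rw [← hd']
    have h3 : (2 : ℝ) ≤ Real.exp 1 := by
      have := Real.add_one_le_exp (1 : ℝ)
      linarith
    calc (2 : ℝ) ^ d' ≤ (Real.exp 1) ^ d' := pow_le_pow_left₀ (by norm_num) h3 _
      _ = Real.exp d' := by rw [← Real.exp_nat_mul, mul_one]
  have h4 : -2 * (β * cC / 2) ^ 2 / cC = -(β ^ 2 * cC / 2) := by
    field_simp
  rw [h4] at hmain
  have h5 : cnt * 2 ^ d' ≤ Real.exp ((2 * (3 * n) + 1) * Real.exp (-(σj : ℝ)) + σj * D) *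
      Real.exp D' := mul_le_mul hcnt h2 (by positivity) (Real.exp_pos _).le
  have h6 : β / 4 / 2 ^ (11 * σ + 2) ≤ Real.exp ((2 * (3 * n) + 1) * Real.exp (-(σj : ℝ)) +
      σj * D + D' + -(β ^ 2 * cC / 2)) := by
    rw [Real.exp_add, Real.exp_add]
    exact le_trans hmain (mul_le_mul_of_nonneg_right h5 (Real.exp_pos _).le)
  have h7 : (2 * (3 * n) + 1) * Real.exp (-(σj : ℝ)) ≤ n * (7 * Real.exp (-(σj : ℝ))) := by
    have := Real.exp_pos (-(σj : ℝ))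
    nlinarith
  have h8 : (σj : ℝ) * D ≤ n * (56 * (σj : ℝ) ^ 2 / 2 ^ σj / β) := by
    have h9 : D ≤ 8 * ((7 * n) * (σj / 2 ^ σj)) / β := by
      refine le_trans hD ?_
      apply div_le_div_of_nonneg_right _ hβ0.le
      apply mul_le_mul_of_nonneg_left _ (by norm_num)
      apply mul_le_mul_of_nonneg_right _ (by positivity)
      linarith
    calc (σj : ℝ) * D ≤ σj * (8 * ((7 * n) * (σj / 2 ^ σj)) / β) :=
          mul_le_mul_of_nonneg_left h9 (by positivity)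
      _ = n * (56 * (σj : ℝ) ^ 2 / 2 ^ σj / β) := by ring
  have h10 : D' ≤ n * (8 / 2 ^ (8 * σj) / β) := by
    refine le_trans hD' (le_of_eq ?_)
    ring
  have h11 : n * (7 * Real.exp (-(σj : ℝ)) + 56 * (σj : ℝ) ^ 2 / 2 ^ σj / β +
      8 / 2 ^ (8 * σj) / β) ≤ n * (β ^ 2 / (4 * T)) :=
    mul_le_mul_of_nonneg_left hN1 (by linarith)
  have h12 : β ^ 2 * (n / T - 2 * K - 1) / 2 ≤ β ^ 2 * cC / 2 := by
    apply div_le_div_of_nonneg_right _ (by norm_num)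
    exact mul_le_mul_of_nonneg_left hC (by positivity)
  have h13 : n * (β ^ 2 / (4 * T)) - β ^ 2 * (n / T - 2 * K - 1) / 2 =
      - (β ^ 2 * n / (4 * T)) + β ^ 2 * (2 * K + 1) / 2 := by
    field_simp
    ring
  have h14 : β / 4 / 2 ^ (11 * σ + 2) ≤ Real.exp (- (β ^ 2 * n / (4 * T)) +
      β ^ 2 * (2 * K + 1) / 2) := by
    refine le_trans h6 (Real.exp_le_exp.mpr ?_)
    linarith
  have h15 : (2 : ℝ) ^ (11 * σ) ≤ Real.exp (11 * σ) := by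
    have h3 : (2 : ℝ) ≤ Real.exp 1 := by
      have := Real.add_one_le_exp (1 : ℝ)
      linarith
    calc (2 : ℝ) ^ (11 * σ) ≤ (Real.exp 1) ^ (11 * σ) := pow_le_pow_left₀ (by norm_num) h3 _
      _ = Real.exp (11 * σ) := by
          rw [← Real.exp_nat_mul, mul_one]
          push_cast
          ring_nf
  have h16 : β / 16 = β / 4 / 2 ^ (11 * σ + 2) * 2 ^ (11 * σ) := by
    rw [pow_add]
    field_simp
    norm_num
  rw [h16]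
  calc β / 4 / 2 ^ (11 * σ + 2) * 2 ^ (11 * σ) ≤ Real.exp (- (β ^ 2 * n / (4 * T)) +
      β ^ 2 * (2 * K + 1) / 2) * Real.exp (11 * σ) :=
        mul_le_mul h14 h15 (by positivity) (Real.exp_pos _).le
    _ = _ := by
        rw [← Real.exp_add]
        congr 1
        ring

theorem sq_le_four_pow (n : ℕ) : (n : ℝ) ^ 2 ≤ 4 ^ n := by
  induction n with
  | zero => norm_num
  | succ n ih =>
    have h0 : (0 : ℝ) ≤ n := Nat.cast_nonneg n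
    have h1 : (1 : ℝ) ≤ 4 ^ n := one_le_pow₀ (by norm_num)
    rw [pow_succ (4 : ℝ)]
    push_cast
    rcases Nat.eq_zero_or_pos n with h | h
    · subst h; norm_num
    · have h2 : (1 : ℝ) ≤ n := by exact_mod_cast h
      nlinarith

theorem num_contra {β c A : ℝ} (hβ : 0 < β) (hc : 0 < c) :
    ∃ σ0 : ℕ, ∀ σ : ℕ, σ0 ≤ σ → ¬ β / 16 ≤ Real.exp (11 * σ - c * 4 ^ σ + A) := by
  have h1 : Filter.Tendsto (fun σ : ℕ => (σ : ℝ)) Filter.atTop Filter.atTop :=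
    tendsto_natCast_atTop_atTop
  have h2 := h1.eventually_ge_atTop (max (12 / c) (|A - Real.log (β / 16)| + 1))
  obtain ⟨σ0, hσ0⟩ := Filter.eventually_atTop.mp h2
  refine ⟨σ0, fun σ hσ hle => ?_⟩
  have h3 := hσ0 σ hσ
  have h4 : 12 / c ≤ (σ : ℝ) := le_trans (le_max_left _ _) h3
  have h5 : |A - Real.log (β / 16)| + 1 ≤ (σ : ℝ) := le_trans (le_max_right _ _) h3
  have h6 : Real.log (β / 16) ≤ 11 * σ - c * 4 ^ σ + A := by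
    rw [Real.log_le_iff_le_exp (by positivity)]
    exact hle
  have h7 := sq_le_four_pow σ
  have h8 : 12 ≤ c * σ := by
    rw [div_le_iff₀ hc] at h4
    linarith
  have h9 : c * (σ : ℝ) ^ 2 ≤ c * 4 ^ σ := mul_le_mul_of_nonneg_left h7 hc.le
  have h10 : 0 ≤ (σ : ℝ) := Nat.cast_nonneg σ
  have h11 : 12 * (σ : ℝ) ≤ c * (σ : ℝ) ^ 2 := by nlinarith
  have h12 := le_abs_self (A - Real.log (β / 16))
  linarith

theorem exists_threshold (Cst : ℝ) : ∃ S0 : ℕ, ∀ σ : ℕ, S0 ≤ σ → Cst * (σ : ℝ) ^ 2 ≤ 2 ^ (σ / 2) := by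
  have h1 := tendsto_pow_const_div_const_pow_of_one_lt 2 (r := (2 : ℝ)) (by norm_num)
  have h2 : ∀ᶠ m : ℕ in Filter.atTop, (m : ℝ) ^ 2 / 2 ^ m ≤ 1 / (9 * (|Cst| + 1)) := by
    have h3 : (0 : ℝ) < 1 / (9 * (|Cst| + 1)) := by positivity
    exact (h1.eventually (ge_mem_nhds h3))
  obtain ⟨m0, hm0⟩ := Filter.eventually_atTop.mp h2
  refine ⟨2 * m0 + 2, fun σ hσ => ?_⟩
  have h4 := hm0 (σ / 2) (by omega)
  rw [div_le_div_iff₀ (by positivity) (by positivity)] at h4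
  have h5 : (σ : ℝ) ≤ 3 * ((σ / 2 : ℕ) : ℝ) := by
    have : σ ≤ 3 * (σ / 2) := by omega
    exact_mod_cast this
  have h6 : (σ : ℝ) ^ 2 ≤ 9 * ((σ / 2 : ℕ) : ℝ) ^ 2 := by
    have : (0 : ℝ) ≤ σ := Nat.cast_nonneg σ
    nlinarith
  have h7 : Cst ≤ |Cst| + 1 := by linarith [le_abs_self Cst]
  calc Cst * (σ : ℝ) ^ 2 ≤ (|Cst| + 1) * (σ : ℝ) ^ 2 :=
        mul_le_mul_of_nonneg_right h7 (by positivity)
    _ ≤ (|Cst| + 1) * (9 * ((σ / 2 : ℕ) : ℝ) ^ 2) :=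
        mul_le_mul_of_nonneg_left h6 (by positivity)
    _ = ((σ / 2 : ℕ) : ℝ) ^ 2 * (9 * (|Cst| + 1)) := by ring
    _ ≤ 1 * 2 ^ (σ / 2) := h4
    _ = 2 ^ (σ / 2) := one_mul _

/-- the level `j` is chosen so that the losses are smaller than the gain -/
theorem num_level {R ρ σ : ℕ} (hρ : 100 * ρ ≤ σ) (hσ1 : 1 ≤ σ)
    (hthr : (284 * (2 * R + 1) * 2 ^ (12 * R + 18) : ℝ) * (σ : ℝ) ^ 2 ≤ 2 ^ (σ / 2)) {β : ℝ}
    (hβ : β = 1 / 2 ^ (4 * R + 3 + ρ) / 8) :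
    7 * Real.exp (-(σ : ℝ)) + 56 * (σ : ℝ) ^ 2 / 2 ^ σ / β + 8 / 2 ^ (8 * σ) / β ≤
      β ^ 2 / (4 * (2 * R + 1)) := by
  have hβ' : β = 1 / 2 ^ (4 * R + 6 + ρ) := by
    rw [hβ]
    have : (2 : ℝ) ^ (4 * R + 6 + ρ) = 2 ^ (4 * R + 3 + ρ) * 8 := by
      have : 4 * R + 6 + ρ = (4 * R + 3 + ρ) + 3 := by ring
      rw [this, pow_add]
      norm_num
    rw [this]
    field_simp
  have hβ0 : 0 < β := by rw [hβ']; positivity
  have hβ1 : β ≤ 1 := by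
    rw [hβ', div_le_one (by positivity)]
    exact one_le_pow₀ (by norm_num)
  have hσr : (1 : ℝ) ≤ σ := by exact_mod_cast hσ1
  have hexp : Real.exp (-(σ : ℝ)) ≤ 1 / 2 ^ σ := by
    rw [Real.exp_neg, inv_eq_one_div]
    apply one_div_le_one_div_of_le (by positivity)
    have h3 : (2 : ℝ) ≤ Real.exp 1 := by
      have := Real.add_one_le_exp (1 : ℝ)
      linarith
    calc (2 : ℝ) ^ σ ≤ (Real.exp 1) ^ σ := pow_le_pow_left₀ (by norm_num) h3 _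
      _ = Real.exp σ := by rw [← Real.exp_nat_mul, mul_one]
  have h8σ : (1 : ℝ) / 2 ^ (8 * σ) ≤ 1 / 2 ^ σ := by
    apply one_div_le_one_div_of_le (by positivity)
    exact pow_le_pow_right₀ (by norm_num) (by omega)
  have hkey : 71 * (σ : ℝ) ^ 2 / 2 ^ σ ≤ β ^ 3 / (4 * (2 * R + 1)) := by
    have e1 : (2 : ℝ) ^ σ = 2 ^ (3 * ρ) * 2 ^ (σ - 3 * ρ) := by
      rw [← pow_add]; congr 1; omega
    have e2 : β ^ 3 = 1 / (2 ^ (12 * R + 18) * 2 ^ (3 * ρ)) := by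
      rw [hβ', div_pow, one_pow, ← pow_mul, ← pow_add]
      congr 2
      ring
    rw [e1, e2, div_div, div_le_div_iff₀ (by positivity) (by positivity)]
    have h1 : (2 : ℝ) ^ (σ / 2) ≤ 2 ^ (σ - 3 * ρ) := pow_le_pow_right₀ (by norm_num) (by omega)
    have h2 := le_trans hthr h1
    have h3 : (0 : ℝ) < 2 ^ (3 * ρ) := by positivity
    calc 71 * (σ : ℝ) ^ 2 * (2 ^ (12 * R + 18) * 2 ^ (3 * ρ) * (4 * (2 * R + 1))) =
        2 ^ (3 * ρ) * ((284 * (2 * R + 1) * 2 ^ (12 * R + 18) : ℝ) * (σ : ℝ) ^ 2) := by ring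
      _ ≤ 2 ^ (3 * ρ) * 2 ^ (σ - 3 * ρ) := mul_le_mul_of_nonneg_left h2 h3.le
      _ = 1 * (2 ^ (3 * ρ) * 2 ^ (σ - 3 * ρ)) := by ring
  have hsq1 : (1 : ℝ) ≤ (σ : ℝ) ^ 2 := one_le_pow₀ hσr
  have hs : 7 * Real.exp (-(σ : ℝ)) * β + 56 * (σ : ℝ) ^ 2 / 2 ^ σ + 8 / 2 ^ (8 * σ) ≤
      71 * (σ : ℝ) ^ 2 / 2 ^ σ := by
    have h1 : 7 * Real.exp (-(σ : ℝ)) * β ≤ 7 * (1 / 2 ^ σ) := by
      have h0 := Real.exp_pos (-(σ : ℝ))
      nlinarith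
    have h2 : 8 / 2 ^ (8 * σ) ≤ 8 * ((1 : ℝ) / 2 ^ σ) := by
      have : (8 : ℝ) / 2 ^ (8 * σ) = 8 * (1 / 2 ^ (8 * σ)) := by ring
      rw [this]
      linarith
    have h3 : (0 : ℝ) < 1 / 2 ^ σ := by positivity
    have h4 : 71 * (σ : ℝ) ^ 2 / 2 ^ σ = 56 * (σ : ℝ) ^ 2 / 2 ^ σ +
        15 * ((σ : ℝ) ^ 2 * (1 / 2 ^ σ)) := by ring
    rw [h4]
    have h5 : (1 : ℝ) / 2 ^ σ ≤ (σ : ℝ) ^ 2 * (1 / 2 ^ σ) := by nlinarith
    linarith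
  have hfin := le_trans hs hkey
  have e3 : 7 * Real.exp (-(σ : ℝ)) + 56 * (σ : ℝ) ^ 2 / 2 ^ σ / β + 8 / 2 ^ (8 * σ) / β =
      (7 * Real.exp (-(σ : ℝ)) * β + 56 * (σ : ℝ) ^ 2 / 2 ^ σ + 8 / 2 ^ (8 * σ)) / β := by
    field_simp
  rw [e3, div_le_iff₀ hβ0]
  refine le_trans hfin (le_of_eq ?_)
  ring

end Pool.Agent.NoIid
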