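import Mathlib
import Pool.Agent.NoIid.Stat

/-!
Upper bound for the probability of a large statistic, from an i.i.d. finitary factor.
-/

open MeasureTheory ProbabilityTheory

namespace Pool.Agent.NoIid

section hoeffding

variable {B : Type*} [Finite B] [MeasurableSpace B] [MeasurableSingletonClass B]

omit [Finite B] in
theorem iid_coord (p : Measure B) [IsProbabilityMeasure p] (c : ℤ) (b : B) :
    (iid p).real {w | w c = b} = p.real {b} := by
  unfold iid Measure.real
  have h1 := Measure.infinitePi_map_eval (fun _ : ℤ => p) c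
  have h2 : p {b} = ((Measure.infinitePi (fun _ : ℤ => p)).map (fun w => w c)) {b} := by
    rw [h1]
  rw [h2, Measure.map_apply (measurable_pi_apply c) (MeasurableSet.singleton b)]
  rfl

open Classical in
theorem hoeff (p : Measure B) [IsProbabilityMeasure p] (b : B) (C : Finset ℤ) (R : ℕ) (a0 : ℤ)
    {t : ℝ} (ht : 0 ≤ t) :
    (iid p).real {w | t ≤ ∑ m ∈ C, ((if w (cen a0 R m) = b then (1 : ℝ) else 0) - p.real {b})} ≤
      Real.exp (-2 * t ^ 2 / C.card) := by
  have : IsProbabilityMeasure (iid p) := by unfold iid; infer_instance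
  set f : B → ℝ := fun c => if c = b then (1 : ℝ) else 0 with hf
  have hfm : Measurable f := measurable_of_finite f
  set X : ℤ → (ℤ → B) → ℝ := fun m w => f (w (cen a0 R m)) with hX
  have hXm : ∀ m, Measurable (X m) := fun m => hfm.comp (measurable_pi_apply _)
  have hint : ∀ m, ∫ w, X m w ∂(iid p) = p.real {b} := by
    intro m
    have h1 : X m = ({w : ℤ → B | w (cen a0 R m) = b}).indicator (fun _ => (1 : ℝ)) := by
      funext w
      simp only [hX, hf]
      by_cases h : w (cen a0 R m) = b
      · rw [if_pos h, Set.indicator_of_mem (by exact h)]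
      · rw [if_neg h, Set.indicator_of_notMem (by exact h)]
    have hms : MeasurableSet {w : ℤ → B | w (cen a0 R m) = b} := by
      have h2 : Measurable (fun w : ℤ → B => w (cen a0 R m)) := measurable_pi_apply _
      exact h2 (MeasurableSet.singleton b)
    rw [h1, integral_indicator hms]
    simp only [integral_const, smul_eq_mul, mul_one, measureReal_restrict_apply_univ]
    exact iid_coord p _ b
  have hsub : ∀ m, HasSubgaussianMGF (fun w => X m w - p.real {b}) ((‖(1 : ℝ) - 0‖₊ / 2) ^ 2)
      (iid p) := by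
    intro m
    rw [← hint m]
    apply hasSubgaussianMGF_of_mem_Icc (hXm m).aemeasurable
    refine Filter.Eventually.of_forall (fun w => ?_)
    simp only [hX, hf]
    split_ifs <;> simp
  have hcinj : Function.Injective (fun m : ℤ => cen a0 R m) := by
    intro m m' h
    have := cen_inj (a0 := a0) (R := R) (q := 0) (q' := 0) (m := m) (m' := m') (by simp) (by simp)
      (by simpa using h)
    exact this.1
  have hind0 : iIndepFun (fun (k : ℤ) (w : ℤ → B) => f (w k) - p.real {b}) (iid p) := by
    unfold iid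
    exact iIndepFun_infinitePi (P := fun _ : ℤ => p) (X := fun _ c => f c - p.real {b})
      (fun _ => hfm.sub_const _)
  have hind : iIndepFun (fun (m : ℤ) (w : ℤ → B) => X m w - p.real {b}) (iid p) :=
    hind0.precomp hcinj
  have h1 := HasSubgaussianMGF.measure_sum_ge_le_of_iIndepFun hind (s := C)
    (c := fun _ => (‖(1 : ℝ) - 0‖₊ / 2) ^ 2) (fun m _ => hsub m) ht
  refine le_trans h1 (le_of_eq ?_)
  congr 1
  rw [Finset.sum_const, nsmul_eq_mul]
  push_cast
  simp only [sub_zero, norm_one]
  by_cases hC : (C.card : ℝ) = 0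
  · rw [hC]; simp
  · field_simp

open Classical in
theorem hoeff' (p : Measure B) [IsProbabilityMeasure p] (b : B) (C : Finset ℤ) (R : ℕ) (a0 : ℤ)
    {t : ℝ} (ht : 0 < t) {n : ℕ} (hn : C.card ≤ n) :
    (iid p).real {w | t ≤ ∑ m ∈ C, ((if w (cen a0 R m) = b then (1 : ℝ) else 0) - p.real {b})} ≤
      Real.exp (-2 * t ^ 2 / n) := by
  rcases Nat.eq_zero_or_pos C.card with h0 | h0
  · rw [Finset.card_eq_zero] at h0
    subst h0
    have : {w : ℤ → B | t ≤ ∑ m ∈ (∅ : Finset ℤ), ((if w (cen a0 R m) = b then (1 : ℝ) else 0) -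
        p.real {b})} = ∅ := by
      ext w
      simp only [Finset.sum_empty, Set.mem_ofPred_eq, Set.mem_empty_iff_false, iff_false, not_le]
      exact ht
    rw [this, measureReal_empty]
    exact (Real.exp_pos _).le
  · refine le_trans (hoeff p b C R a0 ht.le) (Real.exp_le_exp.mpr ?_)
    have h1 : (0 : ℝ) < C.card := by exact_mod_cast h0
    have h2 : (C.card : ℝ) ≤ n := by exact_mod_cast hn
    rw [neg_mul, neg_div, neg_div, neg_le_neg_iff]
    exact div_le_div_of_nonneg_left (by positivity) h1 h2

end hoeffding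

section

variable {s : ℕ → ℕ} {F : ℕ → (ℤ → Bool) → ℤ → Bool} {R : ℕ}
variable {B : Type*} [Finite B] [MeasurableSpace B] [MeasurableSingletonClass B]

omit [Finite B] [MeasurableSingletonClass B] in
theorem equi_iter (hs : Growth s) {p : Measure B} {ψ : (ℤ → Bool) → (ℤ → B)}
    (hψ : IsFinitaryFactorMap (nu s F) (iid p) ψ) (c : ℕ) :
    ∀ᵐ y ∂(nu s F), ψ (fun k => y (k + c)) = fun k => ψ y (k + c) := by
  induction c with
  | zero => simp
  | succ c ih =>
    have h1 := (mp_nu_shift (F := F) hs c).quasiMeasurePreserving.ae hψ.equivariant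
    filter_upwards [ih, h1] with y hy1 hy2
    have e0 : ∀ k : ℤ, k + 1 + (c : ℤ) = k + ((c + 1 : ℕ) : ℤ) := by
      intro k
      push_cast
      ring
    have e1 : shift (fun k : ℤ => y (k + (c : ℤ))) = fun k => y (k + ((c + 1 : ℕ) : ℤ)) := by
      funext k
      unfold shift
      beta_reduce
      rw [e0]
    rw [e1] at hy2
    rw [hy2, hy1]
    funext k
    unfold shift
    beta_reduce
    rw [e0]

theorem ae_shift_dec (hs : Growth s) (g : (ℤ → Bool) → Prop) :
    ∀ᵐ y ∂(nu s F), ∀ c : ℤ, ∀ N, Dec (nu s F) g N (fun k => y (k + c)) →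
      g (fun k => y (k + c)) := by
  rw [ae_all_iff]
  intro c
  exact (mp_nu_shift (F := F) hs c).quasiMeasurePreserving.ae (ae_of_dec (nu s F) g)

open Classical in
theorem stat_upper (hs : Growth s) {p : Measure B} [IsProbabilityMeasure p]
    {ψ : (ℤ → Bool) → (ℤ → B)} (hψ : IsFinitaryFactorMap (nu s F) (iid p) ψ) (b : B) (N : ℕ)
    {a0 : ℤ} {M : ℕ} (θ : ZMod (M + 1) → Bool) (C : Finset ℤ) (hC : ∀ m ∈ C, 0 ≤ cen a0 R m)
    {t : ℝ} (ht : 0 < t) :
    (nu s F).real {y | t ≤ stat (nu s F) (fun y => ψ y 0 = b) N a0 R (p.real {b}) M θ C y} ≤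
      Real.exp (-2 * t ^ 2 / C.card) := by
  have := nu_prob (F := F) hs
  have : IsProbabilityMeasure (iid p) := by unfold iid; infer_instance
  set g : (ℤ → Bool) → Prop := fun y => ψ y 0 = b with hg
  set C' := C.filter (fun m : ℤ => θ (m : ZMod (M + 1)) = true) with hC'
  have hE : ∀ᵐ y ∂(nu s F), ∀ c : ℕ, ψ (fun k => y (k + c)) = fun k => ψ y (k + c) := by
    rw [ae_all_iff]
    exact fun c => equi_iter hs hψ c
  have hkey : ∀ᵐ y ∂(nu s F),
      stat (nu s F) g N a0 R (p.real {b}) M θ C y ≤
        ∑ m ∈ C', ((if (ψ y) (cen a0 R m) = b then (1 : ℝ) else 0) - p.real {b}) := by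
    filter_upwards [hE, ae_shift_dec hs g] with y hy1 hy2
    unfold stat
    rw [hC', Finset.sum_filter]
    refine Finset.sum_le_sum (fun m hm => ?_)
    by_cases hθ : θ (m : ZMod (M + 1)) = true
    · rw [if_pos hθ, if_pos hθ]
      have h1 : PhD (nu s F) g N a0 R m y → ψ y (cen a0 R m) = b := by
        intro h
        unfold PhD at h
        have e1 : (fun k => y (cen a0 R m + k)) = fun k => y (k + cen a0 R m) := by
          funext k; rw [add_comm]
        rw [e1] at h
        have h2 := hy2 _ N h
        rw [hg] at h2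
        have h3 := hy1 (cen a0 R m).toNat
        rw [Int.toNat_of_nonneg (hC m hm)] at h3
        rw [h3] at h2
        simpa using h2
      by_cases hP : PhD (nu s F) g N a0 R m y
      · rw [if_pos hP, if_pos (h1 hP)]
      · rw [if_neg hP]
        split_ifs <;> linarith
    · rw [if_neg hθ, if_neg hθ]
  have hms : MeasurableSet {w : ℤ → B | t ≤
      ∑ m ∈ C', ((if w (cen a0 R m) = b then (1 : ℝ) else 0) - p.real {b})} := by
    refine measurableSet_le measurable_const ?_
    refine Finset.measurable_sum _ (fun m _ => ?_)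
    exact ((measurable_of_finite (fun c : B => if c = b then (1 : ℝ) else 0)).comp
      (measurable_pi_apply (cen a0 R m))).sub_const _
  have h1 : (nu s F).real {y | t ≤ stat (nu s F) g N a0 R (p.real {b}) M θ C y} ≤
      (nu s F).real (ψ ⁻¹' {w : ℤ → B | t ≤
      ∑ m ∈ C', ((if w (cen a0 R m) = b then (1 : ℝ) else 0) - p.real {b})}) := by
    unfold Measure.real
    refine ENNReal.toReal_mono (measure_ne_top _ _) (measure_mono_ae ?_)
    filter_upwards [hkey] with y hy hle
    exact le_trans hle hy
  refine le_trans h1 ?_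
  have h2 : ∀ A : Set (ℤ → B), MeasurableSet A →
      (nu s F).real (ψ ⁻¹' A) = (iid p).real A := by
    intro A hA
    rw [measureReal_def, measureReal_def, ← hψ.map_eq,
      Measure.map_apply_of_aemeasurable hψ.aemeasurable hA]
  rw [h2 _ hms]
  exact hoeff' p b C' R a0 ht (Finset.card_le_card (Finset.filter_subset _ _))

end

end Pool.Agent.NoIid
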