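import Mathlib
import Pool.Agent.NoIid.Lower
import Pool.Agent.NoIid.Upper
import Pool.Agent.NoIid.Numeric

/-!
No nontrivial i.i.d. process is a finitary factor of the constructed process.
-/

open MeasureTheory ProbabilityTheory

namespace Pool.Agent.NoIid

section

variable {s : ℕ → ℕ} {F : ℕ → (ℤ → Bool) → ℤ → Bool}

theorem meas_PhD (ν : Measure (ℤ → Bool)) (g : (ℤ → Bool) → Prop) (N : ℕ) (a0 : ℤ) (R : ℕ)
    (m : ℤ) : MeasurableSet {y : ℤ → Bool | PhD ν g N a0 R m y} := by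
  refine meas_of_dep (cen a0 R m - N) (cen a0 R m + N) ?_
  intro x y hxy hx
  refine PhD_congr _ _ (fun k hk => ?_) hx
  rw [abs_le] at hk
  exact hxy k (by omega) (by omega)

theorem meas_stat (ν : Measure (ℤ → Bool)) (g : (ℤ → Bool) → Prop) (N : ℕ) (a0 : ℤ) (R : ℕ)
    (δ : ℝ) (M : ℕ) (θ : ZMod (M + 1) → Bool) (C : Finset ℤ) :
    Measurable (fun y => stat ν g N a0 R δ M θ C y) := by
  classical
  unfold stat
  refine Finset.measurable_sum _ (fun m _ => ?_)
  by_cases hc : θ (m : ZMod (M + 1)) = true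
  · simp only [if_pos hc]
    exact (Measurable.ite (meas_PhD ν g N a0 R m) measurable_const measurable_const).sub_const δ
  · simp only [if_neg hc]
    exact measurable_const

theorem factor_real {B : Type*} [MeasurableSpace B] {p : Measure B}
    {ψ : (ℤ → Bool) → (ℤ → B)} (hψ : IsFinitaryFactorMap (nu s F) (iid p) ψ) {A : Set (ℤ → B)}
    (hA : MeasurableSet A) : (nu s F).real (ψ ⁻¹' A) = (iid p).real A := by
  rw [measureReal_def, measureReal_def, ← hψ.map_eq,
    Measure.map_apply_of_aemeasurable hψ.aemeasurable hA]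

theorem exists_symbol {B : Type*} [Finite B] [MeasurableSpace B] [MeasurableSingletonClass B]
    (p : Measure B) [IsProbabilityMeasure p] (hnt : ¬ IsTrivialProcess (iid p)) :
    ∃ b, 0 < p.real {b} ∧ p.real {b} < 1 := by
  by_contra hno
  push Not at hno
  have hprob : IsProbabilityMeasure (iid p) := by unfold iid; infer_instance
  by_cases h0 : ∀ b, p {b} = 0
  · have h1 : p Set.univ = 0 := by
      rw [← Set.iUnion_of_singleton B]
      exact measure_iUnion_null h0
    rw [measure_univ] at h1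
    exact one_ne_zero h1
  · push Not at h0
    obtain ⟨b, hb⟩ := h0
    have hb' : 0 < p.real {b} := by
      rw [measureReal_def]
      exact ENNReal.toReal_pos hb (measure_ne_top _ _)
    have hb1 := hno b hb'
    apply hnt
    refine ⟨b, ?_⟩
    have hms : MeasurableSet {w : ℤ → B | w 0 = b} := by
      have h2 : Measurable (fun w : ℤ → B => w 0) := measurable_pi_apply _
      exact h2 (MeasurableSet.singleton b)
    have h2 := iid_coord p 0 b
    have h3 : (iid p).real {w : ℤ → B | w 0 = b}ᶜ = 0 := by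
      rw [probReal_compl_eq_one_sub hms, h2]
      have : p.real {b} ≤ 1 := measureReal_le_one
      linarith
    rw [ae_iff]
    rw [measureReal_eq_zero_iff] at h3
    exact h3

theorem cells_ok {R N σ : ℕ} {sJ : ℤ} {m : ℤ} (hm1 : ((N + R : ℕ) : ℤ) ≤ m)
    (hm2 : m < ((4 ^ σ / (2 * R + 1) : ℕ) : ℤ) - ((N + R : ℕ) : ℤ)) {k : ℤ}
    (hk : |k - cen (sJ + 1) R m| ≤ N) :
    2 * R ≤ k - (sJ + 1) ∧ k - (sJ + 1) < 4 ^ σ - 2 * R := by
  have h1 : ((4 ^ σ / (2 * R + 1) : ℕ) : ℤ) * (2 * R + 1) ≤ 4 ^ σ := by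
    have := Nat.div_mul_le_self (4 ^ σ) (2 * R + 1)
    exact_mod_cast this
  unfold cen at hk
  rw [abs_le] at hk
  push_cast at hm1 hm2
  have h0 : (0 : ℤ) ≤ N := by positivity
  have h0' : (0 : ℤ) ≤ R := by positivity
  have h2 : ((N : ℤ) + R) * (2 * R + 1) ≤ m * (2 * R + 1) :=
    mul_le_mul_of_nonneg_right hm1 (by omega)
  have h3 : (m + N + R + 1) * (2 * R + 1) ≤ ((4 ^ σ / (2 * R + 1) : ℕ) : ℤ) * (2 * R + 1) :=
    mul_le_mul_of_nonneg_right (by push_cast; omega) (by omega)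
  constructor
  · nlinarith
  · nlinarith

theorem not_iid_factor (hs : Growth s)
    (hF : ∀ (R : ℕ) (κ : ℤ) (S : Finset ℤ) (M : ℕ) (θ : ZMod (M + 1) → Bool),
      ∃ a, F a = rule R κ (fun q => decide (q ∈ S)) M θ)
    {B : Type*} [Finite B] [MeasurableSpace B] [MeasurableSingletonClass B] (p : Measure B)
    [IsProbabilityMeasure p] (hnt : ¬ IsTrivialProcess (iid p)) :
    ¬ IsFinitaryFactor (nu s F) (iid p) := by
  classical
  rintro ⟨ψ, hψ⟩
  have hprobν := nu_prob (F := F) hs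
  have hprob : IsProbabilityMeasure (iid p) := by unfold iid; infer_instance
  obtain ⟨b, hb0, hb1⟩ := exists_symbol p hnt
  set δ := p.real {b} with hδ
  set g : (ℤ → Bool) → Prop := fun y => ψ y 0 = b with hg
  have hms : MeasurableSet {w : ℤ → B | w 0 = b} := by
    have h2 : Measurable (fun w : ℤ → B => w 0) := measurable_pi_apply _
    exact h2 (MeasurableSet.singleton b)
  have hνg : (nu s F).real {y | g y} = δ := by
    have h1 := factor_real hψ hms
    rw [iid_coord p 0 b] at h1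
    exact h1
  have hFin : Fin1 (nu s F) g := by
    unfold Fin1
    filter_upwards [hψ.finitary] with y hy
    obtain ⟨r, hr⟩ := hy
    refine ⟨r, ?_⟩
    filter_upwards [hr] with y' hy' h
    rw [hg]
    beta_reduce
    rw [hy' h]
  have hng1 : ¬ ∀ᵐ y ∂(nu s F), g y := by
    intro h
    have h1 : (nu s F).real {y | g y} = (nu s F).real Set.univ := by
      apply measureReal_congr
      filter_upwards [h] with y hy
      exact propext ⟨fun _ => trivial, fun _ => hy⟩
    rw [hνg, probReal_univ] at h1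
    linarith
  have hng0 : ¬ ∀ᵐ y ∂(nu s F), ¬ g y := by
    intro h
    have h1 : (nu s F).real {y | g y} = (nu s F).real ∅ := by
      apply measureReal_congr
      filter_upwards [h] with y hy
      exact propext ⟨fun h2 => hy h2, fun h2 => absurd h2 (Set.notMem_empty y)⟩
    rw [hνg, measureReal_empty] at h1
    linarith
  obtain ⟨R, v, κ, hκ, hv1, hv0⟩ := exists_flip hs hFin hng1 hng0
  -- the coded word
  set S : Finset ℤ := (Finset.Icc (-R : ℤ) R).filter (fun q => v q = true) with hS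
  set v' : ℤ → Bool := fun q => decide (q ∈ S) with hv'
  have hvv : ∀ q : ℤ, |q| ≤ R → v q = v' q := by
    intro q hq
    rw [hv', hS]
    beta_reduce
    rw [abs_le] at hq
    by_cases h : v q = true
    · rw [h]
      exact (decide_eq_true (Finset.mem_filter.mpr ⟨Finset.mem_Icc.mpr hq, h⟩)).symm
    · have h2 : v q = false := by rwa [Bool.not_eq_true] at h
      have h3 : q ∉ (Finset.Icc (-R : ℤ) R).filter (fun q => v q = true) :=
        fun h4 => h (Finset.mem_filter.mp h4).2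
      rw [h2, decide_eq_false h3]
  have hv1' : Dec (nu s F) g R v' := hv1.congr hvv
  have hv0' : Dec (nu s F) (fun y => ¬ g y) R (Function.update v' κ (!v' κ)) := by
    refine hv0.congr (fun q hq => ?_)
    by_cases h : q = κ
    · rw [h, Function.update_self, Function.update_self, hvv κ hκ]
    · rw [Function.update_of_ne h, Function.update_of_ne h, hvv q hq]
  -- the level
  obtain ⟨S0, hS0⟩ := exists_threshold (284 * (2 * R + 1) * 2 ^ (12 * R + 18))
  obtain ⟨j, hj⟩ := hs.exists_ge (max S0 (4 * R))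
  have hj1 : S0 ≤ s j := le_trans (le_max_left _ _) hj
  have hj2 : 4 * R ≤ s j := le_trans (le_max_right _ _) hj
  set ρ := (rad s j).toNat with hρ
  have hρ1 : 100 * ρ ≤ s j := by
    have h1 := hs.rad_le j
    have h2 := rad_nonneg s j
    omega
  set ϖ : ℝ := 1 / 2 ^ (4 * R + 3 + ρ) with hϖ
  set β : ℝ := ϖ / 8 with hβ
  have hβ0 : 0 < β := by rw [hβ, hϖ]; positivity
  have hN1 := num_level (R := R) hρ1 (by have := hs.ge10 j; omega) (hS0 (s j) hj1) hβ
  -- the window
  obtain ⟨N, hRN, hN⟩ : ∃ N, R ≤ N ∧ δ - (nu s F).real {y | Dec (nu s F) g N y} ≤ ϖ / 8 := by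
    have h1 := tendsto_Dec hFin
    rw [hνg] at h1
    have h2 : ∀ᶠ N in Filter.atTop, δ - ϖ / 8 < (nu s F).real {y | Dec (nu s F) g N y} :=
      h1.eventually (lt_mem_nhds (by linarith))
    obtain ⟨N, hN1, hN2⟩ := ((Filter.eventually_ge_atTop R).and h2).exists
    exact ⟨N, hN1, by linarith⟩
  -- codes
  choose a ha using hF R κ S (2 * (N + R))
  set amax := Finset.univ.sup a with hamax
  have hamax' : ∀ θ, a θ ≤ amax := fun θ => Finset.le_sup (Finset.mem_univ θ)
  set T : ℝ := 2 * R + 1 with hT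
  have hT0 : 0 < T := by rw [hT]; positivity
  obtain ⟨σ0, hσ0⟩ := num_contra (c := β ^ 2 / (4 * T)) (A := β ^ 2 * (2 * ((N + R : ℕ) : ℝ) + 1) / 2)
    hβ0 (by positivity)
  -- the large level
  have hev1 : ∀ᶠ i in Filter.atTop, (2 * N + 1) * Real.exp (-(s i : ℝ)) ≤ ϖ / 8 := by
    have h1 := (tendsto_exp_s hs).const_mul (2 * (N : ℝ) + 1)
    rw [mul_zero] at h1
    exact h1.eventually (ge_mem_nhds hβ0)
  have hev2 : ∀ᶠ i in Filter.atTop, j ≤ i + 1 := by
    filter_upwards [Filter.eventually_ge_atTop j] with i hi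
    omega
  have hev3 : ∀ᶠ i in Filter.atTop, amax + σ0 + (2 * (N + R) + 2) * (2 * R + 1) + 1 ≤ s (i + 1) := by
    filter_upwards [Filter.eventually_ge_atTop
      (amax + σ0 + (2 * (N + R) + 2) * (2 * R + 1) + 1)] with i hi
    have h1 := hs.strictMono.id_le (i + 1)
    simp only [id] at h1
    exact le_trans hi (le_trans (Nat.le_succ i) h1)
  obtain ⟨i, ⟨hi1, hi2⟩, hi3⟩ := ((hev1.and hev2).and hev3).exists
  set J := i + 1 with hJ
  set σ := s J with hσ
  have hσσ0 : σ0 ≤ σ := by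
    have h1 : 0 ≤ (2 * (N + R) + 2) * (2 * R + 1) := Nat.zero_le _
    omega
  -- cells
  set nc : ℕ := 4 ^ σ / (2 * R + 1) with hnc
  have hnc1 : 2 * (N + R) + 2 ≤ nc := by
    rw [hnc, Nat.le_div_iff_mul_le (by omega)]
    have h1 := hs.pow_ge J
    rw [← hσ] at h1
    have h2 : (2 * (N + R) + 2) * (2 * R + 1) ≤ σ := by omega
    omega
  set C : Finset ℤ := Finset.Ico ((N + R : ℕ) : ℤ) ((nc : ℤ) - ((N + R : ℕ) : ℤ)) with hC
  have hCcard : C.card = nc - 2 * (N + R) := by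
    rw [hC, Int.card_Ico]
    omega
  have hCpos : 0 < C.card := by omega
  have hCok : ∀ m ∈ C, ∀ k : ℤ, |k - cen ((s J : ℤ) + 1) R m| ≤ N →
      2 * R ≤ k - ((s J : ℤ) + 1) ∧ k - ((s J : ℤ) + 1) < 4 ^ s J - 2 * R := by
    intro m hm k hk
    rw [hC, Finset.mem_Ico] at hm
    exact cells_ok hm.1 hm.2 hk
  obtain ⟨θ, hθ⟩ := exists_theta (F := F) hs hi2 hκ hRN hv1' hv0' hj2 (δ := δ) (le_refl _) hN hi1
    ((s J : ℤ) + 1) C
  obtain ⟨hmE, hst⟩ := stat_prob (F := F) hs hi2 hκ (g := g) (v := v') (δ := δ) (β := β)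
    (by linarith) hβ0.le ((s J : ℤ) + 1) C hCpos θ hθ
  set t : ℝ := β * C.card / 2 with ht
  have hCpos' : (0 : ℝ) < C.card := by exact_mod_cast hCpos
  have ht0 : 0 < t := by rw [ht]; positivity
  have hmT : MeasurableSet {x : Om | t ≤ stat (nu s F) g N ((s J : ℤ) + 1) R δ (2 * (N + R)) θ C
      (Ymap s F x)} :=
    measurableSet_le measurable_const ((meas_stat _ _ _ _ _ _ _ _ _).comp (measurable_Ymap hs))
  set X1 : ℝ := (2 * (3 * 4 ^ σ) + 1) * (s j / 2 ^ s j) with hX1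
  set X2 : ℝ := 4 ^ σ * (1 / 2 ^ (8 * s j)) with hX2
  have hX1' : 0 ≤ X1 := by rw [hX1]; positivity
  have hX2' : 0 ≤ X2 := by rw [hX2]; positivity
  have hfloor : ∀ X : ℝ, 0 ≤ X → X / ((⌊8 * X / β⌋₊ : ℝ) + 1) ≤ β / 8 := by
    intro X hX
    rw [div_le_iff₀ (by positivity)]
    have h1 := Nat.lt_floor_add_one (8 * X / β)
    rw [div_lt_iff₀ hβ0] at h1
    linarith
  have hlow := ld_lower (F := F) (v := v') hs hi2 hκ (a := a θ) (J := J) (N := N) (θ := θ) (by
      have h1 := hamax' θ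
      have h2 : 0 ≤ (2 * (N + R) + 2) * (2 * R + 1) := Nat.zero_le _
      omega) (ha θ)
    (g := g) (δ := δ) (β := β) (t := t) C hCok hmE hst hmT ⌊8 * X1 / β⌋₊ ⌊8 * X2 / β⌋₊
    (hfloor X1 hX1') (hfloor X2 hX2') hβ0.le
  have hup := stat_upper (F := F) (R := R) hs hψ b N (a0 := (s J : ℤ) + 1) θ C (fun m hm => by
    rw [hC, Finset.mem_Ico] at hm
    have h1 : (0 : ℤ) ≤ m := le_trans (by positivity) hm.1
    unfold cen
    positivity) ht0
  have hPν : P.real {x : Om | t ≤ stat (nu s F) g N ((s J : ℤ) + 1) R δ (2 * (N + R)) θ C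
      (Ymap s F x)} = (nu s F).real {y | t ≤ stat (nu s F) g N ((s J : ℤ) + 1) R δ
      (2 * (N + R)) θ C y} := by
    rw [measureReal_def, measureReal_def]
    congr 1
    conv_rhs => rw [nu]
    rw [Measure.map_apply (measurable_Ymap hs)
      (measurableSet_le measurable_const (meas_stat _ _ _ _ _ _ _ _ _))]
    rfl
  rw [hPν] at hlow
  have hmain := le_trans hlow (mul_le_mul_of_nonneg_left hup (by positivity))
  refine hσ0 σ hσσ0 ?_
  have hfin := num_final (β := β) (T := T) (K := ((N + R : ℕ) : ℝ))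
    (cnt := ((smallS (3 * 4 ^ σ) ⌊8 * X1 / β⌋₊).card : ℝ)) (D := (⌊8 * X1 / β⌋₊ : ℝ))
    (D' := (⌊8 * X2 / β⌋₊ : ℝ)) (cC := (C.card : ℝ)) (σ := σ) (σj := s j) hβ0 hT0
    (by positivity) (by positivity) ⌊8 * X2 / β⌋₊ rfl hN1
    (Nat.floor_le (by positivity)) (Nat.floor_le (by positivity)) ?_ hCpos' ?_ hmain
  · have e1 : β ^ 2 * 4 ^ σ / (4 * T) = β ^ 2 / (4 * T) * 4 ^ σ := by ring
    rw [e1] at hfin
    exact hfin
  · -- number of cells
    rw [hCcard, Nat.cast_sub (by omega)]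
    have h1 : (4 : ℝ) ^ σ / T - 1 ≤ nc := by
      have h2 := Nat.lt_div_mul_add (a := 4 ^ σ) (b := 2 * R + 1) (by omega)
      rw [← hnc] at h2
      have h3 : (4 : ℝ) ^ σ < nc * (2 * R + 1) + (2 * R + 1) := by exact_mod_cast h2
      rw [← hT] at h3
      rw [sub_le_iff_le_add, div_le_iff₀ hT0]
      linarith
    push_cast
    push_cast at h1
    linarith
  · have h1 := smallS_card (3 * 4 ^ σ) ⌊8 * X1 / β⌋₊ (s j : ℝ) (by positivity)
    refine le_trans h1 (le_of_eq ?_)
    push_cast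
    rfl

end

/-- the parameters of the levels -/
def sq : ℕ → ℕ
  | 0 => 10
  | i + 1 => 1000 * 4 ^ sq i

theorem sq_growth : Growth sq := ⟨le_refl _, fun _ => le_refl _⟩

/-- parameters of the cell rules -/
abbrev Par := ℕ × ℤ × Finset ℤ × (Σ M : ℕ, (ZMod (M + 1) → Bool))

theorem exists_enum : ∃ F : ℕ → (ℤ → Bool) → ℤ → Bool,
    ∀ (R : ℕ) (κ : ℤ) (S : Finset ℤ) (M : ℕ) (θ : ZMod (M + 1) → Bool),
      ∃ a, F a = rule R κ (fun q => decide (q ∈ S)) M θ := by
  have : Nonempty Par := ⟨(0, 0, ∅, ⟨0, fun _ => false⟩)⟩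
  obtain ⟨f, hf⟩ := exists_surjective_nat Par
  refine ⟨fun a => rule (f a).1 (f a).2.1 (fun q => decide (q ∈ (f a).2.2.1)) (f a).2.2.2.1
    (f a).2.2.2.2, fun R κ S M θ => ?_⟩
  obtain ⟨a, ha⟩ := hf (R, κ, S, ⟨M, θ⟩)
  refine ⟨a, ?_⟩
  beta_reduce
  rw [ha]

end Pool.Agent.NoIid
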